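import Mathlib
import Pool.Agent.Helper627.PM

/-!
# A crossing lemma in a rectangle

Four open sets of a rectangle, two pairs of disjoint ones, with prescribed behaviour on the sides,
cannot cover the rectangle.
-/

open Set Metric

noncomputable section

namespace Pool.Agent.Y521

/-- The signed distance function of two open sets. -/
def sgd (U W : Set (ℝ × ℝ)) (p : ℝ × ℝ) : ℝ := infDist p Uᶜ - infDist p Wᶜ

lemma continuous_sgd (U W : Set (ℝ × ℝ)) : Continuous (sgd U W) :=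
  (continuous_infDist_pt _).sub (continuous_infDist_pt _)

lemma sgd_pos {U W : Set (ℝ × ℝ)} (hU : IsOpen U) (hd : Disjoint U W) (hW : W.Nonempty)
    {p : ℝ × ℝ} (hp : p ∈ U) : 0 < sgd U W p := by
  unfold sgd
  have h1 : (Uᶜ).Nonempty := by
    obtain ⟨q, hq⟩ := hW
    exact ⟨q, fun h => Set.disjoint_left.1 hd h hq⟩
  have h2 : 0 < infDist p Uᶜ :=
    (hU.isClosed_compl.notMem_iff_infDist_pos h1).1 (by simpa using hp)
  have h3 : infDist p Wᶜ = 0 := infDist_zero_of_mem (Set.disjoint_left.1 hd hp)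
  linarith

lemma sgd_neg {U W : Set (ℝ × ℝ)} (hW : IsOpen W) (hd : Disjoint U W) (hU : U.Nonempty)
    {p : ℝ × ℝ} (hp : p ∈ W) : sgd U W p < 0 := by
  have := sgd_pos hW hd.symm hU hp
  unfold sgd at *
  linarith

/-- **Crossing lemma.** -/
theorem crossing {c : ℝ} (hc : 0 < c) {Up Um Vp Vm : Set (ℝ × ℝ)} (hUp : IsOpen Up)
    (hUm : IsOpen Um) (hVp : IsOpen Vp) (hVm : IsOpen Vm) (hU : Disjoint Up Um)
    (hV : Disjoint Vp Vm)
    (top : ∀ z ∈ Icc (0 : ℝ) 1, (c, z) ∈ Up ∧ (c, z) ∈ Vp)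
    (bot : ∀ z ∈ Icc (0 : ℝ) 1, (-c, z) ∈ Um ∧ (-c, z) ∈ Vm)
    (left : ∀ s ∈ Icc (-c) c, (s, (0 : ℝ)) ∈ Um ∨ (s, (0 : ℝ)) ∈ Vp)
    (right : ∀ s ∈ Icc (-c) c, (s, (1 : ℝ)) ∈ Up ∨ (s, (1 : ℝ)) ∈ Vm) :
    ∃ s ∈ Icc (-c) c, ∃ z ∈ Icc (0 : ℝ) 1, (s, z) ∉ Up ∧ (s, z) ∉ Um ∧ (s, z) ∉ Vp ∧
      (s, z) ∉ Vm := by
  have h0 : (0 : ℝ) ∈ Icc (0 : ℝ) 1 := ⟨le_rfl, zero_le_one⟩
  have nUp : Up.Nonempty := ⟨_, (top 0 h0).1⟩
  have nVp : Vp.Nonempty := ⟨_, (top 0 h0).2⟩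
  have nUm : Um.Nonempty := ⟨_, (bot 0 h0).1⟩
  have nVm : Vm.Nonempty := ⟨_, (bot 0 h0).2⟩
  set u : ℝ × ℝ → ℝ := sgd Up Um with hu
  set v : ℝ × ℝ → ℝ := sgd Vp Vm with hv
  have cu : Continuous u := continuous_sgd _ _
  have cv : Continuous v := continuous_sgd _ _
  let F : ℝ × ℝ → ℝ := fun p => u p + v p
  let G : ℝ × ℝ → ℝ := fun p => u p - v p + (2 * p.2 - 1) * |u p + v p|
  have cF : Continuous F := cu.add cv
  have cG : Continuous G := by
    have : Continuous fun p : ℝ × ℝ => |u p + v p| := (cu.add cv).abs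
    exact (cu.sub cv).add (((continuous_const.mul continuous_snd).sub continuous_const).mul this)
  have H1 : ∀ y ∈ Icc (0 : ℝ) 1, F (-c, y) < 0 := by
    intro y hy
    have a1 := sgd_neg hUm hU nUp (bot y hy).1
    have a2 := sgd_neg hVm hV nVp (bot y hy).2
    show u (-c, y) + v (-c, y) < 0
    exact add_neg a1 a2
  have H2 : ∀ y ∈ Icc (0 : ℝ) 1, 0 < F (c, y) := by
    intro y hy
    have a1 := sgd_pos hUp hU nUm (top y hy).1
    have a2 := sgd_pos hVp hV nVm (top y hy).2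
    show 0 < u (c, y) + v (c, y)
    exact add_pos a1 a2
  have H3 : ∀ x ∈ Icc (-c) c, G (x, 0) < 0 := by
    intro x hx
    show u (x, 0) - v (x, 0) + (2 * (0 : ℝ) - 1) * |u (x, 0) + v (x, 0)| < 0
    rcases left x hx with h | h
    · have a1 : u (x, 0) < 0 := sgd_neg hUm hU nUp h
      rcases abs_cases (u (x, 0) + v (x, 0)) with ⟨e, e'⟩ | ⟨e, e'⟩ <;> rw [e] <;> linarith
    · have a1 : 0 < v (x, 0) := sgd_pos hVp hV nVm h
      rcases abs_cases (u (x, 0) + v (x, 0)) with ⟨e, e'⟩ | ⟨e, e'⟩ <;> rw [e] <;> linarith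
  have H4 : ∀ x ∈ Icc (-c) c, 0 < G (x, 1) := by
    intro x hx
    show 0 < u (x, 1) - v (x, 1) + (2 * (1 : ℝ) - 1) * |u (x, 1) + v (x, 1)|
    rcases right x hx with h | h
    · have a1 : 0 < u (x, 1) := sgd_pos hUp hU nUm h
      rcases abs_cases (u (x, 1) + v (x, 1)) with ⟨e, e'⟩ | ⟨e, e'⟩ <;> rw [e] <;> linarith
    · have a1 : v (x, 1) < 0 := sgd_neg hVm hV nVp h
      rcases abs_cases (u (x, 1) + v (x, 1)) with ⟨e, e'⟩ | ⟨e, e'⟩ <;> rw [e] <;> linarith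
  obtain ⟨s, hs, z, hz, e1, e2⟩ := Helper627.PM.poincare_miranda (-c) c 0 1 (by linarith)
    zero_le_one G F cG.continuousOn cF.continuousOn H1 H2 H3 H4
  · refine ⟨s, hs, z, hz, ?_⟩
    have h1 : u (s, z) + v (s, z) = 0 := e2
    have h2 : u (s, z) - v (s, z) = 0 := by
      have : u (s, z) - v (s, z) + (2 * z - 1) * |u (s, z) + v (s, z)| = 0 := e1
      rw [h1] at this
      simpa using this
    have h3 : u (s, z) = 0 := by linarith
    have h4 : v (s, z) = 0 := by linarith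
    refine ⟨fun h => ?_, fun h => ?_, fun h => ?_, fun h => ?_⟩
    · exact absurd h3 (sgd_pos hUp hU nUm h).ne'
    · exact absurd h3 (sgd_neg hUm hU nUp h).ne
    · exact absurd h4 (sgd_pos hVp hV nVm h).ne'
    · exact absurd h4 (sgd_neg hVm hV nVp h).ne

end Pool.Agent.Y521
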