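import Mathlib

/-!
# Trapping and exit of curves in a block
-/

open Set Metric Real

noncomputable section

namespace Pool.Agent.Y521

/-- Barrier lemma. -/
lemma barrier_le {f f' : ℝ → ℝ} {a b : ℝ} (hf : ∀ t ∈ Icc a b, HasDerivAt f (f' t) t) {B m : ℝ}
    (ha : f a ≤ B) (bound : ∀ x ∈ Icc a b, f x = B + m * (x - a) → f' x < m) :
    ∀ x ∈ Icc a b, f x ≤ B + m * (x - a) := by
  have hB : ∀ x, HasDerivAt (fun x => B + m * (x - a)) m x := fun x => by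
    simpa using (((hasDerivAt_id x).sub_const a).const_mul m).const_add B
  refine image_le_of_deriv_right_lt_deriv_boundary' (f' := f') (B' := fun _ => m)
    (fun x hx => (hf x hx).continuousAt.continuousWithinAt)
    (fun x hx => (hf x (Ico_subset_Icc_self hx)).hasDerivWithinAt) (by simpa using ha)
    (fun x hx => (hB x).continuousAt.continuousWithinAt)
    (fun x hx => (hB x).hasDerivWithinAt)
    (fun x hx h => bound x (Ico_subset_Icc_self hx) h)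

/-- Barrier lemma from below. -/
lemma barrier_ge {f f' : ℝ → ℝ} {a b : ℝ} (hf : ∀ t ∈ Icc a b, HasDerivAt f (f' t) t) {B m : ℝ}
    (ha : B ≤ f a) (bound : ∀ x ∈ Icc a b, f x = B + m * (x - a) → m < f' x) :
    ∀ x ∈ Icc a b, B + m * (x - a) ≤ f x := by
  have := barrier_le (f := fun t => - f t) (f' := fun t => - f' t) (a := a) (b := b) (B := -B)
    (m := -m) (fun t ht => (hf t ht).neg) (by linarith)
    (fun x hx h => by
      have := bound x hx (by linarith)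
      linarith)
  intro x hx
  have := this x hx
  linarith

/-- First time at which a continuous function takes a value. -/
lemma first_time {f : ℝ → ℝ} (hf : Continuous f) {a t₀ : ℝ} (h0 : f 0 < a) (ht0 : 0 ≤ t₀)
    (ht : a ≤ f t₀) : ∃ T ∈ Icc 0 t₀, f T = a ∧ ∀ s ∈ Icc 0 T, f s ≤ a := by
  have hc : IsCompact (Icc 0 t₀ ∩ f ⁻¹' (Ici a)) :=
    isCompact_Icc.inter_right (isClosed_Ici.preimage hf)
  obtain ⟨T, hT1, hT2⟩ := hc.exists_isLeast ⟨t₀, ⟨ht0, le_rfl⟩, ht⟩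
  have hlt : ∀ s, 0 ≤ s → s < T → f s < a := by
    intro s hs0 hs
    by_contra hcon
    push Not at hcon
    have := hT2 ⟨⟨hs0, hs.le.trans hT1.1.2⟩, hcon⟩
    linarith
  have hle : f T ≤ a := by
    rcases hT1.1.1.eq_or_lt with h | h
    · rw [← h]; exact h0.le
    · have h1 : ∀ᶠ s in nhdsWithin T (Iio T), f s ≤ a := by
        have : Ioo 0 T ∈ nhdsWithin T (Iio T) := Ioo_mem_nhdsLT h
        filter_upwards [this] with s hs
        exact (hlt s hs.1.le hs.2).le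
      exact le_of_tendsto (hf.continuousAt.mono_left nhdsWithin_le_nhds) h1
  refine ⟨T, hT1.1, le_antisymm hle hT1.2, ?_⟩
  intro s hs
  rcases hs.2.eq_or_lt with h | h
  · rw [h]; exact hle
  · exact (hlt s hs.1 h).le

/-- The constants. -/
structure Par where
  (del c Cf lam psi0 c1 c0 c2 B w k Cy r eps : ℝ)
  del_pos : 0 < del
  del_le : del ≤ 1 / 4
  c_pos : 0 < c
  c_le : c ≤ Cf
  lam_pos : 0 < lam
  c1_pos : 0 < c1
  c1_lt : c1 < c0
  c0_lt : c0 < c2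
  c2_le : c2 * exp del ≤ psi0
  w_pos : 0 < w
  w_le : 2 * w ≤ π / 2 - del
  k_pos : 0 < k
  Cy_nonneg : 0 ≤ Cy
  Cy_lt : Cy * (4 * w / c) < r
  eps_pos : 0 < eps
  eps_le : eps ≤ k / 2
  B_lt : B + eps < lam * (c1 * exp (-2))
  eps_lt : eps < lam * ((k / 4 * (w / (2 * Cf))) * exp (-2))

variable {W : Type*} [NormedAddCommGroup W] [NormedSpace ℝ W]

/-- The inequalities in the forward block. -/
structure Fwd (p : Par) (Ff Fp mu b : ℝ → ℝ → W → ℝ) : Prop where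
  f1 : ∀ φ ψ y, -p.del ≤ φ → φ ≤ π / 2 - p.del → |ψ| ≤ p.psi0 → p.c ≤ Ff φ ψ y ∧ Ff φ ψ y ≤ p.Cf
  f2 : ∀ φ ψ y, π / 2 + p.del / 2 ≤ φ → φ ≤ π / 2 + p.del → |ψ| ≤ p.psi0 → Ff φ ψ y < 0
  f3 : ∀ φ ψ y, π / 2 - p.del ≤ φ → φ ≤ π / 2 + p.del → |ψ| ≤ p.psi0 → p.c ≤ mu φ ψ y
  f4 : ∀ φ ψ y, -p.del ≤ φ → φ ≤ π / 2 + p.del → |ψ| ≤ p.psi0 →
    ∃ L, p.lam ≤ L ∧ |Fp φ ψ y + ψ * Ff φ ψ y - L * ψ - b φ ψ y| ≤ p.eps
  f5 : ∀ φ ψ y, -p.del ≤ φ → φ ≤ π / 2 + p.del → |ψ| ≤ p.psi0 → |b φ ψ y| ≤ p.B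
  f6 : ∀ φ ψ y, 2 * p.w ≤ |φ| → |φ| ≤ π / 2 + p.del → |ψ| ≤ p.psi0 → b φ ψ y = 0

/-- The kick pushes down near `ya`. -/
structure Kick (p : Par) (ya : W) (Fy : ℝ → ℝ → W → W) (b : ℝ → ℝ → W → ℝ) : Prop where
  g1 : ∀ φ ψ y, |φ| ≤ 2 * p.w → |ψ| ≤ p.psi0 → ‖y - ya‖ ≤ p.r → b φ ψ y ≤ 0
  g2 : ∀ φ ψ y, |φ| ≤ p.w → |ψ| ≤ p.psi0 → ‖y - ya‖ ≤ p.r → b φ ψ y ≤ -p.k
  g3 : ∀ φ ψ y, -p.del ≤ φ → φ ≤ π / 2 + p.del → |ψ| ≤ p.psi0 → ‖y - ya‖ ≤ p.r →
    ‖Fy φ ψ y‖ ≤ p.Cy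

/-- Integral curves. -/
structure Crv (Ff Fp : ℝ → ℝ → W → ℝ) (Fy : ℝ → ℝ → W → W) (φ ψ : ℝ → ℝ) (y : ℝ → W) :
    Prop where
  dφ : ∀ t, HasDerivAt φ (Ff (φ t) (ψ t) (y t)) t
  dψ : ∀ t, HasDerivAt ψ (Fp (φ t) (ψ t) (y t)) t
  dy : ∀ t, HasDerivAt y (Fy (φ t) (ψ t) (y t)) t

/-- The height function. -/
def Hh (φ ψ : ℝ) : ℝ := ψ * exp φ

/-- The open block. -/
def inG (p : Par) (φ ψ : ℝ) : Prop :=
  -p.del < φ ∧ φ < π / 2 + p.del ∧ |Hh φ ψ| < p.c2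

namespace Par

variable (p : Par)

lemma c0_pos : 0 < p.c0 := p.c1_pos.trans p.c1_lt
lemma c2_pos : 0 < p.c2 := p.c0_pos.trans p.c0_lt
lemma Cf_pos : 0 < p.Cf := p.c_pos.trans_le p.c_le

lemma psi_le {φ ψ : ℝ} (h1 : -p.del ≤ φ) (h2 : |Hh φ ψ| ≤ p.c2) : |ψ| ≤ p.psi0 := by
  have e : |ψ| = |Hh φ ψ| * exp (-φ) := by
    unfold Hh
    rw [abs_mul, abs_of_pos (exp_pos φ), mul_assoc, ← exp_add]
    simp
  rw [e]
  calc |Hh φ ψ| * exp (-φ) ≤ p.c2 * exp p.del := by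
        gcongr
        · exact p.c2_pos.le
        · linarith
    _ ≤ p.psi0 := p.c2_le

lemma pi_bound : π / 2 + p.del ≤ 2 := by
  have := pi_lt_d2
  have := p.del_le
  linarith

lemma psi_ge {φ ψ d : ℝ} (h2 : φ ≤ π / 2 + p.del) (hd : 0 ≤ d) (h : d ≤ Hh φ ψ) :
    d * exp (-2) ≤ ψ := by
  have e : ψ = Hh φ ψ * exp (-φ) := by
    unfold Hh
    rw [mul_assoc, ← exp_add]
    simp
  rw [e]
  have := p.pi_bound
  have h3 : exp (-2) ≤ exp (-φ) := exp_le_exp.2 (by linarith)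
  exact mul_le_mul h h3 (exp_pos _).le (hd.trans h)

end Par

section curve

variable {p : Par} {Ff Fp mu b : ℝ → ℝ → W → ℝ} {Fy : ℝ → ℝ → W → W} {φ ψ : ℝ → ℝ} {y : ℝ → W}

set_option linter.unusedSectionVars false

lemma Crv.hasDerivAt_H (h : Crv Ff Fp Fy φ ψ y) (t : ℝ) :
    HasDerivAt (fun t => Hh (φ t) (ψ t))
      (exp (φ t) * (Fp (φ t) (ψ t) (y t) + ψ t * Ff (φ t) (ψ t) (y t))) t := by
  exact ((h.dψ t).fun_mul (h.dφ t).exp).congr_deriv (by ring)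

lemma Crv.continuous_H (h : Crv Ff Fp Fy φ ψ y) : Continuous (fun t => Hh (φ t) (ψ t)) :=
  continuous_iff_continuousAt.2 fun t => (h.hasDerivAt_H t).continuousAt

/-- The range of `φ` as long as the height is controlled. -/
lemma phi_range (hF : Fwd p Ff Fp mu b) (h : Crv Ff Fp Fy φ ψ y) (h0 : φ 0 = 0) {T : ℝ}
    (hH : ∀ s ∈ Icc 0 T, |Hh (φ s) (ψ s)| ≤ p.c2) :
    ∀ s ∈ Icc 0 T, 0 ≤ φ s ∧ φ s ≤ π / 2 + p.del / 2 ∧
      (p.c / 2 * s ≤ φ s ∨ π / 2 - p.del ≤ φ s) ∧ (p.c / 2 * s ≤ π / 2 - p.del → p.c / 2 * s ≤ φ s)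
      := by
  have hpi := pi_pos
  have hpi3 := pi_gt_three
  have hd := p.del_pos
  have hd' := p.del_le
  have hc := p.c_pos
  have up : ∀ s ∈ Icc 0 T, φ s ≤ π / 2 + p.del / 2 := by
    have := barrier_le (f := φ) (B := π / 2 + p.del / 2) (m := 0) (a := 0) (b := T)
      (fun t _ => h.dφ t) (by rw [h0]; positivity) ?_
    · simpa using this
    · intro x hx e
      have e' : φ x = π / 2 + p.del / 2 := by simpa using e
      exact hF.f2 _ _ _ (by rw [e']) (by rw [e']; linarith)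
        (p.psi_le (by rw [e']; linarith) (hH x hx))
  set S := (π / 2 - p.del) / (p.c / 2) with hS
  have hSpos : 0 < S := by rw [hS]; apply div_pos <;> linarith
  have hcS : p.c / 2 * S = π / 2 - p.del := by rw [hS]; field_simp
  have lo1 : ∀ s ∈ Icc 0 (min T S), p.c / 2 * s ≤ φ s := by
    have := barrier_ge (f := φ) (B := 0) (m := p.c / 2) (a := 0) (b := min T S)
      (fun t _ => h.dφ t) (by rw [h0]) ?_
    · simpa using this
    · intro x hx e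
      have e' : φ x = p.c / 2 * x := by simpa using e
      have hx1 : x ∈ Icc 0 T := ⟨hx.1, hx.2.trans (min_le_left _ _)⟩
      have hx2 : x ≤ S := hx.2.trans (min_le_right _ _)
      have h3 : 0 ≤ φ x := by rw [e']; have := hx.1; positivity
      have h4 : φ x ≤ π / 2 - p.del := by
        rw [e', ← hcS]; gcongr
      have := (hF.f1 _ (ψ x) (y x) (by linarith) h4
        (p.psi_le (by linarith) (hH x hx1))).1
      linarith
  have lo2 : ∀ s ∈ Icc S T, π / 2 - p.del ≤ φ s := by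
    intro s hs
    have hST : S ≤ T := hs.1.trans hs.2
    have := barrier_ge (f := φ) (B := π / 2 - p.del) (m := 0) (a := S) (b := T)
      (fun t _ => h.dφ t) (by
        have := lo1 S ⟨hSpos.le, by rw [min_eq_right hST]⟩
        rw [hcS] at this; exact this) ?_
    · simpa using this s hs
    · intro x hx e
      have e' : φ x = π / 2 - p.del := by simpa using e
      have := (hF.f1 (φ x) (ψ x) (y x) (by rw [e']; linarith) (by rw [e'])
        (p.psi_le (by rw [e']; linarith) (hH x ⟨hSpos.le.trans hx.1, hx.2⟩))).1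
      linarith
  intro s hs
  have key : p.c / 2 * s ≤ φ s ∨ π / 2 - p.del ≤ φ s := by
    rcases le_total s S with hsS | hsS
    · exact Or.inl (lo1 s ⟨hs.1, le_min hs.2 hsS⟩)
    · exact Or.inr (lo2 s ⟨hsS, hs.2⟩)
  refine ⟨?_, up s hs, key, ?_⟩
  · rcases key with h | h
    · have := hs.1
      exact le_trans (by positivity) h
    · linarith
  · intro h1
    have hsS : s ≤ S := by
      rw [hS, le_div_iff₀ (by positivity)]
      linarith
    exact lo1 s ⟨hs.1, le_min hs.2 hsS⟩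

/-- As long as the height is controlled the curve is in the block. -/
lemma inG_of_H (hF : Fwd p Ff Fp mu b) (h : Crv Ff Fp Fy φ ψ y) (h0 : φ 0 = 0) {T : ℝ}
    (hH : ∀ s ∈ Icc 0 T, |Hh (φ s) (ψ s)| < p.c2) :
    ∀ s ∈ Icc 0 T, inG p (φ s) (ψ s) := by
  intro s hs
  have := phi_range hF h h0 (fun s hs => (hH s hs).le) s hs
  have hd := p.del_pos
  exact ⟨by linarith [this.1], by linarith [this.2.1], hH s hs⟩

/-- Exit through the top. -/
def ExitP (p : Par) (φ ψ : ℝ → ℝ) : Prop :=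
  ∃ T, 0 ≤ T ∧ (∀ s ∈ Icc 0 T, inG p (φ s) (ψ s)) ∧ p.c0 < Hh (φ T) (ψ T)

/-- Exit through the bottom. -/
def ExitM (p : Par) (φ ψ : ℝ → ℝ) : Prop :=
  ∃ T, 0 ≤ T ∧ (∀ s ∈ Icc 0 T, inG p (φ s) (ψ s)) ∧ Hh (φ T) (ψ T) < -p.c0

/-- A curve which does not exit stays. -/
lemma stays (hF : Fwd p Ff Fp mu b) (h : Crv Ff Fp Fy φ ψ y) (h0 : φ 0 = 0)
    (hψ0 : |ψ 0| ≤ p.c0) (hP : ¬ ExitP p φ ψ) (hM : ¬ ExitM p φ ψ) :
    ∀ t, 0 ≤ t → |Hh (φ t) (ψ t)| ≤ p.c0 := by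
  intro t ht
  by_contra hcon
  push Not at hcon
  obtain ⟨a, ha1, ha2⟩ := exists_between (lt_min hcon p.c0_lt)
  have hstart : |Hh (φ 0) (ψ 0)| < a := by
    unfold Hh
    rw [h0, exp_zero, mul_one]
    linarith
  obtain ⟨T, hT, hT1, hT2⟩ := first_time (f := fun t => |Hh (φ t) (ψ t)|) h.continuous_H.abs
    hstart ht (ha2.le.trans (min_le_left _ _))
  have hG := inG_of_H hF h h0 (T := T)
    (fun s hs => lt_of_le_of_lt (hT2 s hs) (ha2.trans_le (min_le_right _ _)))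
  replace hT1 : |Hh (φ T) (ψ T)| = a := hT1
  have ha : p.c0 < a := ha1
  rcases abs_cases (Hh (φ T) (ψ T)) with ⟨e, _⟩ | ⟨e, _⟩
  · exact hP ⟨T, hT.1, hG, by linarith⟩
  · exact hM ⟨T, hT.1, hG, by linarith⟩

/-- Outward monotonicity of the height. -/
lemma H_growth (hF : Fwd p Ff Fp mu b) (φ ψ : ℝ) (y : W) (hG : inG p φ ψ)
    (hH : p.c1 ≤ Hh φ ψ) : 0 < Fp φ ψ y + ψ * Ff φ ψ y := by
  obtain ⟨hG1, hG2, hG3⟩ := hG
  have hψ := p.psi_le hG1.le hG3.le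
  obtain ⟨L, hL1, hL2⟩ := hF.f4 φ ψ y hG1.le hG2.le hψ
  have hb := hF.f5 φ ψ y hG1.le hG2.le hψ
  have h1 := p.psi_ge hG2.le p.c1_pos.le hH
  have h2 : p.lam * (p.c1 * exp (-2)) ≤ L * ψ := by
    have := p.lam_pos
    have := p.c1_pos
    exact mul_le_mul hL1 h1 (by positivity) (by linarith)
  have h3 := p.B_lt
  rw [abs_le] at hL2 hb
  linarith [hL2.1, hb.1]

lemma H_growth_neg (hF : Fwd p Ff Fp mu b) (φ ψ : ℝ) (y : W) (hG : inG p φ ψ)
    (hH : Hh φ ψ ≤ -p.c1) : Fp φ ψ y + ψ * Ff φ ψ y < 0 := by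
  obtain ⟨hG1, hG2, hG3⟩ := hG
  have hψ := p.psi_le hG1.le hG3.le
  obtain ⟨L, hL1, hL2⟩ := hF.f4 φ ψ y hG1.le hG2.le hψ
  have hb := hF.f5 φ ψ y hG1.le hG2.le hψ
  have h1 := p.psi_ge (ψ := -ψ) hG2.le p.c1_pos.le (by unfold Hh at *; linarith)
  have h2 : p.lam * (p.c1 * exp (-2)) ≤ L * (-ψ) := by
    have := p.lam_pos
    have := p.c1_pos
    exact mul_le_mul hL1 h1 (by positivity) (by linarith)
  have h3 := p.B_lt
  rw [abs_le] at hL2 hb
  linarith [hL2.2, hb.2]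

/-- A curve cannot exit through both sides. -/
lemma not_both (hF : Fwd p Ff Fp mu b) (h : Crv Ff Fp Fy φ ψ y) :
    ¬ (ExitP p φ ψ ∧ ExitM p φ ψ) := by
  rintro ⟨⟨T, hT0, hTG, hT⟩, ⟨S, hS0, hSG, hS⟩⟩
  have hc1 := p.c1_lt
  have hc0 := p.c0_pos
  have hc1' := p.c1_pos
  rcases le_total T S with hTS | hTS
  · have := barrier_ge (f := fun t => Hh (φ t) (ψ t)) (B := p.c1) (m := 0) (a := T) (b := S)
      (fun t _ => h.hasDerivAt_H t) (by linarith) (fun x hx e => by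
        have e' : Hh (φ x) (ψ x) = p.c1 := by simpa using e
        exact mul_pos (exp_pos _)
          (H_growth hF _ _ _ (hSG x ⟨hT0.trans hx.1, hx.2⟩) e'.ge)) S ⟨hTS, le_rfl⟩
    simp only [zero_mul, add_zero] at this
    linarith
  · have := barrier_le (f := fun t => Hh (φ t) (ψ t)) (B := -p.c1) (m := 0) (a := S) (b := T)
      (fun t _ => h.hasDerivAt_H t) (by linarith) (fun x hx e => by
        have e' : Hh (φ x) (ψ x) = -p.c1 := by simpa using e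
        exact mul_neg_of_pos_of_neg (exp_pos _)
          (H_growth_neg hF _ _ _ (hTG x ⟨hS0.trans hx.1, hx.2⟩) e'.le)) T ⟨hTS, le_rfl⟩
    simp only [zero_mul, add_zero] at this
    linarith

end curve

end Pool.Agent.Y521
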