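import Mathlib
import Pool.Agent.Y521.Dyn1

/-!
# The effect of the kick
-/

open Set Metric Real

noncomputable section

namespace Pool.Agent.Y521

variable {W : Type*} [NormedAddCommGroup W] [NormedSpace ℝ W]
variable {p : Par} {Ff Fp mu b : ℝ → ℝ → W → ℝ} {Fy : ℝ → ℝ → W → W} {φ ψ : ℝ → ℝ} {y : ℝ → W}
  {ya : W}

set_option linter.unusedSectionVars false

namespace Par

variable (p : Par)

/-- the time spent in the plateau of the kick -/
def tw : ℝ := p.w / (2 * p.Cf)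

/-- the gain -/
def d : ℝ := p.k / 4 * p.tw

/-- the time after which the kick is over -/
def t1 : ℝ := 4 * p.w / p.c

lemma tw_pos : 0 < p.tw := div_pos p.w_pos (by have := p.Cf_pos; positivity)
lemma d_pos : 0 < p.d := mul_pos (by have := p.k_pos; positivity) p.tw_pos
lemma t1_pos : 0 < p.t1 := div_pos (by have := p.w_pos; positivity) p.c_pos

lemma Cf_tw : 2 * p.Cf * p.tw = p.w := by
  unfold tw
  have := p.Cf_pos
  field_simp

lemma c_t1 : p.c / 2 * p.t1 = 2 * p.w := by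
  unfold t1
  have := p.c_pos
  field_simp
  ring

lemma tw_le_t1 : p.tw ≤ p.t1 := by
  unfold tw t1
  have h1 := p.c_pos
  have h2 := p.Cf_pos
  have h3 := p.w_pos
  have h4 := p.c_le
  rw [div_le_div_iff₀ (by positivity) h1]
  nlinarith

lemma eps_lt' : p.eps < p.lam * (p.d * exp (-2)) := p.eps_lt

lemma r_pos : 0 < p.r := by
  have h1 := p.Cy_lt
  have h2 := p.Cy_nonneg
  have h3 := p.t1_pos
  unfold t1 at h3
  exact lt_of_le_of_lt (by positivity) h1

end Par

/-- The curve stays near `ya` during the kick. -/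
lemma y_range (hF : Fwd p Ff Fp mu b) (hK : Kick p ya Fy b) (h : Crv Ff Fp Fy φ ψ y)
    (h0 : φ 0 = 0) (hy0 : y 0 = ya) {T : ℝ} (hH : ∀ s ∈ Icc 0 T, |Hh (φ s) (ψ s)| ≤ p.c2) :
    ∀ s ∈ Icc 0 (min T p.t1), ‖y s - ya‖ ≤ p.r := by
  have ht1 := p.t1_pos
  have hr := p.r_pos
  have hd := p.del_pos
  set C := p.r / p.t1 with hC
  have hCC : p.Cy < C := by
    rw [hC, lt_div_iff₀ ht1]; exact p.Cy_lt
  have hB : ∀ x, HasDerivAt (fun x => C * x) C x := fun x => by
    simpa using (hasDerivAt_id x).const_mul C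
  have key := image_norm_le_of_norm_deriv_right_lt_deriv_boundary' (a := 0) (b := min T p.t1)
    (f := fun s => y s - ya) (f' := fun s => Fy (φ s) (ψ s) (y s))
    (B := fun x => C * x) (B' := fun _ => C)
    (fun x _ => ((h.dy x).sub_const ya).continuousAt.continuousWithinAt)
    (fun x _ => ((h.dy x).sub_const ya).hasDerivWithinAt) (by simp [hy0])
    (fun x _ => (hB x).continuousAt.continuousWithinAt)
    (fun x _ => (hB x).hasDerivWithinAt) ?_
  · intro s hs
    refine (key hs).trans ?_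
    have h2 : s ≤ p.t1 := hs.2.trans (min_le_right _ _)
    have hCpos : 0 < C := div_pos hr ht1
    calc C * s ≤ C * p.t1 := by gcongr
      _ = p.r := by rw [hC]; field_simp
  · intro x hx e
    have hxT : x ∈ Icc 0 T := ⟨hx.1, hx.2.le.trans (min_le_left _ _)⟩
    have h2 : x ≤ p.t1 := hx.2.le.trans (min_le_right _ _)
    have hCpos : 0 < C := div_pos hr ht1
    have h3 : ‖y x - ya‖ ≤ p.r := by
      rw [e]
      calc C * x ≤ C * p.t1 := by gcongr
        _ = p.r := by rw [hC]; field_simp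
    have h4 := phi_range hF h h0 hH x hxT
    exact lt_of_le_of_lt (hK.g3 _ _ _ (by linarith [h4.1]) (by linarith [h4.2.1])
      (p.psi_le (by linarith [h4.1]) (hH x hxT)) h3) hCC

/-- Upper bound of `φ` for short time. -/
lemma phi_short (hF : Fwd p Ff Fp mu b) (h : Crv Ff Fp Fy φ ψ y)
    (h0 : φ 0 = 0) {T : ℝ} (hH : ∀ s ∈ Icc 0 T, |Hh (φ s) (ψ s)| ≤ p.c2) :
    ∀ s ∈ Icc 0 (min T p.tw), φ s ≤ p.w := by
  have hCf := p.Cf_pos
  have hw := p.w_pos
  have hd := p.del_pos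
  have := barrier_le (f := φ) (B := 0) (m := 2 * p.Cf) (a := 0) (b := min T p.tw)
    (fun t _ => h.dφ t) (by rw [h0]) ?_
  · intro s hs
    have h1 := this s hs
    have h2 : s ≤ p.tw := hs.2.trans (min_le_right _ _)
    rw [← p.Cf_tw]
    calc φ s ≤ 2 * p.Cf * s := by simpa using h1
      _ ≤ 2 * p.Cf * p.tw := by gcongr
  · intro x hx e
    have e' : φ x = 2 * p.Cf * x := by simpa using e
    have hxT : x ∈ Icc 0 T := ⟨hx.1, hx.2.trans (min_le_left _ _)⟩
    have h2 : x ≤ p.tw := hx.2.trans (min_le_right _ _)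
    have h3 : φ x ≤ p.w := by
      rw [e', ← p.Cf_tw]; gcongr
    have h4 : 0 ≤ φ x := by rw [e']; have := hx.1; positivity
    have h5 := p.w_le
    have := (hF.f1 (φ x) (ψ x) (y x) (by linarith) (by linarith)
      (p.psi_le (by linarith) (hH x hxT))).2
    linarith

/-- The height is pushed down. -/
lemma H_short (hF : Fwd p Ff Fp mu b) (hK : Kick p ya Fy b) (h : Crv Ff Fp Fy φ ψ y)
    (h0 : φ 0 = 0) (hψ0 : ψ 0 ≤ 0) (hy0 : y 0 = ya) {T : ℝ}
    (hH : ∀ s ∈ Icc 0 T, |Hh (φ s) (ψ s)| ≤ p.c2) :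
    ∀ s ∈ Icc 0 (min T p.tw), Hh (φ s) (ψ s) ≤ -(p.k / 4) * s := by
  have hk := p.k_pos
  have hd := p.del_pos
  have := barrier_le (f := fun t => Hh (φ t) (ψ t)) (B := 0) (m := -(p.k / 4)) (a := 0)
    (b := min T p.tw) (fun t _ => h.hasDerivAt_H t)
    (by show Hh (φ 0) (ψ 0) ≤ 0; unfold Hh; rw [h0, exp_zero, mul_one]; exact hψ0) ?_
  · intro s hs
    simpa using this s hs
  · intro x hx e
    have e' : Hh (φ x) (ψ x) = -(p.k / 4) * x := by simpa using e
    have hxT : x ∈ Icc 0 T := ⟨hx.1, hx.2.trans (min_le_left _ _)⟩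
    have h4 := phi_range hF h h0 hH x hxT
    have h5 := phi_short hF h h0 hH x hx
    have h6 := y_range hF hK h h0 hy0 hH x
      ⟨hx.1, hx.2.trans (min_le_min le_rfl p.tw_le_t1)⟩
    have h7 := p.psi_le (by linarith [h4.1]) (hH x hxT)
    have h8 : ψ x ≤ 0 := by
      have : Hh (φ x) (ψ x) ≤ 0 := by
        rw [e']; have := hx.1; nlinarith
      unfold Hh at this
      by_contra hcon
      push Not at hcon
      have := mul_pos hcon (exp_pos (φ x))
      linarith
    obtain ⟨L, hL1, hL2⟩ := hF.f4 (φ x) (ψ x) (y x) (by linarith [h4.1]) (by linarith [h4.2.1]) h7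
    have h9 := hK.g2 (φ x) (ψ x) (y x) (by rw [abs_of_nonneg h4.1]; exact h5) h7 h6
    have hlam := p.lam_pos
    have h10 : L * ψ x ≤ 0 := mul_nonpos_of_nonneg_of_nonpos (by linarith) h8
    have h11 := p.eps_le
    rw [abs_le] at hL2
    have h12 : Fp (φ x) (ψ x) (y x) + ψ x * Ff (φ x) (ψ x) (y x) ≤ -(p.k / 2) := by
      linarith [hL2.2]
    have h13 : 1 ≤ exp (φ x) := one_le_exp h4.1
    nlinarith

/-- The rate of decrease after the plateau. -/
lemma rate_le (hF : Fwd p Ff Fp mu b) (hK : Kick p ya Fy b) (φ ψ : ℝ) (y : W)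
    (h1 : 0 ≤ φ) (h2 : φ ≤ π / 2 + p.del) (h3 : |Hh φ ψ| ≤ p.c2)
    (h4 : Hh φ ψ ≤ -p.d) (h5 : ‖y - ya‖ ≤ p.r ∨ 2 * p.w ≤ φ) :
    exp φ * (Fp φ ψ y + ψ * Ff φ ψ y) ≤ -(p.lam * (p.d * exp (-2)) - p.eps) := by
  have hd := p.del_pos
  have hw := p.w_pos
  have h7 := p.psi_le (by linarith) h3
  obtain ⟨L, hL1, hL2⟩ := hF.f4 φ ψ y (by linarith) h2 h7
  have h8 := p.psi_ge (ψ := -ψ) h2 p.d_pos.le (by unfold Hh at *; linarith)
  have h9 : p.lam * (p.d * exp (-2)) ≤ L * (-ψ) := by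
    have := p.lam_pos
    have := p.d_pos
    exact mul_le_mul hL1 h8 (by positivity) (by linarith)
  have h10 : b φ ψ y ≤ 0 := by
    by_cases hc : 2 * p.w ≤ φ
    · exact (hF.f6 φ ψ y (by rwa [abs_of_nonneg h1]) (by rwa [abs_of_nonneg h1]) h7).le
    · rcases h5 with h5 | h5
      · exact hK.g1 φ ψ y (by rw [abs_of_nonneg h1]; linarith) h7 h5
      · exact absurd h5 hc
  rw [abs_le] at hL2
  have h11 : Fp φ ψ y + ψ * Ff φ ψ y ≤ -(p.lam * (p.d * exp (-2)) - p.eps) := by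
    linarith [hL2.2]
  have h12 := p.eps_lt'
  have h13 : 1 ≤ exp φ := one_le_exp h1
  nlinarith

/-- The height stays below `-d`. -/
lemma H_long (hF : Fwd p Ff Fp mu b) (hK : Kick p ya Fy b) (h : Crv Ff Fp Fy φ ψ y)
    (h0 : φ 0 = 0) (hψ0 : ψ 0 ≤ 0) (hy0 : y 0 = ya) {T : ℝ}
    (hH : ∀ s ∈ Icc 0 T, |Hh (φ s) (ψ s)| ≤ p.c2) {m : ℝ}
    (hm : -(p.lam * (p.d * exp (-2)) - p.eps) < m) (hm0 : m ≤ 0) :
    ∀ s ∈ Icc p.tw T, Hh (φ s) (ψ s) ≤ -p.d + m * (s - p.tw) := by
  have htw := p.tw_pos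
  have hd := p.del_pos
  by_cases hT : p.tw ≤ T
  swap
  · intro s hs; exact absurd (hs.1.trans hs.2) hT
  refine barrier_le (f := fun t => Hh (φ t) (ψ t)) (B := -p.d) (m := m) (a := p.tw)
    (b := T) (fun t _ => h.hasDerivAt_H t) ?_ ?_
  · have := H_short hF hK h h0 hψ0 hy0 hH p.tw ⟨htw.le, by rw [min_eq_right hT]⟩
    unfold Par.d
    linarith
  · intro x hx e
    have hxT : x ∈ Icc 0 T := ⟨htw.le.trans hx.1, hx.2⟩
    have h4 := phi_range hF h h0 hH x hxT
    refine lt_of_le_of_lt (rate_le hF hK (φ x) (ψ x) (y x) h4.1 (by linarith [h4.2.1])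
      (hH x hxT) ?_ ?_) hm
    · replace e : Hh (φ x) (ψ x) = -p.d + m * (x - p.tw) := e
      rw [e]
      have : m * (x - p.tw) ≤ 0 := mul_nonpos_of_nonpos_of_nonneg hm0 (by linarith [hx.1])
      linarith
    · rcases le_total x p.t1 with h5 | h5
      · exact Or.inl (y_range hF hK h h0 hy0 hH x ⟨hxT.1, le_min hx.2 h5⟩)
      · right
        have h6 := p.c_t1
        have h7 : p.c / 2 * p.t1 ≤ p.c / 2 * x := by
          have := p.c_pos
          gcongr
        rcases h4.2.2.1 with h8 | h8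
        · linarith
        · have := p.w_le
          linarith

/-- **Exit through the bottom near `ya`.** -/
theorem exit_minus (hF : Fwd p Ff Fp mu b) (hK : Kick p ya Fy b) (h : Crv Ff Fp Fy φ ψ y)
    (h0 : φ 0 = 0) (hψ0 : ψ 0 ≤ 0) (hψ1 : -p.c0 ≤ ψ 0) (hy0 : y 0 = ya) : ExitM p φ ψ := by
  by_contra hM
  have hdpos := p.d_pos
  have htw := p.tw_pos
  have hc0 := p.c0_pos
  have hrate := p.eps_lt'
  have hbound : ∀ t, 0 ≤ t → |Hh (φ t) (ψ t)| ≤ p.c0 := by
    intro t ht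
    by_contra hcon
    push Not at hcon
    obtain ⟨a, ha1, ha2⟩ := exists_between (lt_min hcon p.c0_lt)
    have hstart : |Hh (φ 0) (ψ 0)| < a := by
      unfold Hh
      rw [h0, exp_zero, mul_one, abs_of_nonpos hψ0]
      linarith
    obtain ⟨T, hT, hT1, hT2⟩ := first_time (f := fun t => |Hh (φ t) (ψ t)|) h.continuous_H.abs
      hstart ht (ha2.le.trans (min_le_left _ _))
    have hlt : ∀ s ∈ Icc 0 T, |Hh (φ s) (ψ s)| < p.c2 :=
      (fun s hs => lt_of_le_of_lt (hT2 s hs) (ha2.trans_le (min_le_right _ _)))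
    have hG := inG_of_H hF h h0 (T := T) hlt
    have hHle : Hh (φ T) (ψ T) ≤ 0 := by
      rcases le_total T p.tw with h5 | h5
      · have := H_short hF hK h h0 hψ0 hy0 (fun s hs => (hlt s hs).le) T
          ⟨hT.1, by rw [min_eq_left h5]⟩
        have hk := p.k_pos
        have := hT.1
        nlinarith
      · have := H_long hF hK h h0 hψ0 hy0 (fun s hs => (hlt s hs).le) (m := 0)
          (by linarith) le_rfl T ⟨h5, le_rfl⟩
        linarith
    replace hT1 : |Hh (φ T) (ψ T)| = a := hT1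
    rw [abs_of_nonpos hHle] at hT1
    exact hM ⟨T, hT.1, hG, by linarith⟩
  set q := (p.lam * (p.d * exp (-2)) - p.eps) / 2 with hq
  have hqpos : 0 < q := by rw [hq]; linarith
  set T := p.tw + p.c0 / q with hT
  have hTpos : p.tw ≤ T := by rw [hT]; have := div_pos hc0 hqpos; linarith
  have h1 := H_long hF hK h h0 hψ0 hy0 (T := T)
    (fun s hs => (hbound s hs.1).trans p.c0_lt.le) (m := -q) (by linarith) (by linarith) T
    ⟨hTpos, le_rfl⟩
  have h2 : q * (T - p.tw) = p.c0 := by rw [hT]; field_simp; ring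
  have h3 := hbound T (by linarith)
  rw [abs_le] at h3
  linarith [h3.1]

end Pool.Agent.Y521
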