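import Mathlib
import Pool.Agent.Y521.Dyn2
import Pool.Agent.Y521.Cross

/-!
# Existence of an orbit from the negative to the positive region
-/

open Set Metric Real
open scoped Topology

noncomputable section

namespace Pool.Agent.Y521

variable {W : Type*} [NormedAddCommGroup W] [NormedSpace ℝ W]

set_option linter.unusedSectionVars false

section openness

variable {p : Par}

lemma isOpen_G : IsOpen {v : (ℝ × ℝ) × W | inG p v.1.1 v.1.2} := by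
  unfold inG Hh
  have h1 : Continuous fun v : (ℝ × ℝ) × W => v.1.1 := by fun_prop
  have h2 : Continuous fun v : (ℝ × ℝ) × W => |v.1.2 * exp v.1.1| := by fun_prop
  exact (isOpen_lt continuous_const h1).inter
    ((isOpen_lt h1 continuous_const).inter (isOpen_lt h2 continuous_const))

lemma isOpen_exit {Q : Type*} [TopologicalSpace Q] {γ : Q → ℝ → (ℝ × ℝ) × W}
    (hγ : Continuous fun q : Q × ℝ => γ q.1 q.2) {O : Set ((ℝ × ℝ) × W)} (hO : IsOpen O) :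
    IsOpen {q : Q | ∃ T, 0 ≤ T ∧ (∀ s ∈ Icc 0 T, inG p (γ q s).1.1 (γ q s).1.2) ∧ γ q T ∈ O} := by
  rw [isOpen_iff_mem_nhds]
  rintro q ⟨T, hT0, hT1, hT2⟩
  have h1 : ∀ᶠ q' in 𝓝 q, ∀ s ∈ Icc 0 T, inG p (γ q' s).1.1 (γ q' s).1.2 := by
    refine isCompact_Icc.eventually_forall_of_forall_eventually ?_
    intro s hs
    have h3 : γ q s ∈ {v : (ℝ × ℝ) × W | inG p v.1.1 v.1.2} := hT1 s hs
    exact (hγ.continuousAt (x := (q, s))).preimage_mem_nhds (isOpen_G.mem_nhds h3)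
  have h2 : ∀ᶠ q' in 𝓝 q, γ q' T ∈ O := by
    have : Continuous fun q' : Q => γ q' T :=
      hγ.comp (continuous_id.prodMk continuous_const)
    exact this.continuousAt.preimage_mem_nhds (hO.mem_nhds hT2)
  filter_upwards [h1, h2] with q' a1 a2
  exact ⟨T, hT0, a1, a2⟩

lemma isOpen_exitP {Q : Type*} [TopologicalSpace Q] {γ : Q → ℝ → (ℝ × ℝ) × W}
    (hγ : Continuous fun q : Q × ℝ => γ q.1 q.2) :
    IsOpen {q : Q | ExitP p (fun t => (γ q t).1.1) (fun t => (γ q t).1.2)} := by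
  have h2 : Continuous fun v : (ℝ × ℝ) × W => Hh v.1.1 v.1.2 := by unfold Hh; fun_prop
  exact isOpen_exit hγ (isOpen_lt (continuous_const (y := p.c0)) h2)

lemma isOpen_exitM {Q : Type*} [TopologicalSpace Q] {γ : Q → ℝ → (ℝ × ℝ) × W}
    (hγ : Continuous fun q : Q × ℝ => γ q.1 q.2) :
    IsOpen {q : Q | ExitM p (fun t => (γ q t).1.1) (fun t => (γ q t).1.2)} := by
  have h2 : Continuous fun v : (ℝ × ℝ) × W => Hh v.1.1 v.1.2 := by unfold Hh; fun_prop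
  exact isOpen_exit hγ (isOpen_lt h2 (continuous_const (y := -p.c0)))

end openness

section refl

variable {p : Par} {Ff Fp mu b : ℝ → ℝ → W → ℝ} {Fy : ℝ → ℝ → W → W} {φ ψ : ℝ → ℝ} {y : ℝ → W}
  {ya yb : W}

lemma Fwd.refl (h : Fwd p Ff Fp mu b) :
    Fwd p (fun φ ψ y => Ff φ (-ψ) y) (fun φ ψ y => -Fp φ (-ψ) y) (fun φ ψ y => mu φ (-ψ) y)
      (fun φ ψ y => -b φ (-ψ) y) where
  f1 φ ψ y h1 h2 h3 := h.f1 φ (-ψ) y h1 h2 (by rwa [abs_neg])
  f2 φ ψ y h1 h2 h3 := h.f2 φ (-ψ) y h1 h2 (by rwa [abs_neg])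
  f3 φ ψ y h1 h2 h3 := h.f3 φ (-ψ) y h1 h2 (by rwa [abs_neg])
  f4 φ ψ y h1 h2 h3 := by
    obtain ⟨L, hL1, hL2⟩ := h.f4 φ (-ψ) y h1 h2 (by rwa [abs_neg])
    refine ⟨L, hL1, ?_⟩
    rw [← abs_neg]
    convert hL2 using 2
    ring
  f5 φ ψ y h1 h2 h3 := by rw [abs_neg]; exact h.f5 φ (-ψ) y h1 h2 (by rwa [abs_neg])
  f6 φ ψ y h1 h2 h3 := by rw [h.f6 φ (-ψ) y h1 h2 (by rwa [abs_neg]), neg_zero]

/-- Two-sided kick data. -/
structure Kick2 (p : Par) (ya yb : W) (Fy : ℝ → ℝ → W → W) (b : ℝ → ℝ → W → ℝ) : Prop where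
  a1 : ∀ φ ψ y, |φ| ≤ 2 * p.w → |ψ| ≤ p.psi0 → ‖y - ya‖ ≤ p.r → b φ ψ y ≤ 0
  a2 : ∀ φ ψ y, |φ| ≤ p.w → |ψ| ≤ p.psi0 → ‖y - ya‖ ≤ p.r → b φ ψ y ≤ -p.k
  a3 : ∀ φ ψ y, |φ| ≤ π / 2 + p.del → |ψ| ≤ p.psi0 → ‖y - ya‖ ≤ p.r → ‖Fy φ ψ y‖ ≤ p.Cy
  b1 : ∀ φ ψ y, |φ| ≤ 2 * p.w → |ψ| ≤ p.psi0 → ‖y - yb‖ ≤ p.r → 0 ≤ b φ ψ y
  b2 : ∀ φ ψ y, |φ| ≤ p.w → |ψ| ≤ p.psi0 → ‖y - yb‖ ≤ p.r → p.k ≤ b φ ψ y
  b3 : ∀ φ ψ y, |φ| ≤ π / 2 + p.del → |ψ| ≤ p.psi0 → ‖y - yb‖ ≤ p.r → ‖Fy φ ψ y‖ ≤ p.Cy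

lemma Kick2.abs_le' {φ : ℝ} (h1 : -p.del ≤ φ) (h2 : φ ≤ π / 2 + p.del) : |φ| ≤ π / 2 + p.del := by
  rw [abs_le]
  have := pi_pos
  constructor <;> linarith

/-- forward, at `ya`, bottom -/
lemma Kick2.k1 (h : Kick2 p ya yb Fy b) : Kick p ya Fy b where
  g1 := h.a1
  g2 := h.a2
  g3 φ ψ y h1 h2 h3 h4 := h.a3 φ ψ y (Kick2.abs_le' h1 h2) h3 h4

/-- forward, at `yb`, top -/
lemma Kick2.k2 (h : Kick2 p ya yb Fy b) :
    Kick p yb (fun φ ψ y => Fy φ (-ψ) y) (fun φ ψ y => -b φ (-ψ) y) where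
  g1 φ ψ y h1 h2 h3 := by
    have := h.b1 φ (-ψ) y h1 (by rwa [abs_neg]) h3
    linarith
  g2 φ ψ y h1 h2 h3 := by
    have := h.b2 φ (-ψ) y h1 (by rwa [abs_neg]) h3
    linarith
  g3 φ ψ y h1 h2 h3 h4 := h.b3 φ (-ψ) y (Kick2.abs_le' h1 h2) (by rwa [abs_neg]) h4

/-- backward, at `yb`, bottom -/
lemma Kick2.k3 (h : Kick2 p ya yb Fy b) :
    Kick p yb (fun φ ψ y => -Fy (-φ) ψ y) (fun φ ψ y => -b (-φ) ψ y) where
  g1 φ ψ y h1 h2 h3 := by
    have := h.b1 (-φ) ψ y (by rwa [abs_neg]) h2 h3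
    linarith
  g2 φ ψ y h1 h2 h3 := by
    have := h.b2 (-φ) ψ y (by rwa [abs_neg]) h2 h3
    linarith
  g3 φ ψ y h1 h2 h3 h4 := by
    rw [norm_neg]
    exact h.b3 (-φ) ψ y (by rw [abs_neg]; exact Kick2.abs_le' h1 h2) h3 h4

/-- backward, at `ya`, top -/
lemma Kick2.k4 (h : Kick2 p ya yb Fy b) :
    Kick p ya (fun φ ψ y => -Fy (-φ) (-ψ) y) (fun φ ψ y => - -b (-φ) (-ψ) y) where
  g1 φ ψ y h1 h2 h3 := by
    have := h.a1 (-φ) (-ψ) y (by rwa [abs_neg]) (by rwa [abs_neg]) h3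
    linarith
  g2 φ ψ y h1 h2 h3 := by
    have := h.a2 (-φ) (-ψ) y (by rwa [abs_neg]) (by rwa [abs_neg]) h3
    linarith
  g3 φ ψ y h1 h2 h3 h4 := by
    rw [norm_neg]
    exact h.a3 (-φ) (-ψ) y (by rw [abs_neg]; exact Kick2.abs_le' h1 h2) (by rwa [abs_neg]) h4

lemma Crv.refl (h : Crv Ff Fp Fy φ ψ y) :
    Crv (fun φ ψ y => Ff φ (-ψ) y) (fun φ ψ y => -Fp φ (-ψ) y) (fun φ ψ y => Fy φ (-ψ) y)
      φ (fun t => -ψ t) y where
  dφ t := by simpa using h.dφ t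
  dψ t := by simpa using (h.dψ t).fun_neg
  dy t := by simpa using h.dy t

lemma Crv.back (h : Crv Ff Fp Fy φ ψ y) :
    Crv (fun φ ψ y => Ff (-φ) ψ y) (fun φ ψ y => -Fp (-φ) ψ y) (fun φ ψ y => -Fy (-φ) ψ y)
      (fun t => -φ (-t)) (fun t => ψ (-t)) (fun t => y (-t)) where
  dφ t := by
    have h1 := ((h.dφ (-t)).scomp t (hasDerivAt_neg t)).fun_neg
    simpa [Function.comp_def] using h1
  dψ t := by
    have h1 := ((h.dψ (-t)).scomp t (hasDerivAt_neg t))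
    simpa [Function.comp_def] using h1
  dy t := by
    have h1 := ((h.dy (-t)).scomp t (hasDerivAt_neg t))
    simpa [Function.comp_def] using h1

lemma exitP_iff {φ ψ : ℝ → ℝ} : ExitM p φ (fun t => -ψ t) ↔ ExitP p φ ψ := by
  unfold ExitM ExitP inG Hh
  constructor
  · rintro ⟨T, h1, h2, h3⟩
    refine ⟨T, h1, fun s hs => ?_, by linarith⟩
    have := h2 s hs
    rwa [neg_mul, abs_neg] at this
  · rintro ⟨T, h1, h2, h3⟩
    refine ⟨T, h1, fun s hs => ?_, by linarith⟩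
    have := h2 s hs
    rwa [neg_mul, abs_neg]

/-- **Exit through the top near `yb`.** -/
theorem exit_plus (hF : Fwd p Ff Fp mu b)
    (hK : Kick p yb (fun φ ψ y => Fy φ (-ψ) y) (fun φ ψ y => -b φ (-ψ) y))
    (h : Crv Ff Fp Fy φ ψ y)
    (h0 : φ 0 = 0) (hψ0 : 0 ≤ ψ 0) (hψ1 : ψ 0 ≤ p.c0) (hy0 : y 0 = yb) : ExitP p φ ψ := by
  rw [← exitP_iff]
  exact exit_minus hF.refl hK h.refl h0 (by linarith) (by linarith) hy0

/-- Immediate exit. -/
lemma exitP_of_start {φ ψ : ℝ → ℝ} (h0 : φ 0 = 0) (h1 : p.c0 < ψ 0) (h2 : ψ 0 < p.c2) :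
    ExitP p φ ψ := by
  have hd := p.del_pos
  have hpi := pi_pos
  have hc := p.c0_pos
  refine ⟨0, le_rfl, ?_, ?_⟩
  · intro s hs
    have : s = 0 := le_antisymm hs.2 hs.1
    subst this
    unfold inG Hh
    rw [h0, exp_zero, mul_one, abs_of_pos (by linarith)]
    exact ⟨by linarith, by linarith, h2⟩
  · unfold Hh
    rw [h0, exp_zero, mul_one]
    exact h1

lemma exitM_of_start {φ ψ : ℝ → ℝ} (h0 : φ 0 = 0) (h1 : ψ 0 < -p.c0) (h2 : -p.c2 < ψ 0) :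
    ExitM p φ ψ := by
  have hd := p.del_pos
  have hpi := pi_pos
  have hc := p.c0_pos
  refine ⟨0, le_rfl, ?_, ?_⟩
  · intro s hs
    have : s = 0 := le_antisymm hs.2 hs.1
    subst this
    unfold inG Hh
    rw [h0, exp_zero, mul_one, abs_of_neg (by linarith)]
    exact ⟨by linarith, by linarith, by linarith⟩
  · unfold Hh
    rw [h0, exp_zero, mul_one]
    exact h1

/-- The value of `mu` on a curve which does not exit. -/
lemma mu_of_stay (hF : Fwd p Ff Fp mu b) (h : Crv Ff Fp Fy φ ψ y) (h0 : φ 0 = 0)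
    (hψ : |ψ 0| < p.c2) (hP : ¬ ExitP p φ ψ) (hM : ¬ ExitM p φ ψ) :
    ∀ t, (π / 2) / (p.c / 2) ≤ t → p.c ≤ mu (φ t) (ψ t) (y t) := by
  intro t ht
  have hc := p.c_pos
  have hd := p.del_pos
  have hpi := pi_pos
  have hψ0 : |ψ 0| ≤ p.c0 := by
    by_contra hcon
    push Not at hcon
    rw [abs_lt] at hψ
    rcases abs_cases (ψ 0) with ⟨e, _⟩ | ⟨e, _⟩
    · exact hP (exitP_of_start h0 (by linarith) hψ.2)
    · exact hM (exitM_of_start h0 (by linarith) hψ.1)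
  have ht0 : 0 ≤ t := le_trans (by positivity) ht
  have h1 := stays hF h h0 hψ0 hP hM
  have h2 : ∀ s ∈ Icc 0 t, |Hh (φ s) (ψ s)| ≤ p.c2 := fun s hs => (h1 s hs.1).trans p.c0_lt.le
  have h3 := phi_range hF h h0 h2 t ⟨ht0, le_rfl⟩
  have h4 : π / 2 ≤ p.c / 2 * t := by
    rw [div_le_iff₀ (by positivity)] at ht
    linarith
  refine hF.f3 _ _ _ ?_ (by linarith [h3.2.1]) (p.psi_le (by linarith [h3.1]) (h2 t ⟨ht0, le_rfl⟩))
  rcases h3.2.2.1 with h5 | h5 <;> linarith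

/-- **Existence of an orbit from the negative to the positive region.** -/
theorem exists_NP (hF : Fwd p Ff Fp mu b)
    (hB : Fwd p (fun φ ψ y => Ff (-φ) ψ y) (fun φ ψ y => -Fp (-φ) ψ y)
      (fun φ ψ y => -mu (-φ) ψ y) (fun φ ψ y => -b (-φ) ψ y))
    (hK : Kick2 p ya yb Fy b)
    {Fl : (ℝ × ℝ) × W → ℝ → (ℝ × ℝ) × W} (hc : Continuous fun q : ((ℝ × ℝ) × W) × ℝ => Fl q.1 q.2)
    (h0 : ∀ v, Fl v 0 = v)
    (hd : ∀ v, Crv Ff Fp Fy (fun t => (Fl v t).1.1) (fun t => (Fl v t).1.2)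
      (fun t => (Fl v t).2)) :
    ∃ v T, ∀ t, T ≤ t →
      p.c ≤ mu (Fl v t).1.1 (Fl v t).1.2 (Fl v t).2 ∧
      mu (Fl v (-t)).1.1 (Fl v (-t)).1.2 (Fl v (-t)).2 ≤ -p.c := by
  have hc0 := p.c0_pos
  have hc02 := p.c0_lt
  -- the parametrised starting points
  let st : ℝ × ℝ → (ℝ × ℝ) × W := fun q => ((0, q.1), (1 - q.2) • ya + q.2 • yb)
  have hst : Continuous st := by fun_prop
  let γf : ℝ × ℝ → ℝ → (ℝ × ℝ) × W := fun q t => Fl (st q) t
  let γb : ℝ × ℝ → ℝ → (ℝ × ℝ) × W := fun q t =>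
    ((-(Fl (st q) (-t)).1.1, (Fl (st q) (-t)).1.2), (Fl (st q) (-t)).2)
  have cf : Continuous fun q : (ℝ × ℝ) × ℝ => γf q.1 q.2 :=
    hc.comp ((hst.comp continuous_fst).prodMk continuous_snd)
  have cb : Continuous fun q : (ℝ × ℝ) × ℝ => γb q.1 q.2 := by
    have : Continuous fun q : (ℝ × ℝ) × ℝ => Fl (st q.1) (-q.2) :=
      hc.comp ((hst.comp continuous_fst).prodMk continuous_snd.neg)
    fun_prop
  have Cf : ∀ q, Crv Ff Fp Fy (fun t => (γf q t).1.1) (fun t => (γf q t).1.2)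
      (fun t => (γf q t).2) := fun q => hd (st q)
  have Cb : ∀ q, Crv (fun φ ψ y => Ff (-φ) ψ y) (fun φ ψ y => -Fp (-φ) ψ y)
      (fun φ ψ y => -Fy (-φ) ψ y) (fun t => (γb q t).1.1) (fun t => (γb q t).1.2)
      (fun t => (γb q t).2) := fun q => (hd (st q)).back
  have sf1 : ∀ q, (γf q 0).1.1 = 0 := fun q => by show (Fl (st q) 0).1.1 = 0; rw [h0]
  have sf2 : ∀ q, (γf q 0).1.2 = q.1 := fun q => by show (Fl (st q) 0).1.2 = _; rw [h0]
  have sf3 : ∀ q, (γf q 0).2 = (1 - q.2) • ya + q.2 • yb := fun q => by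
    show (Fl (st q) 0).2 = _; rw [h0]
  have sb1 : ∀ q, (γb q 0).1.1 = 0 := fun q => by
    show -(Fl (st q) (-0)).1.1 = 0; rw [neg_zero, h0]; exact neg_zero
  have sb2 : ∀ q, (γb q 0).1.2 = q.1 := fun q => by
    show (Fl (st q) (-0)).1.2 = _; rw [neg_zero, h0]
  have sb3 : ∀ q, (γb q 0).2 = (1 - q.2) • ya + q.2 • yb := fun q => by
    show (Fl (st q) (-0)).2 = _; rw [neg_zero, h0]
  set cs := (p.c0 + p.c2) / 2 with hcs
  have hcs0 : 0 < cs := by rw [hcs]; linarith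
  obtain ⟨s, hs, z, hz, e1, e2, e3, e4⟩ := crossing hcs0
    (Up := {q | ExitP p (fun t => (γf q t).1.1) (fun t => (γf q t).1.2)})
    (Um := {q | ExitM p (fun t => (γf q t).1.1) (fun t => (γf q t).1.2)})
    (Vp := {q | ExitP p (fun t => (γb q t).1.1) (fun t => (γb q t).1.2)})
    (Vm := {q | ExitM p (fun t => (γb q t).1.1) (fun t => (γb q t).1.2)})
    (isOpen_exitP cf) (isOpen_exitM cf) (isOpen_exitP cb) (isOpen_exitM cb)
    (Set.disjoint_left.2 fun q h1 h2 => not_both hF (Cf q) ⟨h1, h2⟩)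
    (Set.disjoint_left.2 fun q h1 h2 => not_both hB (Cb q) ⟨h1, h2⟩)
    (fun z _ => ⟨exitP_of_start (sf1 _) (by rw [sf2]; show p.c0 < cs; linarith)
        (by rw [sf2]; show cs < p.c2; linarith),
      exitP_of_start (sb1 _) (by rw [sb2]; show p.c0 < cs; linarith)
        (by rw [sb2]; show cs < p.c2; linarith)⟩)
    (fun z _ => ⟨exitM_of_start (sf1 _) (by rw [sf2]; show -cs < -p.c0; linarith)
        (by rw [sf2]; show -p.c2 < -cs; linarith),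
      exitM_of_start (sb1 _) (by rw [sb2]; show -cs < -p.c0; linarith)
        (by rw [sb2]; show -p.c2 < -cs; linarith)⟩)
    (fun s hs => by
      rcases le_total s 0 with h | h
      · left
        by_cases h' : -p.c0 ≤ s
        · exact exit_minus hF hK.k1 (Cf _) (sf1 _) (by rw [sf2]; exact h) (by rw [sf2]; exact h')
            (by rw [sf3]; simp)
        · exact exitM_of_start (sf1 _) (by rw [sf2]; show s < _; linarith)
            (by rw [sf2]; show _ < s; linarith [hs.1])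
      · right
        by_cases h' : s ≤ p.c0
        · exact exit_plus hB hK.k4 (Cb _) (sb1 _) (by rw [sb2]; exact h) (by rw [sb2]; exact h')
            (by rw [sb3]; simp)
        · exact exitP_of_start (sb1 _) (by rw [sb2]; show _ < s; linarith)
            (by rw [sb2]; show s < _; linarith [hs.2]))
    (fun s hs => by
      rcases le_total s 0 with h | h
      · right
        by_cases h' : -p.c0 ≤ s
        · exact exit_minus hB hK.k3 (Cb _) (sb1 _) (by rw [sb2]; exact h) (by rw [sb2]; exact h')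
            (by rw [sb3]; simp)
        · exact exitM_of_start (sb1 _) (by rw [sb2]; show s < _; linarith)
            (by rw [sb2]; show _ < s; linarith [hs.1])
      · left
        by_cases h' : s ≤ p.c0
        · exact exit_plus hF hK.k2 (Cf _) (sf1 _) (by rw [sf2]; exact h) (by rw [sf2]; exact h')
            (by rw [sf3]; simp)
        · exact exitP_of_start (sf1 _) (by rw [sf2]; show _ < s; linarith)
            (by rw [sf2]; show s < _; linarith [hs.2]))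
  have hsabs : |s| < p.c2 := by
    rw [abs_lt]
    constructor <;> linarith [hs.1, hs.2]
  refine ⟨st (s, z), (π / 2) / (p.c / 2), fun t ht => ⟨?_, ?_⟩⟩
  · exact mu_of_stay hF (Cf (s, z)) (sf1 _) (by rw [sf2]; exact hsabs) e1 e2 t ht
  · have := mu_of_stay hB (Cb (s, z)) (sb1 _) (by rw [sb2]; exact hsabs) e3 e4 t ht
    have h1 : p.c ≤ -mu (- -(Fl (st (s, z)) (-t)).1.1) (Fl (st (s, z)) (-t)).1.2
        (Fl (st (s, z)) (-t)).2 := this
    rw [neg_neg] at h1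
    linarith

end refl

end Pool.Agent.Y521
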