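import Mathlib

/-!
# The cubic `z³ - 5z² + 6z - 1`
-/

open Set

noncomputable section

namespace Pool.Agent.Y521

/-- The cubic. -/
def cub (z : ℝ) : ℝ := z ^ 3 - 5 * z ^ 2 + 6 * z - 1

lemma continuous_cub : Continuous cub := by unfold cub; fun_prop

lemma exists_root0 : ∃ z ∈ Ioo (1 : ℝ) 2, cub z = 0 := by
  have h := intermediate_value_Ioo' (f := cub) (a := 1) (b := 2) (by norm_num)
    continuous_cub.continuousOn
  have h0 : (0 : ℝ) ∈ Ioo (cub 2) (cub 1) := by unfold cub; norm_num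
  exact h h0

lemma exists_root1 : ∃ z ∈ Ioo (3 : ℝ) 4, cub z = 0 := by
  have h := intermediate_value_Ioo (f := cub) (a := 3) (b := 4) (by norm_num)
    continuous_cub.continuousOn
  have h0 : (0 : ℝ) ∈ Ioo (cub 3) (cub 4) := by unfold cub; norm_num
  exact h h0

lemma exists_root2 : ∃ z ∈ Ioo (0 : ℝ) (1 / 2), cub z = 0 := by
  have h := intermediate_value_Ioo (f := cub) (a := 0) (b := 1 / 2) (by norm_num)
    continuous_cub.continuousOn
  have h0 : (0 : ℝ) ∈ Ioo (cub 0) (cub (1 / 2)) := by unfold cub; norm_num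
  exact h h0

/-- The roots. -/
def rt : Fin 3 → ℝ := ![exists_root0.choose, exists_root1.choose, exists_root2.choose]

lemma rt0_mem : rt 0 ∈ Ioo (1 : ℝ) 2 := exists_root0.choose_spec.1
lemma rt1_mem : rt 1 ∈ Ioo (3 : ℝ) 4 := exists_root1.choose_spec.1
lemma rt2_mem : rt 2 ∈ Ioo (0 : ℝ) (1 / 2) := exists_root2.choose_spec.1

lemma cub_rt (i : Fin 3) : cub (rt i) = 0 := by
  fin_cases i
  · exact exists_root0.choose_spec.2
  · exact exists_root1.choose_spec.2
  · exact exists_root2.choose_spec.2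

lemma rt_pos (i : Fin 3) : 0 < rt i := by
  fin_cases i
  · exact lt_trans one_pos rt0_mem.1
  · exact lt_trans (by norm_num) rt1_mem.1
  · exact rt2_mem.1

lemma rt_ne (i : Fin 3) : rt i ≠ 0 := (rt_pos i).ne'

lemma rt_cube (i : Fin 3) : rt i ^ 3 = 5 * rt i ^ 2 - 6 * rt i + 1 := by
  have := cub_rt i
  unfold cub at this
  linarith

/-- The exponents. -/
def ex (i : Fin 3) : ℝ := Real.log (rt i)

lemma exp_ex (i : Fin 3) : Real.exp (ex i) = rt i := Real.exp_log (rt_pos i)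

lemma exp_mul_int (i : Fin 3) (m : ℤ) : Real.exp (ex i * m) = rt i ^ m := by
  rw [Real.exp_mul, exp_ex, Real.rpow_intCast]

lemma ex0_pos : 0 < ex 0 := Real.log_pos rt0_mem.1

lemma ex0_lt : ex 0 < ex 1 :=
  Real.log_lt_log (rt_pos 0) (by linarith [rt0_mem.2, rt1_mem.1])

lemma ex2_neg : ex 2 < 0 := Real.log_neg rt2_mem.1 (by linarith [rt2_mem.2])

/-- The evaluation of a vector as a polynomial at the roots. -/
def Lm (x : Fin 3 → ℝ) : Fin 3 → ℝ := fun i => x 0 + x 1 * rt i + x 2 * rt i ^ 2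

/-- as a linear map -/
def LmL : (Fin 3 → ℝ) →ₗ[ℝ] (Fin 3 → ℝ) where
  toFun := Lm
  map_add' x y := by funext i; simp only [Lm, Pi.add_apply]; ring
  map_smul' c x := by funext i; simp only [Lm, Pi.smul_apply, smul_eq_mul, RingHom.id_apply]; ring

lemma LmL_injective : Function.Injective LmL := by
  rw [← LinearMap.ker_eq_bot, LinearMap.ker_eq_bot']
  intro x hx
  have h0 : x 0 + x 1 * rt 0 + x 2 * rt 0 ^ 2 = 0 := congrFun hx 0
  have h1 : x 0 + x 1 * rt 1 + x 2 * rt 1 ^ 2 = 0 := congrFun hx 1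
  have h2 : x 0 + x 1 * rt 2 + x 2 * rt 2 ^ 2 = 0 := congrFun hx 2
  have d01 : rt 1 - rt 0 ≠ 0 := by
    have := rt0_mem.2; have := rt1_mem.1; exact (by linarith : (0:ℝ) < rt 1 - rt 0).ne'
  have d02 : rt 0 - rt 2 ≠ 0 := by
    have := rt0_mem.1; have := rt2_mem.2; exact (by linarith : (0:ℝ) < rt 0 - rt 2).ne'
  have d12 : rt 1 - rt 2 ≠ 0 := by
    have := rt1_mem.1; have := rt2_mem.2; exact (by linarith : (0:ℝ) < rt 1 - rt 2).ne'
  have e1 : x 1 + x 2 * (rt 0 + rt 1) = 0 := by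
    have : (rt 1 - rt 0) * (x 1 + x 2 * (rt 0 + rt 1)) = 0 := by linear_combination h1 - h0
    exact (mul_eq_zero.1 this).resolve_left d01
  have e2 : x 1 + x 2 * (rt 0 + rt 2) = 0 := by
    have : (rt 0 - rt 2) * (x 1 + x 2 * (rt 0 + rt 2)) = 0 := by linear_combination h0 - h2
    exact (mul_eq_zero.1 this).resolve_left d02
  have e3 : x 2 = 0 := by
    have : (rt 1 - rt 2) * x 2 = 0 := by linear_combination e1 - e2
    exact (mul_eq_zero.1 this).resolve_left d12
  have e4 : x 1 = 0 := by rw [e3] at e1; linarith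
  have e5 : x 0 = 0 := by rw [e3, e4] at h0; linarith
  funext i
  fin_cases i <;> simp [e3, e4, e5]

/-- as a continuous linear equivalence -/
def Le : (Fin 3 → ℝ) ≃L[ℝ] (Fin 3 → ℝ) :=
  (LinearEquiv.ofInjectiveEndo LmL LmL_injective).toContinuousLinearEquiv

lemma Le_apply (x : Fin 3 → ℝ) : Le x = Lm x := rfl

end Pool.Agent.Y521
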