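import Mathlib
import Pool.Agent.W630.Quot
import Pool.Agent.Y521.Roots

/-!
# The solvable lattices acting on `F × (ℝ³ × ℝ)`
-/

open scoped Topology ContDiff Manifold Matrix
open Set Pool.Agent.W630

noncomputable section

namespace Pool.Agent.Y521

/-- The companion matrix of the cubic. -/
def Cm : Matrix.SpecialLinearGroup (Fin 3) ℤ :=
  ⟨!![0, 0, 1; 1, 0, -6; 0, 1, 5], by simp [Matrix.det_fin_three]⟩

/-- its powers -/
def pw (m : ℤ) : Matrix.SpecialLinearGroup (Fin 3) ℤ := Cm ^ m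

lemma pw_add (m m' : ℤ) : pw (m + m') = pw m * pw m' := zpow_add _ _ _

lemma pw_zero : pw 0 = 1 := zpow_zero _

/-- The evaluation of an integer vector at the roots. -/
def Ln (n : Fin 3 → ℤ) : Fin 3 → ℝ := Lm (fun i => (n i : ℝ))

lemma Ln_zero : Ln 0 = 0 := by funext i; simp [Ln, Lm]

lemma Ln_add (n n' : Fin 3 → ℤ) : Ln (n + n') = Ln n + Ln n' := by
  funext i
  simp only [Ln, Lm, Pi.add_apply, Int.cast_add]
  ring

lemma Ln_Cm (n : Fin 3 → ℤ) (i : Fin 3) : Ln (Cm.1 *ᵥ n) i = rt i * Ln n i := by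
  have h := rt_cube i
  simp only [Ln, Lm, Cm, Matrix.mulVec, dotProduct, Fin.sum_univ_three, Matrix.of_apply,
    Matrix.cons_val', Matrix.cons_val_zero, Matrix.cons_val_one, Matrix.cons_val]
  push_cast
  linear_combination (-(n 2 : ℝ)) * h

lemma Ln_pw (m : ℤ) : ∀ (n : Fin 3 → ℤ) (i : Fin 3), Ln ((pw m).1 *ᵥ n) i = rt i ^ m * Ln n i := by
  induction m with
  | zero => intro n i; rw [pw_zero]; simp
  | succ k ih =>
    intro n i
    have e : pw ((k : ℤ) + 1) = pw k * Cm := by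
      rw [pw_add]; congr 1; exact zpow_one _
    rw [e, Matrix.SpecialLinearGroup.coe_mul, ← Matrix.mulVec_mulVec, ih, Ln_Cm,
      zpow_add_one₀ (rt_ne i), mul_assoc]
  | pred k ih =>
    intro n i
    have e : pw (-(k : ℤ) - 1) * Cm = pw (-(k : ℤ)) := by
      have h1 : pw (-(k : ℤ)) = pw (-(k : ℤ) - 1) * pw 1 := by rw [← pw_add]; congr 1; ring
      rw [h1]; congr 1; exact (zpow_one _).symm
    have h2 := ih ((Cm⁻¹).1 *ᵥ n) i
    have h3 := Ln_Cm ((Cm⁻¹).1 *ᵥ n) i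
    have h4 : Cm.1 *ᵥ ((Cm⁻¹).1 *ᵥ n) = n := by
      rw [Matrix.mulVec_mulVec, ← Matrix.SpecialLinearGroup.coe_mul, mul_inv_cancel]; simp
    rw [← e, Matrix.SpecialLinearGroup.coe_mul, ← Matrix.mulVec_mulVec, h4] at h2
    rw [h4] at h3
    have h5 := rt_ne i
    rw [h2, h3, zpow_sub_one₀ h5]
    field_simp

/-- A lattice in the normed space `F`. -/
class Lat (Λ : Type*) (F : Type*) [AddCommGroup Λ] [NormedAddCommGroup F] where
  /-- the inclusion -/
  tr : Λ →+ F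
  inj : Function.Injective tr
  fin : ∀ R : ℝ, {l : Λ | ‖tr l‖ ≤ R}.Finite

/-- The product of `Λ` and of the semidirect product of `ℤ³` and `ℤ`. -/
@[ext] structure Gq (Λ : Type*) where
  l : Λ
  n : Fin 3 → ℤ
  m : ℤ

namespace Gq

variable {Λ : Type*} [AddCommGroup Λ]

instance : Mul (Gq Λ) := ⟨fun g h => ⟨g.l + h.l, g.n + (pw g.m).1 *ᵥ h.n, g.m + h.m⟩⟩
instance : One (Gq Λ) := ⟨⟨0, 0, 0⟩⟩
instance : Inv (Gq Λ) := ⟨fun g => ⟨-g.l, -((pw (-g.m)).1 *ᵥ g.n), -g.m⟩⟩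

lemma mul_l (g h : Gq Λ) : (g * h).l = g.l + h.l := rfl
lemma mul_n (g h : Gq Λ) : (g * h).n = g.n + (pw g.m).1 *ᵥ h.n := rfl
lemma mul_m (g h : Gq Λ) : (g * h).m = g.m + h.m := rfl
lemma one_l : (1 : Gq Λ).l = 0 := rfl
lemma one_n : (1 : Gq Λ).n = 0 := rfl
lemma one_m : (1 : Gq Λ).m = 0 := rfl
lemma inv_l (g : Gq Λ) : (g⁻¹).l = -g.l := rfl
lemma inv_n (g : Gq Λ) : (g⁻¹).n = -((pw (-g.m)).1 *ᵥ g.n) := rfl
lemma inv_m (g : Gq Λ) : (g⁻¹).m = -g.m := rfl

instance : Group (Gq Λ) := Group.ofLeftAxioms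
  (by
    intro a b c
    ext1
    · simp only [mul_l, add_assoc]
    · simp only [mul_n, mul_m, pw_add, Matrix.SpecialLinearGroup.coe_mul, Matrix.mulVec_add,
        Matrix.mulVec_mulVec, add_assoc]
    · simp only [mul_m, add_assoc])
  (by
    intro a
    ext1
    · simp [mul_l, one_l]
    · simp [mul_n, one_n, one_m, pw_zero]
    · simp [mul_m, one_m])
  (by
    intro a
    ext1
    · simp [mul_l, inv_l, one_l]
    · simp [mul_n, inv_n, inv_m, one_n]
    · simp [mul_m, inv_m, one_m])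

end Gq

/-- The space `ℝ³ × ℝ`. -/
abbrev W4 : Type := (Fin 3 → ℝ) × ℝ

/-- The action of `(n, m)` on `ℝ³ × ℝ`. -/
def actW (n : Fin 3 → ℤ) (m : ℤ) (y : W4) : W4 := (fun i => rt i ^ m * y.1 i + Ln n i, y.2 - m)

lemma actW_one (y : W4) : actW 0 0 y = y := by
  unfold actW
  ext i
  · simp [Ln_zero]
  · simp

lemma actW_mul (n n' : Fin 3 → ℤ) (m m' : ℤ) (y : W4) :
    actW (n + (pw m).1 *ᵥ n') (m + m') y = actW n m (actW n' m' y) := by
  unfold actW
  ext i
  · simp only [Ln_add, Pi.add_apply, Ln_pw, zpow_add₀ (rt_ne i)]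
    ring
  · push_cast; ring

/-- the linear part -/
def linW (m : ℤ) : W4 →L[ℝ] W4 :=
  (ContinuousLinearMap.pi fun i => (rt i ^ m) • (ContinuousLinearMap.proj i ∘L
    ContinuousLinearMap.fst ℝ (Fin 3 → ℝ) ℝ)).prod (ContinuousLinearMap.snd ℝ (Fin 3 → ℝ) ℝ)

lemma linW_apply (m : ℤ) (y : W4) : linW m y = (fun i => rt i ^ m * y.1 i, y.2) := rfl

lemma actW_eq (n : Fin 3 → ℤ) (m : ℤ) (y : W4) : actW n m y = linW m y + (Ln n, -(m : ℝ)) := by
  rw [linW_apply]
  unfold actW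
  ext i
  · simp
  · simp; ring

lemma hasFDerivAt_actW (n : Fin 3 → ℤ) (m : ℤ) (y : W4) :
    HasFDerivAt (actW n m) (linW m) y := by
  have : actW n m = fun y => linW m y + (Ln n, -(m : ℝ)) := by funext y; exact actW_eq n m y
  rw [this]
  exact (linW m).hasFDerivAt.add_const _

lemma contDiff_actW (n : Fin 3 → ℤ) (m : ℤ) : ContDiff ℝ ∞ (actW n m) := by
  have : actW n m = fun y => linW m y + (Ln n, -(m : ℝ)) := by funext y; exact actW_eq n m y
  rw [this]
  exact (linW m).contDiff.add contDiff_const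

section act

variable {Λ : Type*} [AddCommGroup Λ] {F : Type*} [NormedAddCommGroup F]

instance instAct [Lat Λ F] : MulAction (Gq Λ) (F × W4) where
  smul g v := (v.1 + Lat.tr g.l, actW g.n g.m v.2)
  one_smul v := by
    apply Prod.ext
    · show v.1 + Lat.tr (1 : Gq Λ).l = v.1
      rw [Gq.one_l, map_zero, add_zero]
    · exact actW_one v.2
  mul_smul g h v := by
    apply Prod.ext
    · show v.1 + Lat.tr (g * h).l = (v.1 + Lat.tr h.l) + Lat.tr g.l
      rw [Gq.mul_l, map_add]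
      abel
    · exact actW_mul g.n h.n g.m h.m v.2

lemma smul_def [Lat Λ F] (g : Gq Λ) (v : F × W4) :
    g • v = (v.1 + Lat.tr g.l, actW g.n g.m v.2) := rfl

lemma hasFDerivAt_smul [NormedSpace ℝ F] [Lat Λ F] (g : Gq Λ) (v : F × W4) :
    HasFDerivAt (fun w : F × W4 => g • w)
      ((ContinuousLinearMap.fst ℝ F W4).prod ((linW g.m) ∘L (ContinuousLinearMap.snd ℝ F W4)))
      v := by
  have h1 : HasFDerivAt (fun w : F × W4 => w.1 + Lat.tr g.l)
      (ContinuousLinearMap.fst ℝ F W4) v := hasFDerivAt_fst.add_const _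
  have h2 : HasFDerivAt (fun w : F × W4 => actW g.n g.m w.2)
      ((linW g.m) ∘L (ContinuousLinearMap.snd ℝ F W4)) v :=
    (hasFDerivAt_actW g.n g.m v.2).comp v hasFDerivAt_snd
  exact h1.prodMk h2

lemma dact_apply [NormedSpace ℝ F] [Lat Λ F] (g : Gq Λ) (v u : F × W4) :
    dact g v u = (u.1, (fun i => rt i ^ g.m * u.2.1 i, u.2.2)) := by
  unfold dact
  rw [(hasFDerivAt_smul g v).fderiv]
  rfl

instance [Lat Λ F] : ContinuousConstSMul (Gq Λ) (F × W4) :=
  ⟨fun g => (continuous_fst.add continuous_const).prodMk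
    ((contDiff_actW g.n g.m).continuous.comp continuous_snd)⟩

instance [NormedSpace ℝ F] [Lat Λ F] : SmoothAct (Gq Λ) (F × W4) :=
  ⟨fun g => (contDiff_fst.add contDiff_const).prodMk ((contDiff_actW g.n g.m).comp contDiff_snd)⟩

lemma smul_cancel [Lat Λ F] {g h : Gq Λ} {v : F × W4} (e : g • v = h • v) : g = h := by
  rw [smul_def, smul_def] at e
  have h1 := congrArg Prod.fst e
  have h2 := congrArg Prod.snd e
  simp only at h1 h2
  have hl : g.l = h.l := Lat.inj (add_left_cancel h1)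
  have hm : g.m = h.m := by
    have := congrArg Prod.snd h2
    simp only [actW] at this
    have h3 : (g.m : ℝ) = h.m := by linarith
    exact_mod_cast h3
  have hn : g.n = h.n := by
    have h3 := congrArg Prod.fst h2
    simp only [actW] at h3
    have h4 : Ln g.n = Ln h.n := by
      funext i
      have := congrFun h3 i
      simp only [hm] at this
      linarith
    have h5 : (fun i => (g.n i : ℝ)) = fun i => (h.n i : ℝ) := LmL_injective h4
    funext i
    exact_mod_cast congrFun h5 i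
  exact Gq.ext hl hn hm

instance [Lat Λ F] : IsCancelSMul (Gq Λ) (F × W4) where
  left_cancel' g v w h := by
    have := congrArg (fun x => g⁻¹ • x) h
    simpa using this
  right_cancel' g h v e := smul_cancel e

lemma bdd_int {x : Fin 3 → ℤ} {R : ℝ} (h : ‖(fun i => (x i : ℝ))‖ ≤ R) :
    x ∈ Set.Icc (fun _ : Fin 3 => -⌈R⌉) (fun _ => ⌈R⌉) := by
  have h1 : ∀ i, |(x i : ℝ)| ≤ R := fun i => (norm_le_pi_norm (fun i => (x i : ℝ)) i).trans h
  have h9 := Int.le_ceil R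
  constructor
  · intro i
    have h8 := abs_le.1 (h1 i)
    have : (-⌈R⌉ : ℝ) ≤ x i := by linarith
    exact_mod_cast this
  · intro i
    have h8 := abs_le.1 (h1 i)
    have : (x i : ℝ) ≤ ⌈R⌉ := by linarith
    exact_mod_cast this

lemma act_finite [Lat Λ F] {K L : Set (F × W4)} (hK : IsCompact K) (hL : IsCompact L) :
    {g : Gq Λ | ((fun v => g • v) '' K ∩ L).Nonempty}.Finite := by
  obtain ⟨R, hR⟩ := hK.isBounded.exists_norm_le
  obtain ⟨R', hR'⟩ := hL.isBounded.exists_norm_le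
  let c : ℝ := ‖(Le.symm : (Fin 3 → ℝ) →L[ℝ] (Fin 3 → ℝ))‖
  let B : ℤ → ℝ := fun m => c * (R' + ‖linW m‖ * R)
  let M : ℤ := ⌈R' + R⌉
  refine Set.Finite.subset (s := ⋃ m ∈ Set.Icc (-M) M,
    (fun q : Λ × (Fin 3 → ℤ) => (⟨q.1, q.2, m⟩ : Gq Λ)) ''
    ({l : Λ | ‖(Lat.tr l : F)‖ ≤ R' + R} ×ˢ (Set.Icc (fun _ => -⌈B m⌉) (fun _ => ⌈B m⌉)))) ?_ ?_
  · refine (Set.finite_Icc _ _).biUnion fun m _ => ?_
    exact ((Lat.fin (R' + R)).prod (Set.finite_Icc _ _)).image _
  · rintro g ⟨_, ⟨x, hx, rfl⟩, hy⟩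
    simp only at hy
    have h1 : ‖x‖ ≤ R := hR x hx
    have h2 : ‖g • x‖ ≤ R' := hR' _ hy
    rw [smul_def] at h2
    have hx1 : ‖x.1‖ ≤ R := (norm_fst_le x).trans h1
    have hx2 : ‖x.2‖ ≤ R := (norm_snd_le x).trans h1
    have hx3 : ‖x.2.2‖ ≤ R := (norm_snd_le x.2).trans hx2
    have hg1 : ‖x.1 + (Lat.tr g.l : F)‖ ≤ R' := (norm_fst_le (x.1 + Lat.tr g.l, actW g.n g.m x.2)).trans h2
    have hg2 : ‖actW g.n g.m x.2‖ ≤ R' := (norm_snd_le (x.1 + Lat.tr g.l, actW g.n g.m x.2)).trans h2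
    have hg3 : ‖x.2.2 - g.m‖ ≤ R' := (norm_snd_le (actW g.n g.m x.2)).trans hg2
    have hm : |(g.m : ℝ)| ≤ R' + R := by
      have e : (g.m : ℝ) = x.2.2 - (x.2.2 - g.m) := by ring
      rw [e]
      refine (abs_sub _ _).trans ?_
      have a1 : |x.2.2| ≤ R := hx3
      have a2 : |x.2.2 - g.m| ≤ R' := hg3
      linarith
    have hl : ‖(Lat.tr g.l : F)‖ ≤ R' + R := by
      have e : (Lat.tr g.l : F) = (x.1 + Lat.tr g.l) - x.1 := by abel
      rw [e]
      exact (norm_sub_le _ _).trans (add_le_add hg1 hx1)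
    have hn : ‖(fun i => (g.n i : ℝ))‖ ≤ B g.m := by
      have e : ((Ln g.n, -(g.m : ℝ)) : W4) = actW g.n g.m x.2 - linW g.m x.2 := by
        rw [actW_eq]; abel
      have e1 : ‖Ln g.n‖ ≤ R' + ‖linW g.m‖ * R := by
        refine (norm_fst_le ((Ln g.n, -(g.m : ℝ)) : W4)).trans ?_
        rw [e]
        refine (norm_sub_le _ _).trans (add_le_add hg2 ?_)
        exact (ContinuousLinearMap.le_opNorm _ _).trans (by gcongr)
      have e2 : (fun i => (g.n i : ℝ)) =
          (Le.symm : (Fin 3 → ℝ) →L[ℝ] (Fin 3 → ℝ)) (Ln g.n) := by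
        have : Ln g.n = Le (fun i => (g.n i : ℝ)) := rfl
        rw [this]
        simp
      rw [e2]
      exact (ContinuousLinearMap.le_opNorm _ _).trans
        (mul_le_mul_of_nonneg_left e1 (norm_nonneg _))
    have hm' : (g.m : ℝ) ≤ M ∧ -(M : ℝ) ≤ g.m := by
      have h4 := abs_le.1 hm
      have h5 := Int.le_ceil (R' + R)
      exact ⟨h4.2.trans h5, by linarith⟩
    simp only [mem_iUnion, mem_image, mem_Icc]
    exact ⟨g.m, ⟨by exact_mod_cast hm'.2, by exact_mod_cast hm'.1⟩, (g.l, g.n),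
      ⟨hl, bdd_int hn⟩, rfl⟩

instance [Lat Λ F] : ProperlyDiscontinuousSMul (Gq Λ) (F × W4) where
  finite_disjoint_inter_image := by
    intro K L hK hL
    exact act_finite hK hL

end act

/-- The trivial lattice. -/
instance : Lat Unit (ℝ × ℝ × ℝ) where
  tr := 0
  inj := fun _ _ _ => rfl
  fin := fun _ => Set.toFinite _

lemma tr_unit (l : Unit) : (Lat.tr l : ℝ × ℝ × ℝ) = 0 := rfl

/-- The lattice `2πℤ²`. -/
instance : Lat (ℤ × ℤ) (ℝ × ℝ) where
  tr :=
    { toFun := fun l => (2 * Real.pi * l.1, 2 * Real.pi * l.2)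
      map_zero' := by simp
      map_add' := fun a b => by ext <;> simp <;> ring }
  inj := by
    intro a b h
    have hpi := Real.pi_pos
    have h1 : 2 * Real.pi * (a.1 : ℝ) = 2 * Real.pi * b.1 := congrArg Prod.fst h
    have h2 : 2 * Real.pi * (a.2 : ℝ) = 2 * Real.pi * b.2 := congrArg Prod.snd h
    have h3 := mul_left_cancel₀ (by positivity) h1
    have h4 := mul_left_cancel₀ (by positivity) h2
    exact Prod.ext (by exact_mod_cast h3) (by exact_mod_cast h4)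
  fin := by
    intro R
    refine ((Set.finite_Icc (-⌈R⌉) ⌈R⌉).prod (Set.finite_Icc (-⌈R⌉) ⌈R⌉)).subset ?_
    intro l hl
    have hpi := Real.pi_gt_three
    have h0 : ‖((2 * Real.pi * l.1, 2 * Real.pi * l.2) : ℝ × ℝ)‖ ≤ R := hl
    have h1 : ∀ k : ℤ, |2 * Real.pi * (k : ℝ)| ≤ R → k ∈ Icc (-⌈R⌉) ⌈R⌉ := by
      intro k hk
      have h2 : |(k : ℝ)| ≤ R := by
        refine le_trans ?_ hk
        rw [abs_mul, abs_of_pos (by positivity : (0:ℝ) < 2 * Real.pi)]
        nlinarith [abs_nonneg (k : ℝ)]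
      have h3 := abs_le.1 h2
      have h9 := Int.le_ceil R
      constructor
      · have : (-⌈R⌉ : ℝ) ≤ k := by linarith
        exact_mod_cast this
      · have : (k : ℝ) ≤ ⌈R⌉ := by linarith
        exact_mod_cast this
    exact ⟨h1 _ ((norm_fst_le _).trans h0), h1 _ ((norm_snd_le _).trans h0)⟩

lemma tr_int (l : ℤ × ℤ) : (Lat.tr l : ℝ × ℝ) = (2 * Real.pi * l.1, 2 * Real.pi * l.2) := rfl

end Pool.Agent.Y521
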