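import Mathlib
import Pool.Agent.Y521.Grp

/-!
# The manifolds
-/

open scoped Topology ContDiff Manifold Matrix
open Set Pool.Agent.W630

noncomputable section

namespace Pool.Agent.Y521

/-- The group acting on the cover of the contact manifold. -/
abbrev GM : Type := Gq Unit

/-- The group acting on the cover of the hypersurface. -/
abbrev GS : Type := Gq (ℤ × ℤ)

/-- The cover of the contact manifold, with coordinates `((r, s, η), (ξ, t))`. -/
abbrev VM : Type := (ℝ × ℝ × ℝ) × W4

/-- The cover of the hypersurface, with coordinates `((φ, ψ), (ξ, t))`. -/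
abbrev VS : Type := (ℝ × ℝ) × W4

/-- The contact manifold. -/
abbrev Mfd : Type := Qt GM VM

/-- The hypersurface. -/
abbrev Hyp : Type := Qt GS VS

instance : ConnectedSpace Mfd := by
  have : Function.Surjective (qm GM : VM → Mfd) := qm_surj
  exact this.connectedSpace continuous_qm

instance : ConnectedSpace Hyp := by
  have : Function.Surjective (qm GS : VS → Hyp) := qm_surj
  exact this.connectedSpace continuous_qm

lemma finrank_VM : Module.finrank ℝ VM = 7 := by simp
lemma finrank_VS : Module.finrank ℝ VS = 6 := by simp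

/-- A compact set meeting all orbits. -/
def KS : Set VS :=
  (Icc 0 (2 * Real.pi) ×ˢ Icc 0 (2 * Real.pi)) ×ˢ ((Le '' (Icc 0 1)) ×ˢ Icc 0 1)

lemma isCompact_KS : IsCompact KS :=
  (isCompact_Icc.prod isCompact_Icc).prod
    ((isCompact_Icc.image Le.continuous).prod isCompact_Icc)

lemma exists_int_Icc (x : ℝ) {a : ℝ} (ha : 0 < a) : ∃ k : ℤ, x + a * k ∈ Icc 0 a := by
  refine ⟨-⌊x / a⌋, ?_⟩
  have h1 := Int.floor_le (x / a)
  have h2 := (Int.lt_floor_add_one (x / a)).le
  rw [le_div_iff₀ ha] at h1
  rw [div_le_iff₀ ha] at h2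
  push_cast
  constructor <;> linarith

lemma exists_smul_mem_KS (v : VS) : ∃ g : GS, g • v ∈ KS := by
  have hpi := Real.pi_pos
  obtain ⟨k1, hk1⟩ := exists_int_Icc v.1.1 (a := 2 * Real.pi) (by positivity)
  obtain ⟨k2, hk2⟩ := exists_int_Icc v.1.2 (a := 2 * Real.pi) (by positivity)
  obtain ⟨m, hm⟩ := exists_int_Icc v.2.2 (a := 1) one_pos
  let ξ : Fin 3 → ℝ := fun i => rt i ^ (-m) * v.2.1 i
  choose n hn using fun i => exists_int_Icc (Le.symm ξ i) (a := 1) one_pos
  refine ⟨⟨(k1, k2), n, -m⟩, ?_⟩
  rw [smul_def, tr_int]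
  refine ⟨⟨hk1, hk2⟩, ⟨Le.symm ξ + fun i => (n i : ℝ), ?_, ?_⟩, ?_⟩
  · constructor
    · intro i; have := (hn i).1; simpa using this
    · intro i; have := (hn i).2; simpa using this
  · rw [map_add, Le.apply_symm_apply]
    funext i
    rfl
  · show v.2.2 - ((-m : ℤ) : ℝ) ∈ Icc (0 : ℝ) 1
    have : v.2.2 - ((-m : ℤ) : ℝ) = v.2.2 + 1 * m := by push_cast; ring
    rw [this]
    exact hm

instance : CompactSpace Hyp := by
  constructor
  have : (univ : Set Hyp) = qm GS '' KS := by
    ext x
    simp only [mem_univ, mem_image, true_iff]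
    obtain ⟨v, rfl⟩ := qm_surj x
    obtain ⟨g, hg⟩ := exists_smul_mem_KS v
    exact ⟨g • v, hg, qm_smul g v⟩
  rw [this]
  exact isCompact_KS.image continuous_qm

example : T2Space Hyp := inferInstance
example : T2Space Mfd := inferInstance
example : SecondCountableTopology Mfd := inferInstance

end Pool.Agent.Y521
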