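import Mathlib
import Pool.Agent.Y521.Spc

/-!
# The coframe and the contact form
-/

open scoped Topology ContDiff Manifold Matrix
open Set Pool.Agent.W630 Pool.Agent.Helper186

noncomputable section

namespace Pool.Agent.Y521

/-- coordinate differentials on the cover -/
def cR : VM →L[ℝ] ℝ := (ContinuousLinearMap.fst ℝ ℝ (ℝ × ℝ)) ∘L (ContinuousLinearMap.fst ℝ (ℝ × ℝ × ℝ) W4)
def cS : VM →L[ℝ] ℝ := (ContinuousLinearMap.fst ℝ ℝ ℝ) ∘L (ContinuousLinearMap.snd ℝ ℝ (ℝ × ℝ)) ∘L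
  (ContinuousLinearMap.fst ℝ (ℝ × ℝ × ℝ) W4)
def cH : VM →L[ℝ] ℝ := (ContinuousLinearMap.snd ℝ ℝ ℝ) ∘L (ContinuousLinearMap.snd ℝ ℝ (ℝ × ℝ)) ∘L
  (ContinuousLinearMap.fst ℝ (ℝ × ℝ × ℝ) W4)
def cX (i : Fin 3) : VM →L[ℝ] ℝ := (ContinuousLinearMap.proj i) ∘L
  (ContinuousLinearMap.fst ℝ (Fin 3 → ℝ) ℝ) ∘L (ContinuousLinearMap.snd ℝ (ℝ × ℝ × ℝ) W4)
def cT : VM →L[ℝ] ℝ := (ContinuousLinearMap.snd ℝ (Fin 3 → ℝ) ℝ) ∘L
  (ContinuousLinearMap.snd ℝ (ℝ × ℝ × ℝ) W4)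

@[simp] lemma cR_apply (u : VM) : cR u = u.1.1 := rfl
@[simp] lemma cS_apply (u : VM) : cS u = u.1.2.1 := rfl
@[simp] lemma cH_apply (u : VM) : cH u = u.1.2.2 := rfl
@[simp] lemma cX_apply (i : Fin 3) (u : VM) : cX i u = u.2.1 i := rfl
@[simp] lemma cT_apply (u : VM) : cT u = u.2.2 := rfl

/-- the exponential weights -/
def wt (i : Fin 3) (t : ℝ) : ℝ := Real.exp (ex i * t)

lemma wt_pos (i : Fin 3) (t : ℝ) : 0 < wt i t := Real.exp_pos _

lemma wt_sub (i : Fin 3) (t : ℝ) (m : ℤ) : wt i (t - m) * rt i ^ m = wt i t := by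
  unfold wt
  rw [← exp_mul_int, ← Real.exp_add]
  congr 1; ring

/-- The invariant one-forms `θ i = exp (m_i t) dξ_i`. -/
def thV (i : Fin 3) (v : VM) : VM →L[ℝ] ℝ := wt i v.2.2 • cX i

lemma thV_apply (i : Fin 3) (v u : VM) : thV i v u = wt i v.2.2 * u.2.1 i := rfl

lemma hasFDerivAt_wt (i : Fin 3) (v : VM) :
    HasFDerivAt (fun v : VM => wt i v.2.2) ((ex i * wt i v.2.2) • cT) v := by
  have h1 : HasFDerivAt (fun v : VM => ex i * cT v) (ex i • cT) v :=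
    cT.hasFDerivAt.const_mul (ex i)
  have h2 : HasFDerivAt (fun v : VM => wt i v.2.2) (wt i v.2.2 • ex i • cT) v := h1.exp
  refine h2.congr_fderiv ?_
  rw [smul_smul, mul_comm]

lemma contDiff_wt (i : Fin 3) : ContDiff ℝ ∞ (fun v : VM => wt i v.2.2) := by
  unfold wt
  have : ContDiff ℝ ∞ fun v : VM => ex i * cT v := contDiff_const.mul cT.contDiff
  exact this.exp

lemma hasFDerivAt_thV (i : Fin 3) (v : VM) :
    HasFDerivAt (thV i) (((ex i * wt i v.2.2) • cT).smulRight (cX i)) v :=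
  (hasFDerivAt_wt i v).smul_const (cX i)

lemma contDiff_thV (i : Fin 3) : ContDiff ℝ ∞ (thV i) := (contDiff_wt i).smul contDiff_const

/-- The coframe on the cover. -/
def cofV (j : Fin 7) : VM → VM →L[ℝ] ℝ :=
  ![fun _ => cR, fun _ => cS, fun _ => cH, thV 0, thV 1, thV 2, fun _ => cT] j

lemma contDiff_cofV (j : Fin 7) : ContDiff ℝ ∞ (cofV j) := by
  fin_cases j
  · exact contDiff_const
  · exact contDiff_const
  · exact contDiff_const
  · exact contDiff_thV 0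
  · exact contDiff_thV 1
  · exact contDiff_thV 2
  · exact contDiff_const

lemma smulM (g : GM) (v : VM) : g • v = (v.1, actW g.n g.m v.2) := by
  rw [smul_def]
  have : (Lat.tr g.l : ℝ × ℝ × ℝ) = 0 := rfl
  rw [this, add_zero]

lemma thV_inv (i : Fin 3) (g : GM) (v u : VM) : thV i (g • v) (dact g v u) = thV i v u := by
  rw [dact_apply, thV_apply, thV_apply, smulM]
  show wt i (v.2.2 - g.m) * (rt i ^ g.m * u.2.1 i) = _
  rw [← mul_assoc, wt_sub]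

lemma cofV_inv (j : Fin 7) (g : GM) (v u : VM) : cofV j (g • v) (dact g v u) = cofV j v u := by
  fin_cases j
  · show cR (dact g v u) = cR u; rw [dact_apply]; rfl
  · show cS (dact g v u) = cS u; rw [dact_apply]; rfl
  · show cH (dact g v u) = cH u; rw [dact_apply]; rfl
  · exact thV_inv 0 g v u
  · exact thV_inv 1 g v u
  · exact thV_inv 2 g v u
  · show cT (dact g v u) = cT u; rw [dact_apply]; rfl

/-- The contact form on the cover: `dη + θ₀ + r θ₁ + s θ₂`. -/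
def alV (v : VM) : VM →L[ℝ] ℝ := cH + thV 0 v + v.1.1 • thV 1 v + v.1.2.1 • thV 2 v

lemma contDiff_alV : ContDiff ℝ ∞ alV := by
  have h1 : ContDiff ℝ ∞ fun v : VM => v.1.1 := cR.contDiff
  have h2 : ContDiff ℝ ∞ fun v : VM => v.1.2.1 := cS.contDiff
  exact ((contDiff_const.add (contDiff_thV 0)).add (h1.smul (contDiff_thV 1))).add
    (h2.smul (contDiff_thV 2))

lemma alV_inv (g : GM) (v u : VM) : alV (g • v) (dact g v u) = alV v u := by
  have h0 := thV_inv 0 g v u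
  have h1 := thV_inv 1 g v u
  have h2 := thV_inv 2 g v u
  have h3 : cH (dact g v u) = cH u := by rw [dact_apply]; rfl
  have h4 : (g • v).1 = v.1 := by rw [smulM]
  simp only [alV, add_apply, smul_apply, h0, h1, h2, h3, h4]

/-- the algebraic expression of the contact form in the coframe -/
def bet (a : Fin 7 → ℝ) (r s : ℝ) : ℝ := a 2 + a 3 + r * a 4 + s * a 5

/-- the algebraic expression of its differential -/
def omg (a b : Fin 7 → ℝ) (r s : ℝ) : ℝ :=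
  ex 0 * (a 6 * b 3 - b 6 * a 3) + (a 0 * b 4 - b 0 * a 4) + ex 1 * r * (a 6 * b 4 - b 6 * a 4) +
    (a 1 * b 5 - b 1 * a 5) + ex 2 * s * (a 6 * b 5 - b 6 * a 5)

lemma alV_eq (v u : VM) : alV v u = bet (fun j => cofV j v u) v.1.1 v.1.2.1 := rfl

lemma dalV (v u w : VM) : fderiv ℝ alV v u w - fderiv ℝ alV v w u =
    omg (fun j => cofV j v u) (fun j => cofV j v w) v.1.1 v.1.2.1 := by
  have h : HasFDerivAt alV ((((ex 0 * wt 0 v.2.2) • cT).smulRight (cX 0)) +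
      (v.1.1 • (((ex 1 * wt 1 v.2.2) • cT).smulRight (cX 1)) + cR.smulRight (thV 1 v)) +
      (v.1.2.1 • (((ex 2 * wt 2 v.2.2) • cT).smulRight (cX 2)) + cS.smulRight (thV 2 v))) v := by
    have e1 : HasFDerivAt (fun v : VM => v.1.1) cR v := cR.hasFDerivAt
    have e2 : HasFDerivAt (fun v : VM => v.1.2.1) cS v := cS.hasFDerivAt
    exact (((hasFDerivAt_thV 0 v).const_add cH).add (e1.smul (hasFDerivAt_thV 1 v))).add
      (e2.smul (hasFDerivAt_thV 2 v))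
  rw [h.fderiv]
  show ((ex 0 * wt 0 v.2.2 * u.2.2) * w.2.1 0 +
      (v.1.1 * ((ex 1 * wt 1 v.2.2 * u.2.2) * w.2.1 1) + u.1.1 * (wt 1 v.2.2 * w.2.1 1)) +
      (v.1.2.1 * ((ex 2 * wt 2 v.2.2 * u.2.2) * w.2.1 2) + u.1.2.1 * (wt 2 v.2.2 * w.2.1 2))) -
    ((ex 0 * wt 0 v.2.2 * w.2.2) * u.2.1 0 +
      (v.1.1 * ((ex 1 * wt 1 v.2.2 * w.2.2) * u.2.1 1) + w.1.1 * (wt 1 v.2.2 * u.2.1 1)) +
      (v.1.2.1 * ((ex 2 * wt 2 v.2.2 * w.2.2) * u.2.1 2) + w.1.2.1 * (wt 2 v.2.2 * u.2.1 2))) =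
    ex 0 * (u.2.2 * (wt 0 v.2.2 * w.2.1 0) - w.2.2 * (wt 0 v.2.2 * u.2.1 0)) +
      (u.1.1 * (wt 1 v.2.2 * w.2.1 1) - w.1.1 * (wt 1 v.2.2 * u.2.1 1)) +
      ex 1 * v.1.1 * (u.2.2 * (wt 1 v.2.2 * w.2.1 1) - w.2.2 * (wt 1 v.2.2 * u.2.1 1)) +
      (u.1.2.1 * (wt 2 v.2.2 * w.2.1 2) - w.1.2.1 * (wt 2 v.2.2 * u.2.1 2)) +
      ex 2 * v.1.2.1 * (u.2.2 * (wt 2 v.2.2 * w.2.1 2) - w.2.2 * (wt 2 v.2.2 * u.2.1 2))
  ring

/-! ### On the quotient -/

/-- The coframe. -/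
def cofM (j : Fin 7) : OneForm VM Mfd := descF GM (cofV j)

/-- The contact form. -/
def alM : OneForm VM Mfd := descF GM alV

/-- The functions `r` and `s`. -/
def rM (x : Mfd) : ℝ := x.out.1.1
def sM (x : Mfd) : ℝ := x.out.1.2.1

lemma out_fst (v : VM) : (qm GM v).out.1 = v.1 := by
  obtain ⟨g, hg⟩ := qm_eq_iff.1 (qm_out (qm GM v))
  rw [hg, smulM]

lemma rM_qm (v : VM) : rM (qm GM v) = v.1.1 := by unfold rM; rw [out_fst]
lemma sM_qm (v : VM) : sM (qm GM v) = v.1.2.1 := by unfold sM; rw [out_fst]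

lemma contMDiff_rM : ContMDiff 𝓘(ℝ, VM) 𝓘(ℝ, ℝ) ∞ rM := by
  apply contMDiff_of_comp_qm
  have : (fun w : VM => rM (qm GM w)) = cR := by funext w; exact rM_qm w
  rw [this]
  exact cR.contDiff.contMDiff

lemma contMDiff_sM : ContMDiff 𝓘(ℝ, VM) 𝓘(ℝ, ℝ) ∞ sM := by
  apply contMDiff_of_comp_qm
  have : (fun w : VM => sM (qm GM w)) = cS := by funext w; exact sM_qm w
  rw [this]
  exact cS.contDiff.contMDiff

lemma cofM_dq (j : Fin 7) (v u : VM) : cofM j (qm GM v) (dq GM v u) = cofV j v u :=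
  descF_dq (cofV_inv j) v u

lemma alM_dq (v u : VM) : alM (qm GM v) (dq GM v u) = alV v u := descF_dq alV_inv v u

lemma smooth_cofM (j : Fin 7) : SmoothForm (I := 𝓘(ℝ, VM)) (cofM j) :=
  smoothForm_descF (cofV_inv j) (contDiff_cofV j)

lemma smooth_alM : SmoothForm (I := 𝓘(ℝ, VM)) alM := smoothForm_descF alV_inv contDiff_alV

lemma exists_dq (x : Mfd) (u : TangentSpace 𝓘(ℝ, VM) x) :
    ∃ v u' : VM, ∃ h : qm GM v = x, (h ▸ (dq GM v u' : TangentSpace 𝓘(ℝ, VM) (qm GM v))) = u := by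
  obtain ⟨v, rfl⟩ := qm_surj x
  obtain ⟨u', rfl⟩ := dq_surjective (G := GM) v u
  exact ⟨v, u', rfl, rfl⟩

lemma alM_eq (x : Mfd) (u : TangentSpace 𝓘(ℝ, VM) x) :
    alM x u = bet (fun j => cofM j x u) (rM x) (sM x) := by
  obtain ⟨v, rfl⟩ := qm_surj x
  obtain ⟨u', rfl⟩ := dq_surjective (G := GM) v u
  rw [rM_qm, sM_qm]
  have : (fun j => cofM j (qm GM v) (dq GM v u')) = fun j => cofV j v u' := by
    funext j; exact cofM_dq j v u'
  rw [this, ← alV_eq]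
  exact alM_dq v u'

lemma dd_alM (x : Mfd) (u w : TangentSpace 𝓘(ℝ, VM) x) :
    dd alM x u w = omg (fun j => cofM j x u) (fun j => cofM j x w) (rM x) (sM x) := by
  obtain ⟨v, rfl⟩ := qm_surj x
  obtain ⟨u', rfl⟩ := dq_surjective (G := GM) v u
  obtain ⟨w', rfl⟩ := dq_surjective (G := GM) v w
  rw [rM_qm, sM_qm]
  have h1 : (fun j => cofM j (qm GM v) (dq GM v u')) = fun j => cofV j v u' := by
    funext j; exact cofM_dq j v u'
  have h2 : (fun j => cofM j (qm GM v) (dq GM v w')) = fun j => cofV j v w' := by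
    funext j; exact cofM_dq j v w'
  rw [h1, h2, ← dalV]
  exact extDer_descF alV_inv contDiff_alV v u' w'

/-- The vector with given coordinates in the coframe. -/
lemma exists_cofV (v : VM) (a : Fin 7 → ℝ) : ∃ u : VM, ∀ j, cofV j v u = a j := by
  refine ⟨((a 0, a 1, a 2), (![a 3 / wt 0 v.2.2, a 4 / wt 1 v.2.2, a 5 / wt 2 v.2.2], a 6)), ?_⟩
  have h0 := (wt_pos 0 v.2.2).ne'
  have h1 := (wt_pos 1 v.2.2).ne'
  have h2 := (wt_pos 2 v.2.2).ne'
  intro j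
  fin_cases j
  · rfl
  · rfl
  · rfl
  · show wt 0 v.2.2 * (a 3 / wt 0 v.2.2) = a 3; field_simp
  · show wt 1 v.2.2 * (a 4 / wt 1 v.2.2) = a 4; field_simp
  · show wt 2 v.2.2 * (a 5 / wt 2 v.2.2) = a 5; field_simp
  · rfl

lemma cofV_zero (v u : VM) (h : ∀ j, cofV j v u = 0) : u = 0 := by
  have h0 : u.1.1 = 0 := h 0
  have h1 : u.1.2.1 = 0 := h 1
  have h2 : u.1.2.2 = 0 := h 2
  have h3 : wt 0 v.2.2 * u.2.1 0 = 0 := h 3
  have h4 : wt 1 v.2.2 * u.2.1 1 = 0 := h 4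
  have h5 : wt 2 v.2.2 * u.2.1 2 = 0 := h 5
  have h6 : u.2.2 = 0 := h 6
  have k0 := (mul_eq_zero.1 h3).resolve_left (wt_pos _ _).ne'
  have k1 := (mul_eq_zero.1 h4).resolve_left (wt_pos _ _).ne'
  have k2 := (mul_eq_zero.1 h5).resolve_left (wt_pos _ _).ne'
  refine Prod.ext (Prod.ext h0 (Prod.ext h1 h2)) (Prod.ext ?_ h6)
  funext i
  fin_cases i
  · exact k0
  · exact k1
  · exact k2

lemma exists_cofM (x : Mfd) (a : Fin 7 → ℝ) :
    ∃ u : TangentSpace 𝓘(ℝ, VM) x, (fun j => cofM j x u) = a := by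
  obtain ⟨v, rfl⟩ := qm_surj x
  obtain ⟨u, hu⟩ := exists_cofV v a
  exact ⟨dq GM v u, by funext j; exact (cofM_dq j v u).trans (hu j)⟩

lemma cofM_zero (x : Mfd) (u : TangentSpace 𝓘(ℝ, VM) x) (h : (fun j => cofM j x u) = 0) :
    u = 0 := by
  obtain ⟨v, rfl⟩ := qm_surj x
  obtain ⟨u', rfl⟩ := dq_surjective (G := GM) v u
  have : u' = 0 := cofV_zero v u' fun j => (cofM_dq j v u').symm.trans (congrFun h j)
  rw [this]
  exact map_zero (dq GM v)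

/-- algebraic nondegeneracy on the kernel -/
lemma omg_nondeg {a : Fin 7 → ℝ} {r s : ℝ} (h1 : bet a r s = 0)
    (h2 : ∀ b, bet b r s = 0 → omg a b r s = 0) : a = 0 := by
  have hm := ex0_pos.ne'
  have e0 := h2 ![1, 0, 0, 0, 0, 0, 0] (by simp [bet])
  have e1 := h2 ![0, 1, 0, 0, 0, 0, 0] (by simp [bet])
  have e3 := h2 ![0, 0, -1, 1, 0, 0, 0] (by simp [bet])
  have e4 := h2 ![0, 0, -r, 0, 1, 0, 0] (by simp [bet])
  have e5 := h2 ![0, 0, -s, 0, 0, 1, 0] (by simp [bet])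
  have e6 := h2 ![0, 0, 0, 0, 0, 0, 1] (by simp [bet])
  simp [omg] at e0 e1 e3 e4 e5 e6
  unfold bet at h1
  have a4 : a 4 = 0 := by linarith
  have a5 : a 5 = 0 := by linarith
  have a6 : a 6 = 0 := by
    rcases e3 with h | h
    · exact absurd h hm
    · exact h
  rw [a4, a5] at e6
  have a3 : a 3 = 0 := by
    have : ex 0 * a 3 = 0 := by linarith
    exact (mul_eq_zero.1 this).resolve_left hm
  rw [a6] at e4 e5
  have a0 : a 0 = 0 := by linarith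
  have a1 : a 1 = 0 := by linarith
  rw [a3, a4, a5] at h1
  have a2 : a 2 = 0 := by linarith
  funext j
  fin_cases j <;> assumption

/-- algebraic form of: `dα(a, ·) = μ α` and `α a = 0` imply `a = 0` and `μ = 0` -/
lemma omg_char {a : Fin 7 → ℝ} {r s m : ℝ} (h1 : bet a r s = 0)
    (h2 : ∀ b, omg a b r s = m * bet b r s) : a = 0 ∧ m = 0 := by
  have e2 := h2 ![0, 0, 1, 0, 0, 0, 0]
  have hm : m = 0 := by
    simp [omg, bet] at e2
    linarith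
  refine ⟨omg_nondeg h1 fun b _ => ?_, hm⟩
  rw [h2, hm, zero_mul]

end Pool.Agent.Y521
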