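import Mathlib
import Pool.Agent.Y521.Frm

/-!
# The kernel vector of a skew symmetric `7 × 7` matrix
-/

open scoped ContDiff
open Set

noncomputable section

namespace Pool.Agent.Y521

/-- Pfaffians of `4 × 4` and `6 × 6` minors. -/
def pf4 (K : Fin 7 → Fin 7 → ℝ) (a b c d : Fin 7) : ℝ :=
  K a b * K c d - K a c * K b d + K a d * K b c

def pf6 (K : Fin 7 → Fin 7 → ℝ) (a b c d e f : Fin 7) : ℝ :=
  K a b * pf4 K c d e f - K a c * pf4 K b d e f + K a d * pf4 K b c e f -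
    K a e * pf4 K b c d f + K a f * pf4 K b c d e

/-- The kernel vector. -/
def pfv (K : Fin 7 → Fin 7 → ℝ) : Fin 7 → ℝ :=
  ![-pf6 K 1 2 3 4 5 6, pf6 K 0 2 3 4 5 6, -pf6 K 0 1 3 4 5 6, pf6 K 0 1 2 4 5 6,
    -pf6 K 0 1 2 3 5 6, pf6 K 0 1 2 3 4 6, -pf6 K 0 1 2 3 4 5]

theorem pfv_ker (K : Fin 7 → Fin 7 → ℝ) (h : ∀ i j, K j i = -K i j) (i : Fin 7) :
    ∑ j, K i j * pfv K j = 0 := by
  have h0 : ∀ i, K i i = 0 := fun i => by
    have := h i i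
    linarith
  simp only [Fin.sum_univ_succ, Fin.sum_univ_zero, pfv, pf6, pf4]
  fin_cases i
  all_goals
    simp [Fin.succ, h0, h 0 1, h 0 2, h 0 3, h 0 4, h 0 5, h 0 6, h 1 2, h 1 3, h 1 4, h 1 5, h 1 6, h 2 3, h 2 4,
      h 2 5, h 2 6, h 3 4, h 3 5, h 3 6, h 4 5, h 4 6, h 5 6]
    try ring

/-- The matrix of the pulled back forms. The rows `D a`, `a < 6`, are the coordinates of the images
of the frame vectors; the last row of `D` is not used. -/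
def Kmat (D : Fin 7 → Fin 7 → ℝ) (r s : ℝ) (i j : Fin 7) : ℝ :=
  if i = 6 then (if j = 6 then 0 else -bet (D j) r s)
  else (if j = 6 then bet (D i) r s else omg (D i) (D j) r s)

lemma omg_skew (a b : Fin 7 → ℝ) (r s : ℝ) : omg b a r s = -omg a b r s := by
  unfold omg; ring

lemma Kmat_skew (D : Fin 7 → Fin 7 → ℝ) (r s : ℝ) (i j : Fin 7) :
    Kmat D r s j i = -Kmat D r s i j := by
  unfold Kmat
  by_cases h1 : i = 6 <;> by_cases h2 : j = 6 <;> simp [h1, h2]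
  exact omg_skew _ _ _ _

/-- The kernel vector of the matrix of the pulled back forms. -/
def Psi (p : (Fin 7 → Fin 7 → ℝ) × (ℝ × ℝ)) : Fin 7 → ℝ := pfv (Kmat p.1 p.2.1 p.2.2)

lemma contDiff_Kmat (i j : Fin 7) :
    ContDiff ℝ ∞ fun p : (Fin 7 → Fin 7 → ℝ) × (ℝ × ℝ) => Kmat p.1 p.2.1 p.2.2 i j := by
  unfold Kmat bet omg
  split_ifs <;> fun_prop

lemma contDiff_pf6 (a b c d e f : Fin 7) :
    ContDiff ℝ ∞ fun p : (Fin 7 → Fin 7 → ℝ) × (ℝ × ℝ) =>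
      pf6 (Kmat p.1 p.2.1 p.2.2) a b c d e f := by
  have h := contDiff_Kmat
  unfold pf6 pf4
  fun_prop

lemma contDiff_Psi : ContDiff ℝ ∞ Psi := by
  rw [contDiff_pi]
  intro j
  fin_cases j
  · exact (contDiff_pf6 1 2 3 4 5 6).neg
  · exact contDiff_pf6 0 2 3 4 5 6
  · exact (contDiff_pf6 0 1 3 4 5 6).neg
  · exact contDiff_pf6 0 1 2 4 5 6
  · exact (contDiff_pf6 0 1 2 3 5 6).neg
  · exact contDiff_pf6 0 1 2 3 4 6
  · exact (contDiff_pf6 0 1 2 3 4 5).neg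

lemma Psi_ker (D : Fin 7 → Fin 7 → ℝ) (r s : ℝ) (i : Fin 7) :
    ∑ j, Kmat D r s i j * Psi (D, (r, s)) j = 0 :=
  pfv_ker _ (fun i j => Kmat_skew D r s i j) i

/-- The coordinates of the images of the frame for the model hypersurface. The vector `q` contains
the value and the derivatives of the perturbation. -/
def Df (φ ψ : ℝ) (q : Fin 6 → ℝ) : Fin 7 → Fin 7 → ℝ :=
  let E := Real.exp (Real.cos ψ + q 0)
  ![![E * (q 1 * Real.cos φ - Real.sin φ), 0, E * (q 1 * Real.sin φ + Real.cos φ), 0, 0, 0, 0],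
    ![-(E * Real.sin ψ * Real.cos φ), Real.cos ψ, -(E * Real.sin ψ * Real.sin φ), 0, 0, 0, 0],
    ![E * q 2 * Real.cos φ, 0, E * q 2 * Real.sin φ, 1, 0, 0, 0],
    ![E * q 3 * Real.cos φ, 0, E * q 3 * Real.sin φ, 0, 1, 0, 0],
    ![E * q 4 * Real.cos φ, 0, E * q 4 * Real.sin φ, 0, 0, 1, 0],
    ![E * q 5 * Real.cos φ, 0, E * q 5 * Real.sin φ, 0, 0, 0, 1],
    ![0, 0, 0, 0, 0, 0, 0]]

/-- The kernel vector of the model hypersurface. -/
def Zf (φ ψ : ℝ) (q : Fin 6 → ℝ) : Fin 7 → ℝ :=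
  Psi (Df φ ψ q, (Real.exp (Real.cos ψ + q 0) * Real.cos φ, Real.sin ψ))

lemma continuous_Zf : Continuous fun p : ℝ × ℝ × (Fin 6 → ℝ) => Zf p.1 p.2.1 p.2.2 := by
  have h : Continuous fun p : ℝ × ℝ × (Fin 6 → ℝ) => Df p.1 p.2.1 p.2.2 := by
    refine continuous_pi fun i => continuous_pi fun j => ?_
    unfold Df
    fin_cases i <;> fin_cases j <;> simp <;> fun_prop
  exact contDiff_Psi.continuous.comp (by fun_prop)

lemma Zf_6 (φ ψ : ℝ) (q : Fin 6 → ℝ) : Zf φ ψ q 6 =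
    ex 0 * Real.exp (Real.cos ψ + q 0) * Real.cos ψ * (Real.sin φ - q 1 * Real.cos φ) := by
  simp [Zf, Psi, pfv, pf6, pf4, Kmat, Df, omg, bet]
  ring

lemma Zf_3 (φ ψ : ℝ) (q : Fin 6 → ℝ) : Zf φ ψ q 3 =
    ex 0 * Real.exp (Real.cos ψ + q 0) * Real.cos ψ * (Real.cos φ + q 1 * Real.sin φ) := by
  simp [Zf, Psi, pfv, pf6, pf4, Kmat, Df, omg, bet]
  ring

lemma Zf_4 (φ ψ : ℝ) (q : Fin 6 → ℝ) : Zf φ ψ q 4 =
    ex 0 * Real.exp (Real.cos ψ + q 0) ^ 2 * Real.sin ψ := by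
  have h := Real.sin_sq_add_cos_sq φ
  simp [Zf, Psi, pfv, pf6, pf4, Kmat, Df, omg, bet]
  linear_combination (ex 0 * Real.exp (Real.cos ψ + q 0) ^ 2 * Real.sin ψ) * h

/-- The coefficient of `sin ψ` in the `ψ` component. -/
def Ah (φ ψ : ℝ) (q : Fin 6 → ℝ) : ℝ :=
  Real.exp (Real.cos ψ + q 0) * (Real.sin φ - q 1 * Real.cos φ) *
    (ex 0 - ex 2 * (1 + Real.exp (Real.cos ψ + q 0) * Real.sin φ * q 2)) -
  ex 2 * (Real.exp (Real.cos ψ + q 0) * (q 1 * Real.sin φ + Real.cos φ)) *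
    (Real.exp (Real.cos ψ + q 0) * Real.cos φ * q 2)

lemma continuous_Ah : Continuous fun p : ℝ × ℝ × (Fin 6 → ℝ) => Ah p.1 p.2.1 p.2.2 := by
  unfold Ah
  fun_prop

lemma Zf_1 (φ ψ : ℝ) (q : Fin 6 → ℝ) : Zf φ ψ q 1 =
    Real.sin ψ * Ah φ ψ q + ex 0 * Real.exp (Real.cos ψ + q 0) ^ 2 * q 4 := by
  have h := Real.sin_sq_add_cos_sq φ
  simp [Zf, Psi, pfv, pf6, pf4, Kmat, Df, omg, bet, Ah]
  linear_combination (ex 0 * Real.exp (Real.cos ψ + q 0) ^ 2 * q 4) * h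

lemma Zf_0_zero (φ : ℝ) : Zf φ 0 0 0 = Real.exp 1 * Real.cos φ * (ex 1 - ex 0) := by
  simp [Zf, Psi, pfv, pf6, pf4, Kmat, Df, omg, bet]
  ring

lemma Zf_6_zero (φ : ℝ) : Zf φ 0 0 6 = ex 0 * Real.exp 1 * Real.sin φ := by
  rw [Zf_6]; simp

lemma Ah_zero (φ : ℝ) : Ah φ 0 0 = Real.exp 1 * Real.sin φ * (ex 0 - ex 2) := by
  unfold Ah; simp

/-- The kernel vector of the model hypersurface does not vanish. -/
lemma Zf_ne_zero (φ ψ : ℝ) (q : Fin 6 → ℝ) : Zf φ ψ q ≠ 0 := by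
  intro h
  have hm := ex0_pos
  have hE := Real.exp_pos (Real.cos ψ + q 0)
  have h3 := congrFun h 3
  have h4 := congrFun h 4
  have h6 := congrFun h 6
  rw [Zf_3] at h3
  rw [Zf_4] at h4
  rw [Zf_6] at h6
  simp only [Pi.zero_apply] at h3 h4 h6
  have s0 : Real.sin ψ = 0 := (mul_eq_zero.1 h4).resolve_left (by positivity)
  have c0 : Real.cos ψ ≠ 0 := by
    intro hc
    have := Real.sin_sq_add_cos_sq ψ
    rw [s0, hc] at this
    norm_num at this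
  have hne : ex 0 * Real.exp (Real.cos ψ + q 0) * Real.cos ψ ≠ 0 :=
    mul_ne_zero (by positivity) c0
  have e3 := (mul_eq_zero.1 h3).resolve_left hne
  have e6 := (mul_eq_zero.1 h6).resolve_left hne
  have h := Real.sin_sq_add_cos_sq φ
  nlinarith [sq_nonneg (q 1), sq_nonneg (Real.sin φ), sq_nonneg (Real.cos φ)]

end Pool.Agent.Y521
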