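import Mathlib
import Pool.Agent.Y521.Pfaff

/-!
# Inequalities for the model
-/

open scoped Topology ContDiff
open Set Metric

noncomputable section

namespace Pool.Agent.Y521

/-- jets of the perturbation -/
abbrev Q6 : Type := Fin 6 → ℝ

/-- A positive continuous function on a compact set is bounded below near it. -/
lemma tube_pos {K : Set ℝ} (hK : IsCompact K) {f : ℝ × ℝ × Q6 → ℝ} (hf : Continuous f)
    (hpos : ∀ φ ∈ K, 0 < f (φ, 0, 0)) :
    ∃ c > 0, ∃ ρ > 0, ∀ φ ∈ K, ∀ (ψ : ℝ) (q : Q6), |ψ| ≤ ρ → ‖q‖ ≤ ρ → c ≤ f (φ, ψ, q) := by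
  obtain ⟨c, hc, hcK⟩ : ∃ c > 0, ∀ φ ∈ K, c < f (φ, 0, 0) := by
    rcases K.eq_empty_or_nonempty with h | h
    · exact ⟨1, one_pos, by simp [h]⟩
    · have hcf : Continuous fun φ : ℝ => f (φ, 0, 0) := by fun_prop
      obtain ⟨x, hx, hmin⟩ := hK.exists_isMinOn h hcf.continuousOn
      refine ⟨f (x, 0, 0) / 2, by have := hpos x hx; positivity, fun φ hφ => ?_⟩
      have h1 := hpos x hx
      have h2 : f (x, 0, 0) ≤ f (φ, 0, 0) := hmin hφ
      linarith
  refine ⟨c, hc, ?_⟩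
  have h1 : ∀ᶠ z : ℝ × Q6 in 𝓝 (0, 0), ∀ φ ∈ K, c < f (φ, z.1, z.2) := by
    refine hK.eventually_forall_of_forall_eventually ?_
    intro φ hφ
    have h2 : Continuous fun w : (ℝ × Q6) × ℝ => f (w.2, w.1.1, w.1.2) := by fun_prop
    exact (h2.tendsto (((0, 0), φ) : (ℝ × Q6) × ℝ)).eventually_const_lt (hcK φ hφ)
  obtain ⟨ε, hε, h2⟩ := Metric.eventually_nhds_iff.1 h1
  refine ⟨ε / 2, by positivity, fun φ hφ ψ q h3 h4 => ?_⟩
  refine (h2 (y := (ψ, q)) ?_ φ hφ).le
  rw [Prod.dist_eq, max_lt_iff, dist_zero_right, dist_zero_right, Real.norm_eq_abs]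
  constructor <;> linarith

lemma exists_del : ∃ δ > 0, δ ≤ 1 / 4 ∧ ∀ φ ∈ Icc (-δ) (Real.pi / 2 + δ),
    0 < (ex 0 - ex 2) * Real.sin φ + (ex 1 - ex 0) * Real.cos φ := by
  have hA : 0 < ex 0 - ex 2 := by have := ex0_pos; have := ex2_neg; linarith
  have hB : 0 < ex 1 - ex 0 := by have := ex0_lt; linarith
  set A := ex 0 - ex 2
  set B := ex 1 - ex 0
  have hpi := Real.pi_gt_three
  -- positivity on the closed quarter period
  have key : ∀ φ ∈ Icc 0 (Real.pi / 2), min A B ≤ A * Real.sin φ + B * Real.cos φ := by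
    intro φ hφ
    have s0 : 0 ≤ Real.sin φ := Real.sin_nonneg_of_nonneg_of_le_pi hφ.1 (by linarith [hφ.2])
    have c0 : 0 ≤ Real.cos φ := Real.cos_nonneg_of_neg_pi_div_two_le_of_le (by linarith [hφ.1]) hφ.2
    have h1 : 1 ≤ Real.sin φ + Real.cos φ := by
      have h := Real.sin_sq_add_cos_sq φ
      nlinarith [mul_nonneg s0 c0]
    have hm1 : min A B ≤ A := min_le_left _ _
    have hm2 : min A B ≤ B := min_le_right _ _
    have hm : 0 < min A B := lt_min hA hB
    nlinarith [mul_le_mul_of_nonneg_right hm1 s0, mul_le_mul_of_nonneg_right hm2 c0]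
  have hm : 0 < min A B := lt_min hA hB
  refine ⟨min (1 / 4) (min A B / (2 * (A + B))), by positivity, min_le_left _ _, ?_⟩
  intro φ hφ
  set δ := min (1 / 4) (min A B / (2 * (A + B))) with hδ
  have hδ0 : 0 < δ := by positivity
  have hδ2 : (A + B) * δ ≤ min A B / 2 := by
    have : δ ≤ min A B / (2 * (A + B)) := min_le_right _ _
    calc (A + B) * δ ≤ (A + B) * (min A B / (2 * (A + B))) := by gcongr
      _ = min A B / 2 := by field_simp
  -- the nearest point of the quarter period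
  obtain ⟨x, hx, hd⟩ : ∃ x ∈ Icc 0 (Real.pi / 2), |φ - x| ≤ δ := by
    rcases lt_or_ge φ 0 with h | h
    · exact ⟨0, ⟨le_rfl, by linarith⟩, by rw [abs_le]; constructor <;> linarith [hφ.1]⟩
    · rcases le_or_gt φ (Real.pi / 2) with h' | h'
      · exact ⟨φ, ⟨h, h'⟩, by simpa using hδ0.le⟩
      · exact ⟨Real.pi / 2, ⟨by linarith, le_rfl⟩, by rw [abs_le]; constructor <;> linarith [hφ.2]⟩
  have hs : |Real.sin φ - Real.sin x| ≤ |φ - x| := Real.abs_sin_sub_sin_le φ x
  have hc : |Real.cos φ - Real.cos x| ≤ |φ - x| := Real.abs_cos_sub_cos_le φ x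
  have h1 := key x hx
  rw [abs_le] at hs hc
  have h2 : A * Real.sin x - A * δ ≤ A * Real.sin φ := by
    have : Real.sin x - δ ≤ Real.sin φ := by linarith [hs.1]
    nlinarith
  have h3 : B * Real.cos x - B * δ ≤ B * Real.cos φ := by
    have : Real.cos x - δ ≤ Real.cos φ := by linarith [hc.1]
    nlinarith
  nlinarith

end Pool.Agent.Y521
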