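import Mathlib
import Pool.Agent.Y521.Mdl

/-!
# The constants of the model
-/

open scoped Topology ContDiff
open Set Metric Real

noncomputable section

namespace Pool.Agent.Y521

/-- The constants of the model. -/
structure Mod where
  (del c lam rho Cz : ℝ)
  del_pos : 0 < del
  del_le : del ≤ 1 / 4
  c_pos : 0 < c
  lam_pos : 0 < lam
  rho_pos : 0 < rho
  rho_le : rho ≤ 1
  c_le : c ≤ Cz
  m1 : ∀ φ ψ q, |φ| ≤ π / 2 - del → |ψ| ≤ rho → ‖q‖ ≤ rho → c ≤ Zf φ ψ q 0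
  m2 : ∀ φ ψ q, π / 2 + del / 2 ≤ |φ| → |φ| ≤ π / 2 + del → |ψ| ≤ rho → ‖q‖ ≤ rho →
    Zf φ ψ q 0 ≤ -c
  m3 : ∀ φ ψ q, π / 2 - del ≤ φ → φ ≤ π / 2 + del → |ψ| ≤ rho → ‖q‖ ≤ rho → c ≤ Zf φ ψ q 6
  m3' : ∀ φ ψ q, -(π / 2 + del) ≤ φ → φ ≤ -(π / 2 - del) → |ψ| ≤ rho → ‖q‖ ≤ rho →
    Zf φ ψ q 6 ≤ -c
  m4 : ∀ φ ψ q, -del ≤ φ → φ ≤ π / 2 + del → |ψ| ≤ rho → ‖q‖ ≤ rho →
    lam ≤ sinc ψ * Ah φ ψ q + Zf φ ψ q 0
  m4' : ∀ φ ψ q, -del ≤ φ → φ ≤ π / 2 + del → |ψ| ≤ rho → ‖q‖ ≤ rho →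
    lam ≤ -(sinc ψ * Ah (-φ) ψ q) + Zf (-φ) ψ q 0
  m5 : ∀ φ ψ q, |φ| ≤ π / 2 + del → |ψ| ≤ rho → ‖q‖ ≤ rho → ‖Zf φ ψ q‖ ≤ Cz

lemma cZ (j : Fin 7) : Continuous fun p : ℝ × ℝ × Q6 => Zf p.1 p.2.1 p.2.2 j :=
  (continuous_apply j).comp continuous_Zf

theorem exists_mod : Nonempty Mod := by
  obtain ⟨δ, hδ, hδ4, hδK⟩ := exists_del
  have hpi := pi_gt_three
  have hE := exp_pos (1 : ℝ)
  have hB : 0 < ex 1 - ex 0 := by have := ex0_lt; linarith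
  have hm := ex0_pos
  -- the first inequality
  obtain ⟨c1, hc1, ρ1, hρ1, h1⟩ := tube_pos (K := Icc (-(π / 2 - δ)) (π / 2 - δ)) isCompact_Icc
    (cZ 0) (fun φ hφ => by
      show 0 < Zf φ 0 0 0
      rw [Zf_0_zero]
      have : 0 < cos φ := cos_pos_of_mem_Ioo ⟨by linarith [hφ.1], by linarith [hφ.2]⟩
      positivity)
  obtain ⟨c2, hc2, ρ2, hρ2, h2⟩ := tube_pos (K := Icc (π / 2 + δ / 2) (π / 2 + δ)) isCompact_Icc
    (cZ 0).neg (fun φ hφ => by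
      show 0 < -Zf φ 0 0 0
      rw [Zf_0_zero]
      have : cos φ < 0 := cos_neg_of_pi_div_two_lt_of_lt (by linarith [hφ.1]) (by linarith [hφ.2])
      have h3 := mul_pos (mul_pos hE (neg_pos.2 this)) hB
      linarith)
  obtain ⟨c3, hc3, ρ3, hρ3, h3⟩ := tube_pos (K := Icc (-(π / 2 + δ)) (-(π / 2 + δ / 2)))
    isCompact_Icc (cZ 0).neg (fun φ hφ => by
      show 0 < -Zf φ 0 0 0
      rw [Zf_0_zero, ← cos_neg]
      have : cos (-φ) < 0 :=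
        cos_neg_of_pi_div_two_lt_of_lt (by linarith [hφ.2]) (by linarith [hφ.1])
      have h3 := mul_pos (mul_pos hE (neg_pos.2 this)) hB
      linarith)
  obtain ⟨c4, hc4, ρ4, hρ4, h4⟩ := tube_pos (K := Icc (π / 2 - δ) (π / 2 + δ)) isCompact_Icc
    (cZ 6) (fun φ hφ => by
      show 0 < Zf φ 0 0 6
      rw [Zf_6_zero]
      have : 0 < sin φ := sin_pos_of_pos_of_lt_pi (by linarith [hφ.1]) (by linarith [hφ.2])
      positivity)
  obtain ⟨c5, hc5, ρ5, hρ5, h5⟩ := tube_pos (K := Icc (-(π / 2 + δ)) (-(π / 2 - δ)))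
    isCompact_Icc (cZ 6).neg (fun φ hφ => by
      show 0 < -Zf φ 0 0 6
      rw [Zf_6_zero]
      have : 0 < sin (-φ) := sin_pos_of_pos_of_lt_pi (by linarith [hφ.2]) (by linarith [hφ.1])
      rw [sin_neg] at this
      have h3 := mul_pos (mul_pos hm hE) this
      linarith)
  have cA := continuous_Ah
  have cS : Continuous fun p : ℝ × ℝ × Q6 => sinc p.2.1 := continuous_sinc.comp (by fun_prop)
  obtain ⟨c6, hc6, ρ6, hρ6, h6⟩ := tube_pos (K := Icc (-δ) (π / 2 + δ)) isCompact_Icc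
    (f := fun p => sinc p.2.1 * Ah p.1 p.2.1 p.2.2 + Zf p.1 p.2.1 p.2.2 0)
    ((cS.mul cA).add (cZ 0)) (fun φ hφ => by
      show 0 < sinc 0 * Ah φ 0 0 + Zf φ 0 0 0
      rw [Zf_0_zero, Ah_zero, sinc_zero]
      have h3 := mul_pos hE (hδK φ hφ)
      linarith)
  have cA' : Continuous fun p : ℝ × ℝ × Q6 => Ah (-p.1) p.2.1 p.2.2 :=
    cA.comp (f := fun p : ℝ × ℝ × Q6 => (-p.1, p.2.1, p.2.2)) (by fun_prop)
  have cZ' : Continuous fun p : ℝ × ℝ × Q6 => Zf (-p.1) p.2.1 p.2.2 0 :=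
    (cZ 0).comp (f := fun p : ℝ × ℝ × Q6 => (-p.1, p.2.1, p.2.2)) (by fun_prop)
  obtain ⟨c7, hc7, ρ7, hρ7, h7⟩ := tube_pos (K := Icc (-δ) (π / 2 + δ)) isCompact_Icc
    (f := fun p => -(sinc p.2.1 * Ah (-p.1) p.2.1 p.2.2) + Zf (-p.1) p.2.1 p.2.2 0)
    ((cS.mul cA').neg.add cZ') (fun φ hφ => by
      show 0 < -(sinc 0 * Ah (-φ) 0 0) + Zf (-φ) 0 0 0
      rw [Zf_0_zero, Ah_zero, sinc_zero, sin_neg, cos_neg]
      have h3 := mul_pos hE (hδK φ hφ)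
      linarith)
  -- the upper bound
  let ρ := min 1 (min ρ1 (min ρ2 (min ρ3 (min ρ4 (min ρ5 (min ρ6 ρ7))))))
  have hρ : 0 < ρ := by positivity
  obtain ⟨C, hC⟩ : ∃ C, ∀ z ∈ (Icc (-(π / 2 + δ)) (π / 2 + δ)) ×ˢ (Icc (-1 : ℝ) 1 ×ˢ
      (closedBall (0 : Q6) 1)), ‖Zf z.1 z.2.1 z.2.2‖ ≤ C :=
    (isCompact_Icc.prod (isCompact_Icc.prod (isCompact_closedBall _ _))).exists_bound_of_continuousOn
      continuous_Zf.continuousOn
  let c := min c1 (min c2 (min c3 (min c4 c5)))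
  have hc : 0 < c := by positivity
  have e1 : ρ ≤ 1 := min_le_left _ _
  have e2 : ρ ≤ ρ1 := (min_le_right _ _).trans (min_le_left _ _)
  have e3 : ρ ≤ ρ2 := (min_le_right _ _).trans ((min_le_right _ _).trans (min_le_left _ _))
  have e4 : ρ ≤ ρ3 := (min_le_right _ _).trans ((min_le_right _ _).trans ((min_le_right _ _).trans
    (min_le_left _ _)))
  have e5 : ρ ≤ ρ4 := (min_le_right _ _).trans ((min_le_right _ _).trans ((min_le_right _ _).trans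
    ((min_le_right _ _).trans (min_le_left _ _))))
  have e6 : ρ ≤ ρ5 := (min_le_right _ _).trans ((min_le_right _ _).trans ((min_le_right _ _).trans
    ((min_le_right _ _).trans ((min_le_right _ _).trans (min_le_left _ _)))))
  have e7 : ρ ≤ ρ6 := (min_le_right _ _).trans ((min_le_right _ _).trans ((min_le_right _ _).trans
    ((min_le_right _ _).trans ((min_le_right _ _).trans ((min_le_right _ _).trans
      (min_le_left _ _))))))
  have e8 : ρ ≤ ρ7 := (min_le_right _ _).trans ((min_le_right _ _).trans ((min_le_right _ _).trans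
    ((min_le_right _ _).trans ((min_le_right _ _).trans ((min_le_right _ _).trans
      (min_le_right _ _))))))
  have d1 : c ≤ c1 := min_le_left _ _
  have d2 : c ≤ c2 := (min_le_right _ _).trans (min_le_left _ _)
  have d3 : c ≤ c3 := (min_le_right _ _).trans ((min_le_right _ _).trans (min_le_left _ _))
  have d4 : c ≤ c4 := (min_le_right _ _).trans ((min_le_right _ _).trans ((min_le_right _ _).trans
    (min_le_left _ _)))
  have d5 : c ≤ c5 := (min_le_right _ _).trans ((min_le_right _ _).trans ((min_le_right _ _).trans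
    (min_le_right _ _)))
  have hCb : ∀ φ ψ q, |φ| ≤ π / 2 + δ → |ψ| ≤ ρ → ‖q‖ ≤ ρ → ‖Zf φ ψ q‖ ≤ C := by
    intro φ ψ q a1 a2 a3
    refine hC (φ, ψ, q) ⟨abs_le.1 a1, abs_le.1 (a2.trans e1), ?_⟩
    rw [mem_closedBall, dist_zero_right]
    exact a3.trans e1
  have hM1 : ∀ φ ψ q, |φ| ≤ π / 2 - δ → |ψ| ≤ ρ → ‖q‖ ≤ ρ → c ≤ Zf φ ψ q 0 := by
    intro φ ψ q a1 a2 a3
    exact d1.trans (h1 φ (abs_le.1 a1) ψ q (a2.trans e2) (a3.trans e2))
  refine ⟨⟨δ, c, min c6 c7, ρ, C, hδ, hδ4, hc, by positivity, hρ, e1, ?_, hM1, ?_, ?_, ?_, ?_, ?_,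
    hCb⟩⟩
  · have a1 := hM1 0 0 0 (by rw [abs_zero]; linarith) (by rw [abs_zero]; exact hρ.le)
      (by rw [norm_zero]; exact hρ.le)
    have a2 := hCb 0 0 0 (by rw [abs_zero]; linarith) (by rw [abs_zero]; exact hρ.le)
      (by rw [norm_zero]; exact hρ.le)
    have a3 := norm_le_pi_norm (Zf 0 0 0) 0
    rw [Real.norm_eq_abs] at a3
    have := le_abs_self (Zf 0 0 0 0)
    linarith
  · intro φ ψ q a0 a1 a2 a3
    rcases abs_cases φ with ⟨e, _⟩ | ⟨e, _⟩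
    · have := h2 φ ⟨by linarith, by linarith⟩ ψ q (a2.trans e3) (a3.trans e3)
      simp only [Pi.neg_apply] at this
      linarith
    · have := h3 φ ⟨by linarith, by linarith⟩ ψ q (a2.trans e4) (a3.trans e4)
      simp only [Pi.neg_apply] at this
      linarith
  · intro φ ψ q a0 a1 a2 a3
    exact d4.trans (h4 φ ⟨a0, a1⟩ ψ q (a2.trans e5) (a3.trans e5))
  · intro φ ψ q a0 a1 a2 a3
    have := h5 φ ⟨a0, a1⟩ ψ q (a2.trans e6) (a3.trans e6)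
    simp only [Pi.neg_apply] at this
    linarith
  · intro φ ψ q a0 a1 a2 a3
    exact (min_le_left _ _).trans (h6 φ ⟨a0, a1⟩ ψ q (a2.trans e7) (a3.trans e7))
  · intro φ ψ q a0 a1 a2 a3
    exact (min_le_right _ _).trans (h7 φ ⟨a0, a1⟩ ψ q (a2.trans e8) (a3.trans e8))

end Pool.Agent.Y521
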