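import Mathlib
import Pool.Agent.W630.Defs

/-!
# Contact forms, embeddings, convex hypersurfaces, and the `C¹` topology

All manifolds are smooth manifolds without boundary modelled on finite dimensional normed spaces.
`OneForm`, `dd` (the exterior derivative of a one-form) are from `W630.Defs`, `SmoothForm` (a
one-form which is smooth as a function on the tangent bundle) from `Helper186.Forms`.
-/

open scoped Topology ContDiff Manifold
open Set Pool.Agent.W630 Pool.Agent.Helper186

noncomputable section

namespace Pool.Agent.Y521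

section Defs

variable {E : Type*} [NormedAddCommGroup E] [NormedSpace ℝ E]
  {X : Type*} [TopologicalSpace X] [ChartedSpace E X]

/-- `α` is a contact form: it is smooth, nowhere zero, and `dα` is nondegenerate on the
hyperplanes `ker α`. -/
structure IsContactForm [IsManifold 𝓘(ℝ, E) ∞ X] (α : OneForm E X) : Prop where
  smooth : SmoothForm (I := 𝓘(ℝ, E)) α
  ne_zero : ∀ x, ∃ w, α x w ≠ 0
  nondeg : ∀ (x : X) (u : TangentSpace 𝓘(ℝ, E) x), α x u = 0 →
    (∀ w, α x w = 0 → dd α x u w = 0) → u = 0

/-- `v` is a contact vector field on the open set `U`: it is smooth on `U` and its Lie derivative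
`L_v α = dα (v, ·) + d (α v)` is at each point of `U` a multiple of `α`. -/
structure IsContactField [IsManifold 𝓘(ℝ, E) ∞ X] (α : OneForm E X) (U : Set X)
    (v : (x : X) → TangentSpace 𝓘(ℝ, E) x) : Prop where
  smooth : ContMDiffOn 𝓘(ℝ, E) 𝓘(ℝ, E).tangent ∞ (fun x => (⟨x, v x⟩ : TangentBundle 𝓘(ℝ, E) X)) U
  lie : ∀ x ∈ U, ∃ h : ℝ, ∀ w : TangentSpace 𝓘(ℝ, E) x,
    dd α x (v x) w + (show ℝ from mfderiv 𝓘(ℝ, E) 𝓘(ℝ, ℝ) (fun y => α y (v y)) x w) = h * α x w

variable {G : Type*} [NormedAddCommGroup G] [NormedSpace ℝ G]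
  {S : Type*} [TopologicalSpace S] [ChartedSpace G S]

/-- `g` is an injective smooth immersion; since `S` is compact in all uses, it is a smooth
embedding. -/
structure IsEmb (G : Type*) [NormedAddCommGroup G] [NormedSpace ℝ G] [ChartedSpace G S]
    (E : Type*) [NormedAddCommGroup E] [NormedSpace ℝ E] [ChartedSpace E X] (g : S → X) :
    Prop where
  smooth : ContMDiff 𝓘(ℝ, G) 𝓘(ℝ, E) ∞ g
  injective : Function.Injective g
  immersion : ∀ p, Function.Injective (mfderiv 𝓘(ℝ, G) 𝓘(ℝ, E) g p)

/-- The hypersurface `g(S)` is convex: there is a contact vector field, defined on an open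
neighbourhood of `g(S)`, which is transverse to `g(S)`. -/
def IsConvexHyp [IsManifold 𝓘(ℝ, E) ∞ X] (α : OneForm E X) (G : Type*) [NormedAddCommGroup G]
    [NormedSpace ℝ G] [ChartedSpace G S] (g : S → X) : Prop :=
  ∃ U : Set X, IsOpen U ∧ range g ⊆ U ∧ ∃ v : (x : X) → TangentSpace 𝓘(ℝ, E) x,
    IsContactField α U v ∧ ∀ p, v (g p) ∉ range (mfderiv 𝓘(ℝ, G) 𝓘(ℝ, E) g p)

end Defs

section Space

variable (G : Type*) [NormedAddCommGroup G] [NormedSpace ℝ G]
  (S : Type*) [TopologicalSpace S] [ChartedSpace G S] [IsManifold 𝓘(ℝ, G) ∞ S]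
  (E : Type*) [NormedAddCommGroup E] [NormedSpace ℝ E]
  (X : Type*) [TopologicalSpace X] [ChartedSpace E X] [IsManifold 𝓘(ℝ, E) ∞ X]

/-- The space of smooth embeddings of the closed manifold `S` in `X`. -/
def EmbSpace : Type _ := {g : S → X // IsEmb G E g}

variable {G S E X}

/-- The tangent map of an embedding, as a continuous map between the tangent bundles. -/
def EmbSpace.tan (g : EmbSpace G S E X) :
    C(TangentBundle 𝓘(ℝ, G) S, TangentBundle 𝓘(ℝ, E) X) :=
  ⟨tangentMap 𝓘(ℝ, G) 𝓘(ℝ, E) g.1, g.2.smooth.continuous_tangentMap (by simp)⟩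

/-- The `C¹` topology: the coarsest topology for which the tangent map depends continuously on the
embedding, the continuous maps between the tangent bundles having the compact-open topology. -/
instance : TopologicalSpace (EmbSpace G S E X) :=
  TopologicalSpace.induced EmbSpace.tan inferInstance

end Space

end Pool.Agent.Y521
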