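import Mathlib
import Pool.Agent.W630.QMap
import Pool.Agent.Y521.Pfaff

/-!
# The frame on the hypersurface and the model embedding
-/

open scoped Topology ContDiff Manifold Matrix
open Set Pool.Agent.W630 Pool.Agent.Helper186

noncomputable section

namespace Pool.Agent.Y521

/-! ### The frame -/

/-- The frame on the cover. -/
def frV (j : Fin 7) (v : VS) : VS :=
  ![((1, 0), (0, 0)), ((0, 1), (0, 0)), ((0, 0), (Pi.single 0 (wt 0 v.2.2)⁻¹, 0)),
    ((0, 0), (Pi.single 1 (wt 1 v.2.2)⁻¹, 0)), ((0, 0), (Pi.single 2 (wt 2 v.2.2)⁻¹, 0)),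
    ((0, 0), (0, 1)), ((0, 0), (0, 0))] j

lemma contDiff_wtS (i : Fin 3) : ContDiff ℝ ∞ (fun v : VS => (wt i v.2.2)⁻¹) := by
  unfold wt
  have h1 : ContDiff ℝ ∞ fun v : VS => ex i * v.2.2 :=
    contDiff_const.mul (contDiff_snd.comp contDiff_snd)
  exact h1.exp.inv fun v => (Real.exp_pos _).ne'

lemma contDiff_single (i : Fin 3) :
    ContDiff ℝ ∞ (fun v : VS => (Pi.single i (wt i v.2.2)⁻¹ : Fin 3 → ℝ)) := by
  rw [contDiff_pi]
  intro j
  by_cases h : j = i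
  · subst h
    simpa using contDiff_wtS j
  · simp only [Pi.single_apply, h, if_false]
    exact contDiff_const

lemma contDiff_frV (j : Fin 7) : ContDiff ℝ ∞ (frV j) := by
  fin_cases j
  · exact contDiff_const
  · exact contDiff_const
  · exact contDiff_const.prodMk ((contDiff_single 0).prodMk contDiff_const)
  · exact contDiff_const.prodMk ((contDiff_single 1).prodMk contDiff_const)
  · exact contDiff_const.prodMk ((contDiff_single 2).prodMk contDiff_const)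
  · exact contDiff_const
  · exact contDiff_const

lemma wt_inv_sub (i : Fin 3) (t : ℝ) (m : ℤ) : (wt i (t - m))⁻¹ = rt i ^ m * (wt i t)⁻¹ := by
  have h := wt_sub i t m
  have h1 := (wt_pos i t).ne'
  have h2 := (wt_pos i (t - m)).ne'
  field_simp
  linarith

lemma smul_snd (g : GS) (v : VS) : (g • v).2.2 = v.2.2 - g.m := rfl

lemma frV_inv (j : Fin 7) (g : GS) (v : VS) : frV j (g • v) = dact g v (frV j v) := by
  rw [dact_apply]
  have key : ∀ i : Fin 3, (Pi.single i (wt i (g • v).2.2)⁻¹ : Fin 3 → ℝ) =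
      fun l => rt l ^ g.m * (Pi.single i (wt i v.2.2)⁻¹ : Fin 3 → ℝ) l := by
    intro i
    rw [smul_snd, wt_inv_sub]
    funext l
    by_cases h : l = i
    · subst h; simp
    · simp [h]
  fin_cases j
  · refine Prod.ext rfl (Prod.ext ?_ rfl); funext l; simp [frV]
  · refine Prod.ext rfl (Prod.ext ?_ rfl); funext l; simp [frV]
  · exact Prod.ext rfl (Prod.ext (key 0) rfl)
  · exact Prod.ext rfl (Prod.ext (key 1) rfl)
  · exact Prod.ext rfl (Prod.ext (key 2) rfl)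
  · refine Prod.ext rfl (Prod.ext ?_ rfl); funext l; simp [frV]
  · refine Prod.ext rfl (Prod.ext ?_ rfl); funext l; simp [frV]

/-- The frame on the hypersurface. -/
def frH (j : Fin 7) (x : Hyp) : TangentSpace 𝓘(ℝ, VS) x := descV GS (frV j) x

lemma frH_qm (j : Fin 7) (v : VS) : frH j (qm GS v) = dq GS v (frV j v) :=
  descV_qm (fun g v => frV_inv j g v) v

/-- The frame spans. -/
lemma frV_span (v u : VS) : ∃ a : Fin 7 → ℝ, u = ∑ j, a j • frV j v := by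
  have h0 := (wt_pos 0 v.2.2).ne'
  have h1 := (wt_pos 1 v.2.2).ne'
  have h2 := (wt_pos 2 v.2.2).ne'
  refine ⟨![u.1.1, u.1.2, wt 0 v.2.2 * u.2.1 0, wt 1 v.2.2 * u.2.1 1, wt 2 v.2.2 * u.2.1 2,
    u.2.2, 0], ?_⟩
  simp only [Fin.sum_univ_succ, Fin.sum_univ_zero, frV]
  refine Prod.ext (Prod.ext ?_ ?_) (Prod.ext ?_ ?_)
  · simp [Fin.succ]
  · simp [Fin.succ]
  · funext l
    fin_cases l <;> simp [Fin.succ] <;> field_simp
  · simp [Fin.succ]

/-- The frame is linearly independent (the last vector is zero). -/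
lemma frV_indep (v : VS) (a : Fin 7 → ℝ) (h : ∑ j, a j • frV j v = 0) :
    ∀ j : Fin 7, j ≠ 6 → a j = 0 := by
  have h0 := (wt_pos 0 v.2.2).ne'
  have h1 := (wt_pos 1 v.2.2).ne'
  have h2 := (wt_pos 2 v.2.2).ne'
  simp only [Fin.sum_univ_succ, Fin.sum_univ_zero, frV] at h
  have e0 := congrArg (fun u : VS => u.1.1) h
  have e1 := congrArg (fun u : VS => u.1.2) h
  have e2 := congrArg (fun u : VS => u.2.1 0) h
  have e3 := congrArg (fun u : VS => u.2.1 1) h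
  have e4 := congrArg (fun u : VS => u.2.1 2) h
  have e5 := congrArg (fun u : VS => u.2.2) h
  simp [Fin.succ, h0, h1, h2] at e0 e1 e2 e3 e4 e5
  intro j hj
  fin_cases j
  · exact e0
  · exact e1
  · exact e2
  · exact e3
  · exact e4
  · exact e5
  · exact absurd rfl hj

/-! ### The model map -/

/-- The hypotheses on the perturbation. -/
structure Pert (κ : VS → ℝ) : Prop where
  smooth : ContDiff ℝ ∞ κ
  inv : ∀ (g : GS) v, κ (g • v) = κ v
  indep : ∀ v (ψ : ℝ), κ ((v.1.1, ψ), v.2) = κ v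

/-- The model map on the cover. -/
def Fm (κ : VS → ℝ) (v : VS) : VM :=
  ((Real.exp (Real.cos v.1.2 + κ v) * Real.cos v.1.1, Real.sin v.1.2,
    Real.exp (Real.cos v.1.2 + κ v) * Real.sin v.1.1), v.2)

variable {κ : VS → ℝ}

lemma contDiff_Fm (hκ : Pert κ) : ContDiff ℝ ∞ (Fm κ) := by
  have h := hκ.smooth
  have h1 : ContDiff ℝ ∞ fun v : VS => Real.cos v.1.1 :=
    (contDiff_fst.comp contDiff_fst).cos
  have h2 : ContDiff ℝ ∞ fun v : VS => Real.sin v.1.1 :=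
    (contDiff_fst.comp contDiff_fst).sin
  have h3 : ContDiff ℝ ∞ fun v : VS => Real.cos v.1.2 :=
    (contDiff_snd.comp contDiff_fst).cos
  have h4 : ContDiff ℝ ∞ fun v : VS => Real.sin v.1.2 :=
    (contDiff_snd.comp contDiff_fst).sin
  have h5 : ContDiff ℝ ∞ fun v : VS => Real.exp (Real.cos v.1.2 + κ v) := (h3.add h).exp
  exact ((h5.mul h1).prodMk (h4.prodMk (h5.mul h2))).prodMk contDiff_snd

/-- the group element of the contact manifold -/
def gm (g : GS) : GM := ⟨(), g.n, g.m⟩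

lemma Fm_smul (hκ : Pert κ) (g : GS) (v : VS) : Fm κ (g • v) = gm g • Fm κ v := by
  rw [smulM]
  unfold Fm
  rw [hκ.inv]
  have e1 : (g • v).1.1 = v.1.1 + g.l.1 * (2 * Real.pi) := by
    rw [smul_def, tr_int]
    show v.1.1 + 2 * Real.pi * g.l.1 = _
    ring
  have e2 : (g • v).1.2 = v.1.2 + g.l.2 * (2 * Real.pi) := by
    rw [smul_def, tr_int]
    show v.1.2 + 2 * Real.pi * g.l.2 = _
    ring
  rw [e1, e2, Real.cos_add_int_mul_two_pi, Real.cos_add_int_mul_two_pi,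
    Real.sin_add_int_mul_two_pi, Real.sin_add_int_mul_two_pi]
  rfl

/-- The model hypersurface. -/
def fM (κ : VS → ℝ) : Hyp → Mfd := descM GS GM (Fm κ)

lemma fM_qm (hκ : Pert κ) (v : VS) : fM κ (qm GS v) = qm GM (Fm κ v) :=
  descM_qm (fun g v => ⟨gm g, Fm_smul hκ g v⟩) v

lemma contMDiff_fM (hκ : Pert κ) : ContMDiff 𝓘(ℝ, VS) 𝓘(ℝ, VM) ∞ (fM κ) :=
  contMDiff_descM (fun g v => ⟨gm g, Fm_smul hκ g v⟩) (contDiff_Fm hκ)

lemma mfderiv_fM (hκ : Pert κ) (v u : VS) :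
    mfderiv 𝓘(ℝ, VS) 𝓘(ℝ, VM) (fM κ) (qm GS v) (dq GS v u) =
      dq GM (Fm κ v) (fderiv ℝ (Fm κ) v u) :=
  dM_dq (fun g v => ⟨gm g, Fm_smul hκ g v⟩) (contDiff_Fm hκ) v u

/-- The derivative of the model map. -/
lemma fderiv_Fm (hκ : Pert κ) (v u : VS) : fderiv ℝ (Fm κ) v u =
    ((Real.exp (Real.cos v.1.2 + κ v) * ((-Real.sin v.1.2 * u.1.2 + fderiv ℝ κ v u) *
        Real.cos v.1.1 - Real.sin v.1.1 * u.1.1),
      Real.cos v.1.2 * u.1.2,
      Real.exp (Real.cos v.1.2 + κ v) * ((-Real.sin v.1.2 * u.1.2 + fderiv ℝ κ v u) *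
        Real.sin v.1.1 + Real.cos v.1.1 * u.1.1)), u.2) := by
  let p1 : VS →L[ℝ] ℝ := (ContinuousLinearMap.fst ℝ ℝ ℝ) ∘L (ContinuousLinearMap.fst ℝ (ℝ × ℝ) W4)
  let p2 : VS →L[ℝ] ℝ := (ContinuousLinearMap.snd ℝ ℝ ℝ) ∘L (ContinuousLinearMap.fst ℝ (ℝ × ℝ) W4)
  have hk : HasFDerivAt κ (fderiv ℝ κ v) v :=
    (hκ.smooth.differentiable (by simp) v).hasFDerivAt
  have c1 : HasFDerivAt (fun v : VS => Real.cos (p1 v)) (-Real.sin (p1 v) • p1) v :=
    p1.hasFDerivAt.cos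
  have s1 : HasFDerivAt (fun v : VS => Real.sin (p1 v)) (Real.cos (p1 v) • p1) v :=
    p1.hasFDerivAt.sin
  have c2 : HasFDerivAt (fun v : VS => Real.cos (p2 v)) (-Real.sin (p2 v) • p2) v :=
    p2.hasFDerivAt.cos
  have s2 : HasFDerivAt (fun v : VS => Real.sin (p2 v)) (Real.cos (p2 v) • p2) v :=
    p2.hasFDerivAt.sin
  have e : HasFDerivAt (fun v : VS => Real.exp (Real.cos (p2 v) + κ v))
      (Real.exp (Real.cos (p2 v) + κ v) • (-Real.sin (p2 v) • p2 + fderiv ℝ κ v)) v :=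
    (c2.add hk).exp
  have h := ((e.mul c1).prodMk (s2.prodMk (e.mul s1))).prodMk
    (hasFDerivAt_snd (𝕜 := ℝ) (p := v))
  have h' : HasFDerivAt (Fm κ) _ v := h
  rw [h'.fderiv]
  refine Prod.ext (Prod.ext ?_ (Prod.ext ?_ ?_)) rfl
  · show Real.exp (Real.cos v.1.2 + κ v) * (-Real.sin v.1.1 * u.1.1) +
      Real.cos v.1.1 * (Real.exp (Real.cos v.1.2 + κ v) *
        (-Real.sin v.1.2 * u.1.2 + fderiv ℝ κ v u)) = _
    simp only
    ring
  · rfl
  · show Real.exp (Real.cos v.1.2 + κ v) * (Real.cos v.1.1 * u.1.1) +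
      Real.sin v.1.1 * (Real.exp (Real.cos v.1.2 + κ v) *
        (-Real.sin v.1.2 * u.1.2 + fderiv ℝ κ v u)) = _
    simp only
    ring

/-- The one-jet of the perturbation. -/
def qv (κ : VS → ℝ) (v : VS) : Fin 6 → ℝ :=
  ![κ v, fderiv ℝ κ v (frV 0 v), fderiv ℝ κ v (frV 2 v), fderiv ℝ κ v (frV 3 v),
    fderiv ℝ κ v (frV 4 v), fderiv ℝ κ v (frV 5 v)]

lemma fderiv_psi (hκ : Pert κ) (v : VS) : fderiv ℝ κ v (frV 1 v) = 0 := by
  have hk : HasFDerivAt κ (fderiv ℝ κ v) v :=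
    (hκ.smooth.differentiable (by simp) v).hasFDerivAt
  have h1 : HasDerivAt (fun t : ℝ => (((v.1.1, t), v.2) : VS)) (frV 1 v) v.1.2 :=
    ((hasDerivAt_const _ _).prodMk (hasDerivAt_id _)).prodMk (hasDerivAt_const _ _)
  have h2 : HasDerivAt (fun t : ℝ => κ (((v.1.1, t), v.2) : VS)) (fderiv ℝ κ v (frV 1 v)) v.1.2 :=
    HasFDerivAt.comp_hasDerivAt (v.1.2) (hk : HasFDerivAt κ (fderiv ℝ κ v) ((v.1.1, v.1.2), v.2)) h1
  have h3 : (fun t : ℝ => κ (((v.1.1, t), v.2) : VS)) = fun _ => κ v := by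
    funext t; exact hκ.indep v t
  rw [h3] at h2
  exact h2.unique (hasDerivAt_const _ _)

/-- The coordinates of the images of the frame. -/
lemma cofV_Fm (hκ : Pert κ) (v : VS) (a j : Fin 7) :
    cofV j (Fm κ v) (fderiv ℝ (Fm κ) v (frV a v)) = Df v.1.1 v.1.2 (qv κ v) a j := by
  have hp := fderiv_psi hκ v
  have h0 := (wt_pos 0 v.2.2).ne'
  have h1 := (wt_pos 1 v.2.2).ne'
  have h2 := (wt_pos 2 v.2.2).ne'
  have h6 : fderiv ℝ κ v (frV 6 v) = 0 := by
    have : frV 6 v = 0 := rfl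
    rw [this, map_zero]
  rw [fderiv_Fm hκ]
  fin_cases a
  · fin_cases j <;> simp [cofV, thV, Df, qv, frV]
  · fin_cases j <;> simp [cofV, thV, Df, qv, frV] at hp ⊢ <;> rw [hp] <;> ring
  · fin_cases j <;> simp [cofV, thV, Df, qv, frV, h0, Fm, mul_assoc]
  · fin_cases j <;> simp [cofV, thV, Df, qv, frV, h1, Fm, mul_assoc]
  · fin_cases j <;> simp [cofV, thV, Df, qv, frV, h2, Fm, mul_assoc]
  · fin_cases j <;> simp [cofV, thV, Df, qv, frV, mul_assoc]
  · fin_cases j <;> simp [cofV, thV, Df, qv, frV] at h6 ⊢ <;> simp [h6]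

end Pool.Agent.Y521
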