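import Mathlib
import Pool.Agent.Y521.Emb
import Pool.Agent.Y521.Defs

/-!
# The model map is an embedding, and the contact form is contact
-/

open scoped Topology ContDiff Manifold Matrix
open Set Pool.Agent.W630 Pool.Agent.Helper186

noncomputable section

namespace Pool.Agent.Y521

variable {κ : VS → ℝ}

lemma exists_int_of_cos_sin {a b : ℝ} (hc : Real.cos a = Real.cos b)
    (hs : Real.sin a = Real.sin b) : ∃ k : ℤ, a = b + 2 * Real.pi * k := by
  have h := Real.Angle.cos_sin_inj hc hs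
  obtain ⟨k, hk⟩ := Real.Angle.angle_eq_iff_two_pi_dvd_sub.1 h
  exact ⟨k, by linarith⟩

/-- Points of the cover with the same last coordinates and the same `(r, s, η)`. -/
lemma exists_shift (hκ : Pert κ) {v w : VS} (h2 : v.2 = w.2) (h1 : (Fm κ v).1 = (Fm κ w).1) :
    ∃ g : GS, v = g • w := by
  unfold Fm at h1
  have e1 : Real.exp (Real.cos v.1.2 + κ v) * Real.cos v.1.1 =
    Real.exp (Real.cos w.1.2 + κ w) * Real.cos w.1.1 := congrArg (fun z : ℝ × ℝ × ℝ => z.1) h1
  have e2 : Real.sin v.1.2 = Real.sin w.1.2 := congrArg (fun z : ℝ × ℝ × ℝ => z.2.1) h1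
  have e3 : Real.exp (Real.cos v.1.2 + κ v) * Real.sin v.1.1 =
    Real.exp (Real.cos w.1.2 + κ w) * Real.sin w.1.1 := congrArg (fun z : ℝ × ℝ × ℝ => z.2.2) h1
  set A := Real.exp (Real.cos v.1.2 + κ v) with hA
  set B := Real.exp (Real.cos w.1.2 + κ w) with hB
  have hApos : 0 < A := Real.exp_pos _
  have hBpos : 0 < B := Real.exp_pos _
  have hAB : A = B := by
    have h3 : A ^ 2 = B ^ 2 := by
      have t1 := Real.sin_sq_add_cos_sq v.1.1
      have t2 := Real.sin_sq_add_cos_sq w.1.1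
      calc A ^ 2 = (A * Real.cos v.1.1) ^ 2 + (A * Real.sin v.1.1) ^ 2 := by
            linear_combination (-A ^ 2) * t1
        _ = (B * Real.cos w.1.1) ^ 2 + (B * Real.sin w.1.1) ^ 2 := by rw [e1, e3]
        _ = B ^ 2 := by linear_combination (B ^ 2) * t2
    nlinarith
  have c1 : Real.cos v.1.1 = Real.cos w.1.1 := by
    rw [hAB] at e1; exact mul_left_cancel₀ hBpos.ne' e1
  have s1 : Real.sin v.1.1 = Real.sin w.1.1 := by
    rw [hAB] at e3; exact mul_left_cancel₀ hBpos.ne' e3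
  obtain ⟨k, hk⟩ := exists_int_of_cos_sin c1 s1
  have hκe : κ v = κ w := by
    have h4 : κ v = κ ((v.1.1, w.1.2), v.2) := (hκ.indep v w.1.2).symm
    have h5 : (((v.1.1, w.1.2), v.2) : VS) = (⟨(k, 0), 0, 0⟩ : GS) • w := by
      rw [smul_def, tr_int, h2, hk]
      refine Prod.ext (Prod.ext ?_ ?_) ?_
      · rfl
      · simp
      · exact (actW_one w.2).symm
    rw [h4, h5, hκ.inv]
  have c2 : Real.cos v.1.2 = Real.cos w.1.2 := by
    have := Real.exp_injective (hA.symm.trans (hAB.trans hB))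
    linarith
  obtain ⟨l, hl⟩ := exists_int_of_cos_sin c2 e2
  refine ⟨⟨(k, l), 0, 0⟩, ?_⟩
  rw [smul_def, tr_int]
  refine Prod.ext (Prod.ext hk hl) ?_
  rw [h2]
  exact (actW_one w.2).symm

lemma injective_fM (hκ : Pert κ) : Function.Injective (fM κ) := by
  intro x y h
  obtain ⟨v, rfl⟩ := qm_surj x
  obtain ⟨w, rfl⟩ := qm_surj y
  rw [fM_qm hκ, fM_qm hκ] at h
  obtain ⟨g, hg⟩ := qm_eq_iff.1 h
  let g' : GS := ⟨(0, 0), g.n, g.m⟩
  have h1 : gm g' = g := rfl
  rw [← h1, ← Fm_smul hκ] at hg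
  have h2 : v.2 = (g' • w).2 := congrArg (fun z : VM => z.2) hg
  obtain ⟨g'', hg''⟩ := exists_shift hκ h2 (congrArg (fun z : VM => z.1) hg)
  rw [hg'', qm_smul, qm_smul]

lemma fderiv_Fm_inj (hκ : Pert κ) (v u : VS) (h : fderiv ℝ (Fm κ) v u = 0) : u = 0 := by
  rw [fderiv_Fm hκ] at h
  have e4 : u.2 = 0 := congrArg Prod.snd h
  have e1 := congrArg (fun z : VM => z.1.1) h
  have e2 := congrArg (fun z : VM => z.1.2.1) h
  have e3 := congrArg (fun z : VM => z.1.2.2) h
  simp only [Prod.fst_zero, Prod.snd_zero] at e1 e2 e3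
  have hE := (Real.exp_pos (Real.cos v.1.2 + κ v)).ne'
  have f1 := (mul_eq_zero.1 e1).resolve_left hE
  have f3 := (mul_eq_zero.1 e3).resolve_left hE
  have t1 := Real.sin_sq_add_cos_sq v.1.1
  set d := -Real.sin v.1.2 * u.1.2 + fderiv ℝ κ v u with hd
  have g1 : u.1.1 = 0 := by
    linear_combination (-Real.sin v.1.1) * f1 + (Real.cos v.1.1) * f3 - u.1.1 * t1
  have g2 : d = 0 := by
    linear_combination (Real.cos v.1.1) * f1 + (Real.sin v.1.1) * f3 - d * t1
  have hu : u = u.1.2 • frV 1 v := by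
    refine Prod.ext (Prod.ext ?_ ?_) ?_
    · simp [frV, g1]
    · simp [frV]
    · rw [e4]; simp [frV]; rfl
  have g3 : fderiv ℝ κ v u = 0 := by
    rw [hu, map_smul, fderiv_psi hκ, smul_zero]
  rw [g3, add_zero] at hd
  have t2 := Real.sin_sq_add_cos_sq v.1.2
  have g4 : Real.sin v.1.2 * u.1.2 = 0 := by rw [g2] at hd; linarith
  have g5 : u.1.2 = 0 := by
    linear_combination (Real.sin v.1.2) * g4 + (Real.cos v.1.2) * e2 - u.1.2 * t2
  exact Prod.ext (Prod.ext g1 g5) e4

/-- The model map is an embedding. -/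
theorem isEmb_fM (hκ : Pert κ) : IsEmb VS VM (fM κ) where
  smooth := contMDiff_fM hκ
  injective := injective_fM hκ
  immersion := by
    intro p
    obtain ⟨v, rfl⟩ := qm_surj p
    have key : ∀ u : TangentSpace 𝓘(ℝ, VS) (qm GS v),
        mfderiv 𝓘(ℝ, VS) 𝓘(ℝ, VM) (fM κ) (qm GS v) u = 0 → u = 0 := by
      intro u hu
      obtain ⟨u', rfl⟩ := dq_surjective (G := GS) v u
      rw [mfderiv_fM hκ] at hu
      have h1 : fderiv ℝ (Fm κ) v u' = 0 :=
        dq_injective (G := GM) (Fm κ v) (hu.trans (map_zero (dq GM (Fm κ v))).symm)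
      rw [fderiv_Fm_inj hκ v u' h1]
      exact map_zero (dq GS v)
    intro a b hab
    have := key (a - b) (by rw [map_sub, hab, sub_self])
    exact sub_eq_zero.1 this

/-- The contact form is a contact form. -/
theorem isContactForm_alM : IsContactForm alM where
  smooth := smooth_alM
  ne_zero := by
    intro x
    obtain ⟨u, hu⟩ := exists_cofM x ![0, 0, 1, 0, 0, 0, 0]
    refine ⟨u, ?_⟩
    rw [alM_eq, hu]
    simp [bet]
  nondeg := by
    intro x u h1 h2
    apply cofM_zero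
    rw [alM_eq] at h1
    refine omg_nondeg h1 fun b hb => ?_
    obtain ⟨w, hw⟩ := exists_cofM x b
    have h3 := h2 w (by rw [alM_eq, hw]; exact hb)
    rw [dd_alM, hw] at h3
    exact h3

end Pool.Agent.Y521
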