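import Mathlib
import Pool.Agent.Y521.Spc

/-!
# An invariant function on `ℝ³ × ℝ`
-/

open scoped Topology ContDiff Manifold Matrix
open Set Pool.Agent.W630

noncomputable section

namespace Pool.Agent.Y521

/-- A bump function on the line, `1` near zero and `0` away from `(-1/4, 1/4)`. -/
def bmp (t : ℝ) : ℝ := Real.smoothTransition (2 - 64 * t ^ 2 / 4)

lemma contDiff_bmp : ContDiff ℝ ∞ bmp := by
  unfold bmp
  exact Real.smoothTransition.contDiff.comp (by fun_prop)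

lemma bmp_zero {t : ℝ} (h : 3 / 8 ≤ |t|) : bmp t = 0 := by
  unfold bmp
  apply Real.smoothTransition.zero_of_nonpos
  have : (3 / 8) ^ 2 ≤ t ^ 2 := by
    rw [← sq_abs t]
    gcongr
  nlinarith

lemma bmp_one {t : ℝ} (h : |t| ≤ 1 / 4) : bmp t = 1 := by
  unfold bmp
  apply Real.smoothTransition.one_of_one_le
  have : t ^ 2 ≤ (1 / 4) ^ 2 := by
    rw [← sq_abs t]
    have := abs_nonneg t
    gcongr
  nlinarith

/-- the first lattice coordinate of a vector scaled by the `m`-th powers of the roots -/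
def lc (m : ℤ) (ξ : Fin 3 → ℝ) : ℝ := Le.symm (fun i => rt i ^ m * ξ i) 0

lemma contDiff_lc (m : ℤ) : ContDiff ℝ ∞ (lc m) := by
  have h1 : ContDiff ℝ ∞ fun ξ : Fin 3 → ℝ => (fun i => rt i ^ m * ξ i) := by fun_prop
  have h2 : ContDiff ℝ ∞ fun ξ : Fin 3 → ℝ => Le.symm (fun i => rt i ^ m * ξ i) :=
    Le.symm.contDiff.comp h1
  exact (contDiff_pi.1 h2) 0

/-- The invariant function. -/
def kf (y : W4) : ℝ := bmp (y.2 - round y.2) * Real.cos (2 * Real.pi * lc (round y.2) y.1)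

lemma kf_inv (n : Fin 3 → ℤ) (m : ℤ) (y : W4) : kf (actW n m y) = kf y := by
  unfold kf actW
  simp only
  have h1 : round (y.2 - (m : ℝ)) = round y.2 - m := round_sub_intCast _ _
  rw [h1]
  have h2 : y.2 - (m : ℝ) - ((round y.2 - m : ℤ) : ℝ) = y.2 - round y.2 := by push_cast; ring
  rw [h2]
  congr 1
  set M := round y.2
  have h3 : (fun i => rt i ^ (M - m) * (rt i ^ m * y.1 i + Ln n i)) =
      (fun i => rt i ^ M * y.1 i) + Ln ((pw (M - m)).1 *ᵥ n) := by
    funext i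
    rw [Pi.add_apply, Ln_pw, mul_add, ← mul_assoc, ← zpow_add₀ (rt_ne i)]
    congr 3
    ring
  have h4 : lc (M - m) (fun i => rt i ^ m * y.1 i + Ln n i) =
      lc M y.1 + (((pw (M - m)).1 *ᵥ n) 0 : ℤ) := by
    unfold lc
    rw [h3, map_add, Pi.add_apply]
    congr 1
    have : Ln ((pw (M - m)).1 *ᵥ n) = Le (fun i => ((((pw (M - m)).1 *ᵥ n) i : ℤ) : ℝ)) := rfl
    rw [this, Le.symm_apply_apply]
  rw [h4]
  have h5 : 2 * Real.pi * (lc M y.1 + (((pw (M - m)).1 *ᵥ n) 0 : ℤ)) =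
      2 * Real.pi * lc M y.1 + (((pw (M - m)).1 *ᵥ n) 0 : ℤ) * (2 * Real.pi) := by ring
  rw [h5, Real.cos_add_int_mul_two_pi]

lemma kf_local {t₀ : ℝ} {M : ℤ} (h : |t₀ - M| < 1 / 2) (ξ : Fin 3 → ℝ) :
    kf =ᶠ[𝓝 (ξ, t₀)] fun y : W4 => bmp (y.2 - M) * Real.cos (2 * Real.pi * lc M y.1) := by
  have h1 : ∀ᶠ y : W4 in 𝓝 (ξ, t₀), |y.2 - M| < 1 / 2 := by
    have hc : Continuous fun y : W4 => |y.2 - M| := by fun_prop
    exact (hc.tendsto (ξ, t₀)).eventually_lt_const h
  filter_upwards [h1] with y hy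
  have : round y.2 = M := by
    rw [round_eq_iff]
    rw [abs_lt] at hy
    constructor <;> linarith
  unfold kf
  rw [this]

lemma contDiff_kf : ContDiff ℝ ∞ kf := by
  rw [contDiff_iff_contDiffAt]
  rintro ⟨ξ, t₀⟩
  have hr : |t₀ - round t₀| ≤ 1 / 2 := abs_sub_round t₀
  rcases hr.lt_or_eq with h | h
  · refine ContDiffAt.congr_of_eventuallyEq ?_ (kf_local h ξ)
    have h1 : ContDiff ℝ ∞ fun y : W4 => bmp (y.2 - round t₀) :=
      contDiff_bmp.comp (by fun_prop)
    have h2 : ContDiff ℝ ∞ fun y : W4 => Real.cos (2 * Real.pi * lc (round t₀) y.1) :=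
      (contDiff_const.mul ((contDiff_lc _).comp contDiff_fst)).cos
    exact (h1.mul h2).contDiffAt
  · have h1 : ∀ᶠ y : W4 in 𝓝 (ξ, t₀), |y.2 - t₀| < 1 / 8 := by
      have hc : Continuous fun y : W4 => |y.2 - t₀| := by fun_prop
      exact (hc.tendsto (ξ, t₀)).eventually_lt_const (by simp)
    have h2 : kf =ᶠ[𝓝 (ξ, t₀)] fun _ => 0 := by
      filter_upwards [h1] with y hy
      unfold kf
      rw [bmp_zero, zero_mul]
      -- the distance to the nearest integer is `1`-Lipschitz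
      have h3 : |t₀ - round t₀| ≤ |t₀ - round y.2| := round_le t₀ (round y.2)
      have h4 : |t₀ - round y.2| ≤ |y.2 - t₀| + |y.2 - round y.2| := by
        have : t₀ - round y.2 = -(y.2 - t₀) + (y.2 - round y.2) := by ring
        rw [this]
        refine (abs_add_le _ _).trans ?_
        rw [abs_neg]
      linarith
    exact contDiffAt_const.congr_of_eventuallyEq h2

/-- the basis vector `e₂` has nonzero first lattice coordinate -/
lemma lc_e2 : Le.symm (Pi.single 2 1) 0 ≠ 0 := by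
  intro h
  set x := Le.symm (Pi.single 2 (1 : ℝ)) with hx
  have h1 : Lm x = Pi.single 2 1 := by
    rw [← Le_apply, hx, Le.apply_symm_apply]
  have e0 : x 0 + x 1 * rt 0 + x 2 * rt 0 ^ 2 = 0 := by
    have := congrFun h1 0
    simpa [Lm] using this
  have e1 : x 0 + x 1 * rt 1 + x 2 * rt 1 ^ 2 = 0 := by
    have := congrFun h1 1
    simpa [Lm] using this
  have e2 : x 0 + x 1 * rt 2 + x 2 * rt 2 ^ 2 = 1 := by
    have := congrFun h1 2
    simpa [Lm] using this
  rw [h] at e0 e1 e2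
  have f0 : x 1 + x 2 * rt 0 = 0 := by
    have : rt 0 * (x 1 + x 2 * rt 0) = 0 := by linear_combination e0
    exact (mul_eq_zero.1 this).resolve_left (rt_ne 0)
  have f1 : x 1 + x 2 * rt 1 = 0 := by
    have : rt 1 * (x 1 + x 2 * rt 1) = 0 := by linear_combination e1
    exact (mul_eq_zero.1 this).resolve_left (rt_ne 1)
  have d01 : rt 1 - rt 0 ≠ 0 := by
    have := rt0_mem.2; have := rt1_mem.1; exact (by linarith : (0:ℝ) < rt 1 - rt 0).ne'
  have g2 : x 2 = 0 := by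
    have : (rt 1 - rt 0) * x 2 = 0 := by linear_combination f1 - f0
    exact (mul_eq_zero.1 this).resolve_left d01
  rw [g2] at f0 e2
  have g1 : x 1 = 0 := by linarith
  rw [g1] at e2
  norm_num at e2

/-- The derivative of the invariant function in the direction `e₂` at time zero. -/
lemma fderiv_kf (ξ : Fin 3 → ℝ) : fderiv ℝ kf (ξ, 0) (Pi.single 2 1, 0) =
    -(Real.sin (2 * Real.pi * Le.symm ξ 0)) * (2 * Real.pi * Le.symm (Pi.single 2 1) 0) := by
  let ℓ : W4 →L[ℝ] ℝ := (ContinuousLinearMap.proj 0) ∘L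
    (Le.symm : (Fin 3 → ℝ) →L[ℝ] (Fin 3 → ℝ)) ∘L (ContinuousLinearMap.fst ℝ (Fin 3 → ℝ) ℝ)
  have h1 : kf =ᶠ[𝓝 (ξ, 0)] fun y : W4 => Real.cos (2 * Real.pi * ℓ y) := by
    have h2 := kf_local (t₀ := 0) (M := 0) (by simp) ξ
    have h3 : ∀ᶠ y : W4 in 𝓝 (ξ, 0), |y.2| < 1 / 4 := by
      have hc : Continuous fun y : W4 => |y.2| := by fun_prop
      exact (hc.tendsto (ξ, 0)).eventually_lt_const (by simp)
    filter_upwards [h2, h3] with y hy hy'
    rw [hy, Int.cast_zero, sub_zero, bmp_one hy'.le, one_mul]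
    congr 2
    unfold lc
    simp only [zpow_zero, one_mul]
    rfl
  rw [h1.fderiv_eq]
  have h4 : HasFDerivAt (fun y : W4 => Real.cos (2 * Real.pi * ℓ y))
      (-(Real.sin (2 * Real.pi * ℓ (ξ, 0))) • ((2 * Real.pi) • ℓ)) (ξ, 0) :=
    (ℓ.hasFDerivAt.const_mul (2 * Real.pi)).cos
  rw [h4.fderiv]
  rfl

/-- The invariant function is decreasing at one point and increasing at another one, in the
direction `e₂`. -/
lemma exists_kf : ∃ ξa ξb : Fin 3 → ℝ, fderiv ℝ kf (ξa, 0) (Pi.single 2 1, 0) < 0 ∧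
    0 < fderiv ℝ kf (ξb, 0) (Pi.single 2 1, 0) := by
  have hpi := Real.pi_pos
  have h1 : ∀ c : ℝ, fderiv ℝ kf (Le (fun _ => c), 0) (Pi.single 2 1, 0) =
      -(Real.sin (2 * Real.pi * c)) * (2 * Real.pi * Le.symm (Pi.single 2 1) 0) := by
    intro c
    rw [fderiv_kf, Le.symm_apply_apply]
  have e1 : Real.sin (2 * Real.pi * (1 / 4)) = 1 := by
    rw [show 2 * Real.pi * (1 / 4) = Real.pi / 2 by ring, Real.sin_pi_div_two]
  have e2 : Real.sin (2 * Real.pi * (-(1 / 4))) = -1 := by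
    rw [show 2 * Real.pi * (-(1 / 4)) = -(Real.pi / 2) by ring, Real.sin_neg,
      Real.sin_pi_div_two]
  rcases lt_or_gt_of_ne lc_e2 with h | h
  · refine ⟨Le (fun _ => -(1 / 4)), Le (fun _ => 1 / 4), ?_, ?_⟩
    · rw [h1, e2]
      have := mul_neg_of_pos_of_neg (by positivity : (0:ℝ) < 2 * Real.pi) h
      linarith
    · rw [h1, e1]
      have := mul_neg_of_pos_of_neg (by positivity : (0:ℝ) < 2 * Real.pi) h
      linarith
  · refine ⟨Le (fun _ => 1 / 4), Le (fun _ => -(1 / 4)), ?_, ?_⟩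
    · rw [h1, e1]
      have := mul_pos (by positivity : (0:ℝ) < 2 * Real.pi) h
      linarith
    · rw [h1, e2]
      have := mul_pos (by positivity : (0:ℝ) < 2 * Real.pi) h
      linarith

end Pool.Agent.Y521
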