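import Mathlib
import Pool.Agent.Y521.Kck
import Pool.Agent.Y521.Emb2

/-!
# The perturbation
-/

open scoped Topology ContDiff Manifold Matrix
open Set Pool.Agent.W630 Pool.Agent.Helper186 Metric

noncomputable section

namespace Pool.Agent.Y521

/-- The cut-off in the angle. -/
def chi (w φ : ℝ) : ℝ :=
  Real.smoothTransition ((Real.cos φ - Real.cos (2 * w)) / (Real.cos w - Real.cos (2 * w)))

lemma contDiff_chi (w : ℝ) : ContDiff ℝ ∞ (chi w) := by
  unfold chi
  exact Real.smoothTransition.contDiff.comp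
    ((Real.contDiff_cos.sub contDiff_const).div_const _)

lemma chi_nonneg (w φ : ℝ) : 0 ≤ chi w φ := Real.smoothTransition.nonneg _

lemma chi_periodic (w φ : ℝ) (k : ℤ) : chi w (φ + k * (2 * Real.pi)) = chi w φ := by
  unfold chi
  rw [Real.cos_add_int_mul_two_pi]

lemma cos_gap {w : ℝ} (hw : 0 < w) (hw' : 2 * w ≤ Real.pi / 2) :
    0 < Real.cos w - Real.cos (2 * w) := by
  have hpi := Real.pi_pos
  have := Real.cos_lt_cos_of_nonneg_of_le_pi_div_two (x := w) (y := 2 * w) hw.le hw' (by linarith)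
  linarith

lemma chi_one {w φ : ℝ} (hw : 0 < w) (hw' : 2 * w ≤ Real.pi / 2) (h : |φ| ≤ w) : chi w φ = 1 := by
  unfold chi
  apply Real.smoothTransition.one_of_one_le
  have hpi := Real.pi_pos
  have hg := cos_gap hw hw'
  rw [le_div_iff₀ hg, one_mul]
  have : Real.cos w ≤ Real.cos φ := by
    rw [← Real.cos_abs φ]
    exact Real.cos_le_cos_of_nonneg_of_le_pi (abs_nonneg φ) (by linarith) h
  linarith

lemma chi_zero {w φ : ℝ} (hw : 0 < w) (hw' : 2 * w ≤ Real.pi / 2) (h : 2 * w ≤ |φ|)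
    (h' : |φ| ≤ Real.pi) : chi w φ = 0 := by
  unfold chi
  apply Real.smoothTransition.zero_of_nonpos
  have hg := cos_gap hw hw'
  apply div_nonpos_of_nonpos_of_nonneg _ hg.le
  have : Real.cos φ ≤ Real.cos (2 * w) := by
    rw [← Real.cos_abs φ]
    exact Real.cos_le_cos_of_nonneg_of_le_pi (by linarith) h' h
  linarith

/-- The unscaled perturbation. -/
def K1 (w : ℝ) (v : VS) : ℝ := chi w v.1.1 * kf v.2

/-- The perturbation. -/
def kap (w c : ℝ) (v : VS) : ℝ := c * K1 w v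

lemma contDiff_K1 (w : ℝ) : ContDiff ℝ ∞ (K1 w) :=
  ((contDiff_chi w).comp (contDiff_fst.comp contDiff_fst)).mul (contDiff_kf.comp contDiff_snd)

lemma K1_inv (w : ℝ) (g : GS) (v : VS) : K1 w (g • v) = K1 w v := by
  unfold K1
  have e1 : (g • v).1.1 = v.1.1 + g.l.1 * (2 * Real.pi) := by
    rw [smul_def, tr_int]
    show v.1.1 + 2 * Real.pi * g.l.1 = _
    ring
  rw [e1, chi_periodic]
  show _ * kf (actW g.n g.m v.2) = _
  rw [kf_inv]

lemma pert_K1 (w : ℝ) : Pert (K1 w) where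
  smooth := contDiff_K1 w
  inv := K1_inv w
  indep _ _ := rfl

lemma pert_kap (w c : ℝ) : Pert (kap w c) where
  smooth := contDiff_const.mul (contDiff_K1 w)
  inv g v := by unfold kap; rw [K1_inv]
  indep _ _ := rfl

variable {κ : VS → ℝ}

lemma fderiv_inv (hκ : Pert κ) (g : GS) (v u : VS) :
    fderiv ℝ κ (g • v) (dact g v u) = fderiv ℝ κ v u := by
  have h1 : HasFDerivAt κ (fderiv ℝ κ (g • v)) (g • v) :=
    (hκ.smooth.differentiable (by simp) _).hasFDerivAt
  have h2 : HasFDerivAt (fun w : VS => g • w) (dact g v) v :=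
    ((SmoothAct.smooth g).differentiable (by simp) v).hasFDerivAt
  have h3 := h1.comp v h2
  have h4 : (κ ∘ fun w : VS => g • w) = κ := by funext w; exact hκ.inv g w
  rw [h4] at h3
  rw [h3.fderiv]
  rfl

lemma qv_inv (hκ : Pert κ) (g : GS) (v : VS) : qv κ (g • v) = qv κ v := by
  unfold qv
  simp only [hκ.inv, frV_inv, fderiv_inv hκ]

lemma continuous_qv (hκ : Pert κ) : Continuous (qv κ) := by
  have h1 : Continuous (fderiv ℝ κ) := hκ.smooth.continuous_fderiv (by simp)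
  have h2 : ∀ j, Continuous fun v => fderiv ℝ κ v (frV j v) := fun j =>
    h1.clm_apply (contDiff_frV j).continuous
  refine continuous_pi fun j => ?_
  fin_cases j
  · exact hκ.smooth.continuous
  · exact h2 0
  · exact h2 2
  · exact h2 3
  · exact h2 4
  · exact h2 5

lemma bdd_qv (hκ : Pert κ) : ∃ C, 0 < C ∧ ∀ v, ‖qv κ v‖ ≤ C := by
  obtain ⟨C, hC⟩ := isCompact_KS.exists_bound_of_continuousOn (continuous_qv hκ).continuousOn
  refine ⟨max C 1, by positivity, fun v => ?_⟩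
  obtain ⟨g, hg⟩ := exists_smul_mem_KS v
  rw [← qv_inv hκ g v]
  exact (hC _ hg).trans (le_max_left _ _)

lemma qv_kap (w c : ℝ) (v : VS) : qv (kap w c) v = c • qv (K1 w) v := by
  have h : ∀ u, fderiv ℝ (kap w c) v u = c * fderiv ℝ (K1 w) v u := by
    intro u
    have h1 : HasFDerivAt (K1 w) (fderiv ℝ (K1 w) v) v :=
      ((contDiff_K1 w).differentiable (by simp) v).hasFDerivAt
    have h2 : HasFDerivAt (kap w c) (c • fderiv ℝ (K1 w) v) v := h1.const_mul c
    rw [h2.fderiv]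
    rfl
  funext j
  unfold qv
  simp only [h]
  fin_cases j <;> simp [kap]

/-- The derivative of the invariant function in the third direction. -/
def ek (y : W4) : ℝ := fderiv ℝ kf y (Pi.single 2 (wt 2 y.2)⁻¹, 0)

lemma continuous_ek : Continuous ek := by
  have h1 : Continuous (fderiv ℝ kf) := contDiff_kf.continuous_fderiv (by simp)
  have h2 : Continuous fun y : W4 => ((Pi.single 2 (wt 2 y.2)⁻¹, 0) : W4) := by
    have : Continuous fun y : W4 => (frV 4 (((0, 0), y) : VS)).2 :=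
      continuous_snd.comp ((contDiff_frV 4).continuous.comp (by fun_prop))
    exact this
  exact h1.clm_apply h2

lemma qv_K1_four (w : ℝ) (v : VS) : qv (K1 w) v 4 = chi w v.1.1 * ek v.2 := by
  show fderiv ℝ (K1 w) v (frV 4 v) = _
  have hf : HasFDerivAt (fun v : VS => v.1.1) ((ContinuousLinearMap.fst ℝ ℝ ℝ) ∘L
      (ContinuousLinearMap.fst ℝ (ℝ × ℝ) W4)) v :=
    (hasFDerivAt_fst (𝕜 := ℝ) (p := v.1)).comp v (hasFDerivAt_fst (𝕜 := ℝ) (p := v))
  have h1 : HasFDerivAt (fun v : VS => chi w v.1.1) ((fderiv ℝ (chi w) v.1.1) ∘L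
      ((ContinuousLinearMap.fst ℝ ℝ ℝ) ∘L (ContinuousLinearMap.fst ℝ (ℝ × ℝ) W4))) v :=
    HasFDerivAt.comp (g := chi w) (f := fun v : VS => v.1.1) v
      ((contDiff_chi w).differentiable (by simp) v.1.1).hasFDerivAt hf
  have h2 : HasFDerivAt (fun v : VS => kf v.2) ((fderiv ℝ kf v.2) ∘L
      (ContinuousLinearMap.snd ℝ (ℝ × ℝ) W4)) v :=
    HasFDerivAt.comp (g := kf) (f := fun v : VS => v.2) v
      (contDiff_kf.differentiable (by simp) v.2).hasFDerivAt (hasFDerivAt_snd (𝕜 := ℝ) (p := v))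
  have h3 : HasFDerivAt (K1 w) _ v := h1.mul h2
  rw [h3.fderiv]
  show chi w v.1.1 * fderiv ℝ kf v.2 (frV 4 v).2 + kf v.2 * fderiv ℝ (chi w) v.1.1 (frV 4 v).1.1 = _
  have h4 : (frV 4 v).1.1 = 0 := rfl
  rw [h4, map_zero, mul_zero, add_zero]
  rfl

lemma exists_ek : ∃ ya yb : W4, ∃ r > 0, ∃ k > 0, (∀ y, ‖y - ya‖ ≤ r → ek y ≤ -k) ∧
    (∀ y, ‖y - yb‖ ≤ r → k ≤ ek y) := by
  obtain ⟨ξa, ξb, ha, hb⟩ := exists_kf
  have h0 : (wt 2 0)⁻¹ = 1 := by unfold wt; simp
  have ha' : ek (ξa, 0) < 0 := by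
    show fderiv ℝ kf (ξa, 0) (Pi.single 2 (wt 2 0)⁻¹, 0) < 0
    rw [h0]; exact ha
  have hb' : 0 < ek (ξb, 0) := by
    show 0 < fderiv ℝ kf (ξb, 0) (Pi.single 2 (wt 2 0)⁻¹, 0)
    rw [h0]; exact hb
  set ka := -ek (ξa, 0) / 2 with hka
  set kb := ek (ξb, 0) / 2 with hkb
  have h1 : ∀ᶠ y in 𝓝 (ξa, 0), ek y < -ka :=
    (continuous_ek.tendsto (ξa, 0)).eventually_lt_const (by linarith)
  have h2 : ∀ᶠ y in 𝓝 (ξb, 0), kb < ek y :=
    (continuous_ek.tendsto (ξb, 0)).eventually_const_lt (by linarith)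
  obtain ⟨ε1, hε1, h3⟩ := Metric.eventually_nhds_iff.1 h1
  obtain ⟨ε2, hε2, h4⟩ := Metric.eventually_nhds_iff.1 h2
  refine ⟨(ξa, 0), (ξb, 0), min ε1 ε2 / 2, by positivity, min ka kb, ?_, ?_, ?_⟩
  · apply lt_min <;> linarith
  · intro y hy
    have h5 : min ε1 ε2 ≤ ε1 := min_le_left _ _
    have h6 : 0 < min ε1 ε2 := by positivity
    have h7 := h3 (y := y) (by rw [dist_eq_norm]; linarith)
    have h8 : min ka kb ≤ ka := min_le_left _ _
    linarith
  · intro y hy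
    have h5 : min ε1 ε2 ≤ ε2 := min_le_right _ _
    have h6 : 0 < min ε1 ε2 := by positivity
    have h7 := h4 (y := y) (by rw [dist_eq_norm]; linarith)
    have h8 : min ka kb ≤ kb := min_le_right _ _
    linarith

end Pool.Agent.Y521
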