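import Mathlib
import Pool.Agent.Y521.Prt
import Pool.Agent.Y521.Mdl2
import Pool.Agent.Y521.Dyn3

/-!
# Verification of the block inequalities
-/

open scoped Topology ContDiff Manifold Matrix
open Set Pool.Agent.W630 Pool.Agent.Helper186 Metric Real

noncomputable section

namespace Pool.Agent.Y521

/-- The kick term. -/
def kb (κ : VS → ℝ) (φ ψ : ℝ) (y : W4) : ℝ :=
  ex 0 * exp (cos ψ + κ ((φ, ψ), y)) ^ 2 * qv κ ((φ, ψ), y) 4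

/-- The data of a small perturbation of the model. -/
structure Dta (p : Par) (M : Mod) (z : VS → Fin 7 → ℝ) (κ : VS → ℝ) (ε : ℝ) : Prop where
  e1 : p.del = M.del
  e2 : p.c = M.c / 2
  e3 : p.Cf = M.Cz + 1
  e4 : p.lam = M.lam
  e5 : p.psi0 = M.rho
  q : ∀ v, ‖qv κ v‖ ≤ M.rho
  cl : ∀ v j, |z v j - Zf v.1.1 v.1.2 (qv κ v) j| ≤ ε
  cl1 : 2 * ε ≤ p.eps
  cl2 : ε ≤ M.c / 4
  cl3 : ε ≤ 1
  bB : ∀ φ ψ y, |kb κ φ ψ y| ≤ p.B
  b6 : ∀ φ ψ y, 2 * p.w ≤ |φ| → |φ| ≤ π → kb κ φ ψ y = 0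

variable {p : Par} {M : Mod} {z : VS → Fin 7 → ℝ} {κ : VS → ℝ} {ε : ℝ}

lemma sin_eq_sinc (x : ℝ) : sin x = x * sinc x := by
  by_cases h : x = 0
  · simp [h]
  · rw [sinc_of_ne_zero h]; field_simp

lemma comp_le {q : Q6} {φ ψ : ℝ} {C : ℝ} (h : ‖Zf φ ψ q‖ ≤ C) (j : Fin 7) : |Zf φ ψ q j| ≤ C := by
  have := norm_le_pi_norm (Zf φ ψ q) j
  rw [Real.norm_eq_abs] at this
  linarith

theorem Dta.fwd (h : Dta p M z κ ε) : Fwd p (fun φ ψ y => z ((φ, ψ), y) 0)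
    (fun φ ψ y => z ((φ, ψ), y) 1) (fun φ ψ y => z ((φ, ψ), y) 6) (kb κ) where
  f1 φ ψ y h1 h2 h3 := by
    rw [h.e1] at h1 h2
    rw [h.e5] at h3
    rw [h.e2, h.e3]
    have hd := M.del_pos
    have hd4 := M.del_le
    have hpi := pi_gt_three
    have hφ : |φ| ≤ π / 2 - M.del := abs_le.2 ⟨by linarith, h2⟩
    have a1 := M.m1 φ ψ (qv κ ((φ, ψ), y)) hφ h3 (h.q _)
    have a2 := comp_le (M.m5 φ ψ (qv κ ((φ, ψ), y)) (by linarith) h3 (h.q _)) 0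
    have a3 := h.cl ((φ, ψ), y) 0
    simp only at a3
    have a4 := h.cl2
    have a5 := h.cl3
    have a6 := M.c_pos
    rw [abs_le] at a2 a3
    constructor <;> linarith [a2.2, a3.1, a3.2]
  f2 φ ψ y h1 h2 h3 := by
    rw [h.e1] at h1 h2
    rw [h.e5] at h3
    have hd := M.del_pos
    have hpi := pi_gt_three
    have hφ : |φ| = φ := abs_of_pos (by linarith)
    have a1 := M.m2 φ ψ (qv κ ((φ, ψ), y)) (by rw [hφ]; exact h1) (by rw [hφ]; exact h2) h3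
      (h.q _)
    have a3 := h.cl ((φ, ψ), y) 0
    simp only at a3
    have a4 := h.cl2
    have a6 := M.c_pos
    rw [abs_le] at a3
    linarith [a3.1, a3.2]
  f3 φ ψ y h1 h2 h3 := by
    rw [h.e1] at h1 h2
    rw [h.e5] at h3
    rw [h.e2]
    have a1 := M.m3 φ ψ (qv κ ((φ, ψ), y)) h1 h2 h3 (h.q _)
    have a3 := h.cl ((φ, ψ), y) 6
    simp only at a3
    have a4 := h.cl2
    have a6 := M.c_pos
    rw [abs_le] at a3
    linarith [a3.1, a3.2]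
  f4 φ ψ y h1 h2 h3 := by
    rw [h.e1] at h1 h2
    rw [h.e5] at h3
    rw [h.e4]
    set q := qv κ ((φ, ψ), y) with hq
    refine ⟨sinc ψ * Ah φ ψ q + Zf φ ψ q 0, M.m4 φ ψ q h1 h2 h3 (h.q _), ?_⟩
    have a0 := h.cl ((φ, ψ), y) 0
    have a1 := h.cl ((φ, ψ), y) 1
    simp only at a0 a1
    rw [← hq] at a0 a1
    have hκ : κ ((φ, ψ), y) = q 0 := rfl
    have e : z ((φ, ψ), y) 1 + ψ * z ((φ, ψ), y) 0 - (sinc ψ * Ah φ ψ q + Zf φ ψ q 0) * ψ -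
        kb κ φ ψ y = (z ((φ, ψ), y) 1 - Zf φ ψ q 1) + ψ * (z ((φ, ψ), y) 0 - Zf φ ψ q 0) := by
      rw [Zf_1, sin_eq_sinc ψ]
      unfold kb
      rw [hκ, ← hq]
      ring
    rw [e]
    have h4 : |ψ| ≤ 1 := h3.trans M.rho_le
    calc |(z ((φ, ψ), y) 1 - Zf φ ψ q 1) + ψ * (z ((φ, ψ), y) 0 - Zf φ ψ q 0)|
        ≤ |z ((φ, ψ), y) 1 - Zf φ ψ q 1| + |ψ| * |z ((φ, ψ), y) 0 - Zf φ ψ q 0| := by
          rw [← abs_mul]; exact abs_add_le _ _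
      _ ≤ ε + 1 * ε := by gcongr
      _ ≤ p.eps := by linarith [h.cl1]
  f5 φ ψ y _ _ _ := h.bB φ ψ y
  f6 φ ψ y h1 h2 _ := h.b6 φ ψ y h1 (by
    have := p.pi_bound
    have := pi_gt_three
    linarith)

theorem Dta.bwd (h : Dta p M z κ ε) : Fwd p (fun φ ψ y => z ((-φ, ψ), y) 0)
    (fun φ ψ y => -z ((-φ, ψ), y) 1) (fun φ ψ y => -z ((-φ, ψ), y) 6)
    (fun φ ψ y => -kb κ (-φ) ψ y) where
  f1 φ ψ y h1 h2 h3 := by
    rw [h.e1] at h1 h2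
    rw [h.e5] at h3
    rw [h.e2, h.e3]
    have hd := M.del_pos
    have hd4 := M.del_le
    have hpi := pi_gt_three
    have hφ : |-φ| ≤ π / 2 - M.del := by rw [abs_neg]; exact abs_le.2 ⟨by linarith, h2⟩
    have a1 := M.m1 (-φ) ψ (qv κ ((-φ, ψ), y)) hφ h3 (h.q _)
    have a2 := comp_le (M.m5 (-φ) ψ (qv κ ((-φ, ψ), y)) (by linarith) h3 (h.q _)) 0
    have a3 := h.cl ((-φ, ψ), y) 0
    simp only at a3
    have a4 := h.cl2
    have a5 := h.cl3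
    have a6 := M.c_pos
    rw [abs_le] at a2 a3
    constructor <;> linarith [a2.2, a3.1, a3.2]
  f2 φ ψ y h1 h2 h3 := by
    rw [h.e1] at h1 h2
    rw [h.e5] at h3
    have hd := M.del_pos
    have hpi := pi_gt_three
    have hφ : |-φ| = φ := by rw [abs_neg]; exact abs_of_pos (by linarith)
    have a1 := M.m2 (-φ) ψ (qv κ ((-φ, ψ), y)) (by rw [hφ]; exact h1) (by rw [hφ]; exact h2) h3
      (h.q _)
    have a3 := h.cl ((-φ, ψ), y) 0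
    simp only at a3
    have a4 := h.cl2
    have a6 := M.c_pos
    rw [abs_le] at a3
    linarith [a3.1, a3.2]
  f3 φ ψ y h1 h2 h3 := by
    rw [h.e1] at h1 h2
    rw [h.e5] at h3
    rw [h.e2]
    have a1 := M.m3' (-φ) ψ (qv κ ((-φ, ψ), y)) (by linarith) (by linarith) h3 (h.q _)
    have a3 := h.cl ((-φ, ψ), y) 6
    simp only at a3
    have a4 := h.cl2
    have a6 := M.c_pos
    rw [abs_le] at a3
    linarith [a3.1, a3.2]
  f4 φ ψ y h1 h2 h3 := by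
    rw [h.e1] at h1 h2
    rw [h.e5] at h3
    rw [h.e4]
    set q := qv κ ((-φ, ψ), y) with hq
    refine ⟨-(sinc ψ * Ah (-φ) ψ q) + Zf (-φ) ψ q 0, M.m4' φ ψ q h1 h2 h3 (h.q _), ?_⟩
    have a0 := h.cl ((-φ, ψ), y) 0
    have a1 := h.cl ((-φ, ψ), y) 1
    simp only at a0 a1
    rw [← hq] at a0 a1
    have hκ : κ ((-φ, ψ), y) = q 0 := rfl
    have e : -z ((-φ, ψ), y) 1 + ψ * z ((-φ, ψ), y) 0 -
        (-(sinc ψ * Ah (-φ) ψ q) + Zf (-φ) ψ q 0) * ψ -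
        -kb κ (-φ) ψ y =
        -(z ((-φ, ψ), y) 1 - Zf (-φ) ψ q 1) + ψ * (z ((-φ, ψ), y) 0 - Zf (-φ) ψ q 0) := by
      rw [Zf_1, sin_eq_sinc ψ]
      unfold kb
      rw [hκ, ← hq]
      ring
    rw [e]
    have h4 : |ψ| ≤ 1 := h3.trans M.rho_le
    calc |-(z ((-φ, ψ), y) 1 - Zf (-φ) ψ q 1) + ψ * (z ((-φ, ψ), y) 0 - Zf (-φ) ψ q 0)|
        ≤ |z ((-φ, ψ), y) 1 - Zf (-φ) ψ q 1| + |ψ| * |z ((-φ, ψ), y) 0 - Zf (-φ) ψ q 0| := by
          rw [← abs_mul, ← abs_neg (z ((-φ, ψ), y) 1 - Zf (-φ) ψ q 1)]; exact abs_add_le _ _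
      _ ≤ ε + 1 * ε := by gcongr
      _ ≤ p.eps := by linarith [h.cl1]
  f5 φ ψ y _ _ _ := by rw [abs_neg]; exact h.bB (-φ) ψ y
  f6 φ ψ y h1 h2 _ := by
    rw [h.b6 (-φ) ψ y (by rwa [abs_neg]) (by
      rw [abs_neg]
      have := p.pi_bound
      have := pi_gt_three
      linarith), neg_zero]

end Pool.Agent.Y521
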