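import Mathlib
import Pool.Agent.Y521.Asm

/-!
# Choice of the constants
-/

open scoped Topology ContDiff Manifold Matrix
open Set Pool.Agent.W630 Pool.Agent.Helper186 Metric Real

noncomputable section

namespace Pool.Agent.Y521

/-- The last components of the vector field. -/
def Fyz (z : VS → Fin 7 → ℝ) (φ ψ : ℝ) (y : W4) : W4 :=
  ∑ j, z ((φ, ψ), y) j • (frV j ((φ, ψ), y)).2

lemma frV_snd (j : Fin 7) (φ ψ : ℝ) (y : W4) :
    (frV j ((φ, ψ), y)).2 = (frV j (((0, 0), y) : VS)).2 := by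
  fin_cases j <;> rfl

lemma exists_frame_bound (ya yb : W4) (r : ℝ) : ∃ C, 0 ≤ C ∧ ∀ y, (‖y - ya‖ ≤ r ∨ ‖y - yb‖ ≤ r) →
    ∑ j, ‖(frV j (((0, 0), y) : VS)).2‖ ≤ C := by
  have hc : Continuous fun y : W4 => ∑ j, ‖(frV j (((0, 0), y) : VS)).2‖ := by
    refine continuous_finsetSum _ fun j _ => ?_
    exact (continuous_snd.comp ((contDiff_frV j).continuous.comp (by fun_prop))).norm
  obtain ⟨C, hC⟩ := ((isCompact_closedBall ya r).union
    (isCompact_closedBall yb r)).exists_bound_of_continuousOn hc.continuousOn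
  refine ⟨max C 0, le_max_right _ _, fun y hy => ?_⟩
  have h1 := hC y (by
    rcases hy with h | h
    · left; rwa [mem_closedBall, dist_eq_norm]
    · right; rwa [mem_closedBall, dist_eq_norm])
  exact (le_abs_self _).trans (h1.trans (le_max_left _ _))

variable {p : Par} {M : Mod} {z : VS → Fin 7 → ℝ} {ε c0 kN C : ℝ} {ya yb : W4}

lemma kb_eq (w c0 φ ψ : ℝ) (y : W4) : kb (kap w c0) φ ψ y =
    ex 0 * exp (cos ψ + kap w c0 ((φ, ψ), y)) ^ 2 * (c0 * (chi w φ * ek y)) := by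
  unfold kb
  rw [qv_kap]
  show _ * (c0 * qv (K1 w) ((φ, ψ), y) 4) = _
  rw [qv_K1_four]

lemma E_ge {κ : VS → ℝ} (hq : ∀ v, ‖qv κ v‖ ≤ M.rho) (v : VS) :
    exp (-4) ≤ exp (cos v.1.2 + κ v) ^ 2 := by
  have h1 : |κ v| ≤ 1 := by
    have h2 := norm_le_pi_norm (qv κ v) 0
    have h3 := (h2.trans (hq v)).trans M.rho_le
    exact h3
  have h4 := neg_one_le_cos v.1.2
  rw [abs_le] at h1
  rw [← exp_nat_mul]
  apply exp_le_exp.2
  push_cast
  linarith [h1.1]

lemma E_le {κ : VS → ℝ} (hq : ∀ v, ‖qv κ v‖ ≤ M.rho) (v : VS) :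
    exp (cos v.1.2 + κ v) ^ 2 ≤ exp 4 := by
  have h1 : |κ v| ≤ 1 := by
    have h2 := norm_le_pi_norm (qv κ v) 0
    have h3 := (h2.trans (hq v)).trans M.rho_le
    exact h3
  have h4 := cos_le_one v.1.2
  rw [abs_le] at h1
  rw [← exp_nat_mul]
  apply exp_le_exp.2
  push_cast
  linarith [h1.2]

theorem Dta.kick (h : Dta p M z (kap p.w c0) ε) (hw : 2 * p.w ≤ π / 2) (hc0 : 0 < c0)
    (hkN : 0 < kN) (ha : ∀ y, ‖y - ya‖ ≤ p.r → ek y ≤ -kN) (hb : ∀ y, ‖y - yb‖ ≤ p.r → kN ≤ ek y)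
    (hk : p.k ≤ ex 0 * exp (-4) * (c0 * kN))
    (hfr : ∀ y, (‖y - ya‖ ≤ p.r ∨ ‖y - yb‖ ≤ p.r) → ∑ j, ‖(frV j (((0, 0), y) : VS)).2‖ ≤ C)
    (hC : 0 ≤ C) (hCy : (M.Cz + 1) * C ≤ p.Cy) :
    Kick2 p ya yb (Fyz z) (kb (kap p.w c0)) := by
  have hm := ex0_pos
  have hF : ∀ φ ψ y, |φ| ≤ π / 2 + p.del → |ψ| ≤ p.psi0 →
      (‖y - ya‖ ≤ p.r ∨ ‖y - yb‖ ≤ p.r) → ‖Fyz z φ ψ y‖ ≤ p.Cy := by
    intro φ ψ y h1 h2 h3
    rw [h.e1] at h1
    rw [h.e5] at h2
    have hz : ∀ j, |z ((φ, ψ), y) j| ≤ M.Cz + 1 := by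
      intro j
      have a1 := comp_le (M.m5 φ ψ (qv (kap p.w c0) ((φ, ψ), y)) h1 h2 (h.q _)) j
      have a2 := h.cl ((φ, ψ), y) j
      simp only at a2
      have a3 := h.cl3
      have e : z ((φ, ψ), y) j = (z ((φ, ψ), y) j - Zf φ ψ (qv (kap p.w c0) ((φ, ψ), y)) j) +
        Zf φ ψ (qv (kap p.w c0) ((φ, ψ), y)) j := by ring
      rw [e]
      exact (abs_add_le _ _).trans (by linarith)
    have hCz : 0 ≤ M.Cz + 1 := (abs_nonneg _).trans (hz 0)
    calc ‖Fyz z φ ψ y‖ ≤ ∑ j, ‖z ((φ, ψ), y) j • (frV j ((φ, ψ), y)).2‖ := norm_sum_le _ _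
      _ ≤ ∑ j, (M.Cz + 1) * ‖(frV j (((0, 0), y) : VS)).2‖ := by
          refine Finset.sum_le_sum fun j _ => ?_
          rw [norm_smul, frV_snd, Real.norm_eq_abs]
          exact mul_le_mul_of_nonneg_right (hz j) (norm_nonneg _)
      _ = (M.Cz + 1) * ∑ j, ‖(frV j (((0, 0), y) : VS)).2‖ := by rw [Finset.mul_sum]
      _ ≤ (M.Cz + 1) * C := mul_le_mul_of_nonneg_left (hfr y h3) hCz
      _ ≤ p.Cy := hCy
  have hE : ∀ φ ψ y, 0 < ex 0 * exp (cos ψ + kap p.w c0 ((φ, ψ), y)) ^ 2 := fun φ ψ y => by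
    positivity
  have hE2 : ∀ φ ψ y, exp (-4) ≤ exp (cos ψ + kap p.w c0 ((φ, ψ), y)) ^ 2 := fun φ ψ y =>
    E_ge h.q ((φ, ψ), y)
  have hkN' : ∀ φ ψ y, p.k ≤ ex 0 * exp (cos ψ + kap p.w c0 ((φ, ψ), y)) ^ 2 * (c0 * kN) := by
    intro φ ψ y
    refine hk.trans ?_
    have := hE2 φ ψ y
    gcongr
  refine ⟨?_, ?_, fun φ ψ y h1 h2 h3 => hF φ ψ y h1 h2 (Or.inl h3), ?_, ?_,
    fun φ ψ y h1 h2 h3 => hF φ ψ y h1 h2 (Or.inr h3)⟩
  · intro φ ψ y _ _ h3
    rw [kb_eq]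
    have h4 : ek y ≤ 0 := (ha y h3).trans (by linarith)
    have h5 := chi_nonneg p.w φ
    have h6 : c0 * (chi p.w φ * ek y) ≤ 0 :=
      mul_nonpos_of_nonneg_of_nonpos hc0.le (mul_nonpos_of_nonneg_of_nonpos h5 h4)
    exact mul_nonpos_of_nonneg_of_nonpos (hE φ ψ y).le h6
  · intro φ ψ y h1 _ h3
    rw [kb_eq, chi_one p.w_pos hw h1, one_mul]
    have h4 : c0 * ek y ≤ -(c0 * kN) := by nlinarith [ha y h3]
    have h5 := mul_le_mul_of_nonneg_left h4 (hE φ ψ y).le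
    have h6 := hkN' φ ψ y
    linarith
  · intro φ ψ y _ _ h3
    rw [kb_eq]
    have h4 : 0 ≤ ek y := hkN.le.trans (hb y h3)
    have h5 := chi_nonneg p.w φ
    exact mul_nonneg (hE φ ψ y).le (mul_nonneg hc0.le (mul_nonneg h5 h4))
  · intro φ ψ y h1 _ h3
    rw [kb_eq, chi_one p.w_pos hw h1, one_mul]
    have h4 : c0 * kN ≤ c0 * ek y := by
      have := hb y h3
      gcongr
    have h5 := mul_le_mul_of_nonneg_left h4 (hE φ ψ y).le
    have h6 := hkN' φ ψ y
    linarith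

/-- **The choice of the constants.** -/
theorem exists_constants : ∃ (w c0 ε : ℝ), 0 < ε ∧ ∀ z : VS → Fin 7 → ℝ,
    (∀ v j, |z v j - Zf v.1.1 v.1.2 (qv (kap w c0) v) j| ≤ ε) →
    ∃ (p : Par) (b : ℝ → ℝ → W4 → ℝ) (ya yb : W4),
      Fwd p (fun φ ψ y => z ((φ, ψ), y) 0) (fun φ ψ y => z ((φ, ψ), y) 1)
        (fun φ ψ y => z ((φ, ψ), y) 6) b ∧
      Fwd p (fun φ ψ y => z ((-φ, ψ), y) 0) (fun φ ψ y => -z ((-φ, ψ), y) 1)
        (fun φ ψ y => -z ((-φ, ψ), y) 6) (fun φ ψ y => -b (-φ) ψ y) ∧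
      Kick2 p ya yb (Fyz z) b := by
  obtain ⟨M⟩ := exists_mod
  obtain ⟨ya, yb, r, hr, kN, hkN, ha, hb⟩ := exists_ek
  obtain ⟨C, hC, hfr⟩ := exists_frame_bound ya yb r
  have hm := ex0_pos
  have hpi := pi_gt_three
  have hCz : 0 < M.Cz := M.c_pos.trans_le M.c_le
  have hMc := M.c_pos
  have hMlam := M.lam_pos
  have hMrho := M.rho_pos
  have hMdel := M.del_pos
  have hMdel4 := M.del_le
  set c2 := M.rho * exp (-M.del) with hc2
  have hc2pos : 0 < c2 := by positivity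
  set B := M.lam * (c2 / 4 * exp (-2)) / 2 with hB
  have hBpos : 0 < B := by positivity
  set Cy := (M.Cz + 1) * C with hCy
  have hCy0 : 0 ≤ Cy := by positivity
  set w := min (1 / 2) (r * (M.c / 2) / (8 * (Cy + 1))) with hw
  have hwpos : 0 < w := by positivity
  have hw1 : w ≤ 1 / 2 := min_le_left _ _
  have hw2 : w ≤ r * (M.c / 2) / (8 * (Cy + 1)) := min_le_right _ _
  obtain ⟨C1, hC1, hq1⟩ := bdd_qv (pert_K1 w)
  set c0 := min M.rho (B / (ex 0 * exp 4)) / C1 with hc0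
  have hc0pos : 0 < c0 := by positivity
  have hc0C1 : c0 * C1 = min M.rho (B / (ex 0 * exp 4)) := by rw [hc0]; field_simp
  set k := ex 0 * exp (-4) * (c0 * kN) with hk
  have hkpos : 0 < k := by positivity
  set X := M.lam * ((k / 4 * (w / (2 * (M.Cz + 1)))) * exp (-2)) with hX
  have hXpos : 0 < X := by positivity
  set e := min (k / 2) (min (B / 2) (X / 2)) with he
  have hepos : 0 < e := by positivity
  have he1 : e ≤ k / 2 := min_le_left _ _
  have he2 : e ≤ B / 2 := (min_le_right _ _).trans (min_le_left _ _)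
  have he3 : e ≤ X / 2 := (min_le_right _ _).trans (min_le_right _ _)
  set ε := min (e / 2) (min (M.c / 4) 1) with hε
  have hεpos : 0 < ε := by positivity
  have hε1 : ε ≤ e / 2 := min_le_left _ _
  have hε2 : ε ≤ M.c / 4 := (min_le_right _ _).trans (min_le_left _ _)
  have hε3 : ε ≤ 1 := (min_le_right _ _).trans (min_le_right _ _)
  refine ⟨w, c0, ε, hεpos, fun z hz => ?_⟩
  let p : Par :=
    { del := M.del, c := M.c / 2, Cf := M.Cz + 1, lam := M.lam, psi0 := M.rho, c1 := c2 / 4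
      c0 := c2 / 2, c2 := c2, B := B, w := w, k := k, Cy := Cy, r := r, eps := e
      del_pos := hMdel
      del_le := hMdel4
      c_pos := by positivity
      c_le := by have := M.c_le; linarith
      lam_pos := hMlam
      c1_pos := by positivity
      c1_lt := by linarith
      c0_lt := by linarith
      c2_le := by
        rw [hc2, mul_assoc, ← exp_add]
        simp
      w_pos := hwpos
      w_le := by linarith
      k_pos := hkpos
      Cy_nonneg := hCy0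
      Cy_lt := by
        have h1 : 4 * w / (M.c / 2) ≤ r / (2 * (Cy + 1)) := by
          rw [div_le_div_iff₀ (by positivity) (by positivity)]
          have h2 : w * (8 * (Cy + 1)) ≤ r * (M.c / 2) := by
            rwa [le_div_iff₀ (by positivity)] at hw2
          linarith
        calc Cy * (4 * w / (M.c / 2)) ≤ Cy * (r / (2 * (Cy + 1))) := by gcongr
          _ < r := by
            rw [mul_div_assoc', div_lt_iff₀ (by positivity)]
            nlinarith
      eps_pos := hepos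
      eps_le := he1
      B_lt := by
        have : M.lam * (c2 / 4 * exp (-2)) = 2 * B := by rw [hB]; ring
        rw [this]; linarith
      eps_lt := by
        show e < X
        linarith }
  have hqk : ∀ v, ‖qv (kap w c0) v‖ ≤ min M.rho (B / (ex 0 * exp 4)) := by
    intro v
    rw [qv_kap, norm_smul, Real.norm_eq_abs, abs_of_pos hc0pos, ← hc0C1]
    gcongr
    exact hq1 v
  have hqr : ∀ v, ‖qv (kap w c0) v‖ ≤ M.rho := fun v => (hqk v).trans (min_le_left _ _)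
  have hD : Dta p M z (kap p.w c0) ε :=
    { e1 := rfl, e2 := rfl, e3 := rfl, e4 := rfl, e5 := rfl
      q := hqr
      cl := hz
      cl1 := by show 2 * ε ≤ e; linarith
      cl2 := hε2
      cl3 := hε3
      bB := by
        intro φ ψ y
        show |kb (kap w c0) φ ψ y| ≤ B
        unfold kb
        rw [abs_mul, abs_of_pos (by positivity : 0 < ex 0 * exp (cos ψ + kap w c0 ((φ, ψ), y)) ^ 2)]
        have h1 := norm_le_pi_norm (qv (kap w c0) ((φ, ψ), y)) 4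
        rw [Real.norm_eq_abs] at h1
        have h2 := h1.trans ((hqk ((φ, ψ), y)).trans (min_le_right _ _))
        have h3 := E_le hqr ((φ, ψ), y)
        simp only at h3
        calc ex 0 * exp (cos ψ + kap w c0 ((φ, ψ), y)) ^ 2 * |qv (kap w c0) ((φ, ψ), y) 4|
            ≤ ex 0 * exp 4 * (B / (ex 0 * exp 4)) := by gcongr
          _ = B := by field_simp
      b6 := by
        intro φ ψ y h1 h2
        show kb (kap w c0) φ ψ y = 0
        rw [kb_eq, chi_zero hwpos (by linarith) h1 h2]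
        ring }
  refine ⟨p, kb (kap p.w c0), ya, yb, hD.fwd, hD.bwd, ?_⟩
  exact hD.kick (by show 2 * w ≤ π / 2; linarith) hc0pos hkN ha hb le_rfl hfr hC le_rfl

end Pool.Agent.Y521
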