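import Mathlib
import Pool.Agent.W630.Quot
import Pool.Agent.Helper186.TimeFlow

/-!
# Complete flows of equivariant vector fields on a vector space
-/

open scoped Topology ContDiff Manifold
open Set Pool.Agent.W630 Pool.Agent.Helper186

noncomputable section

namespace Pool.Agent.Y521

universe u

set_option linter.unusedSectionVars false

variable {V : Type u} [NormedAddCommGroup V] [NormedSpace ℝ V] [FiniteDimensional ℝ V]

lemma hasDerivWithinAt_of_curve {γ : ℝ → V} {X : V → V} {s : Set ℝ} {t : ℝ}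
    (h : HasMFDerivWithinAt 𝓘(ℝ, ℝ) 𝓘(ℝ, V) γ s t ((1 : ℝ →L[ℝ] ℝ).smulRight (X (γ t)))) :
    HasDerivWithinAt γ (X (γ t)) s t := by
  have h0 : HasFDerivWithinAt γ ((1 : ℝ →L[ℝ] ℝ).smulRight (X (γ t)) : ℝ →L[ℝ] V) s t :=
    hasMFDerivWithinAt_iff_hasFDerivWithinAt.1 h
  have h1 := h0.hasDerivWithinAt
  have h2 : ((1 : ℝ →L[ℝ] ℝ).smulRight (X (γ t))) 1 = X (γ t) := by
    rw [ContinuousLinearMap.smulRight_apply]
    exact one_smul _ _
  exact h1.congr_deriv h2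

lemma curve_of_hasDerivWithinAt {γ : ℝ → V} {X : V → V} {s : Set ℝ} {t : ℝ}
    (h : HasDerivWithinAt γ (X (γ t)) s t) :
    HasMFDerivWithinAt 𝓘(ℝ, ℝ) 𝓘(ℝ, V) γ s t ((1 : ℝ →L[ℝ] ℝ).smulRight (X (γ t))) := by
  have h1 := h.hasFDerivWithinAt.hasMFDerivWithinAt
  have h2 : ContinuousLinearMap.toSpanSingleton ℝ (X (γ t)) =
      ((1 : ℝ →L[ℝ] ℝ).smulRight (X (γ t))) := by
    ext
    rw [ContinuousLinearMap.smulRight_apply, ContinuousLinearMap.toSpanSingleton_apply]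
    rfl
  exact h2 ▸ h1

/-- **Complete flows of equivariant vector fields.** -/
theorem exists_flow_equiv {G : Type*} [Group G] [MulAction G V] [SmoothAct G V] {X : V → V}
    (hX : ContDiff ℝ ∞ X) (hinv : ∀ (g : G) v, X (g • v) = fderiv ℝ (fun w : V => g • w) v (X v))
    {K : Set V} (hK : IsCompact K) (hcov : ∀ v : V, ∃ g : G, g • v ∈ K) :
    ∃ Fl : V → ℝ → V, (∀ v, Fl v 0 = v) ∧ (∀ v t, HasDerivAt (Fl v) (X (Fl v t)) t) ∧
      Continuous fun p : V × ℝ => Fl p.1 p.2 := by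
  have hXs : ContMDiff 𝓘(ℝ, V) 𝓘(ℝ, V).tangent ∞ (fun x => (⟨x, X x⟩ : TangentBundle 𝓘(ℝ, V) V)) :=
    contMDiff_vectorSpace_iff_contDiff.2 hX
  obtain ⟨ε, hε, h⟩ := exists_uniform_time_compact hXs hK
  have key : ∀ x : V, ∃ γ : ℝ → V, γ 0 = x ∧ IsMIntegralCurve (I := 𝓘(ℝ, V)) γ X := by
    refine exists_isMIntegralCurve_of_isMIntegralCurveOn (hXs.of_le (by simp)) hε ?_
    intro v
    obtain ⟨g, hg⟩ := hcov v
    obtain ⟨γ, h0, hγ⟩ := h _ hg
    refine ⟨fun t => g⁻¹ • γ t, by simp only [h0, inv_smul_smul], ?_⟩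
    intro t ht
    have h1 := hasDerivWithinAt_of_curve (hγ t ht)
    have h2 : HasFDerivAt (fun w : V => g⁻¹ • w) (fderiv ℝ (fun w : V => g⁻¹ • w) (γ t)) (γ t) :=
      ((SmoothAct.smooth g⁻¹).differentiable (by simp) (γ t)).hasFDerivAt
    have h3 := h2.comp_hasDerivWithinAt t h1
    rw [← hinv] at h3
    exact curve_of_hasDerivWithinAt h3
  choose Fl h0 hFl using key
  have hd : ∀ v t, HasDerivAt (Fl v) (X (Fl v t)) t := by
    intro v t
    have := hasDerivWithinAt_of_curve (s := univ) ((hFl v t).hasMFDerivWithinAt)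
    rwa [hasDerivWithinAt_univ] at this
  refine ⟨Fl, h0, hd, ?_⟩
  have : IsManifold 𝓘(ℝ, V) 1 V := IsManifold.of_le (n := ∞) (by simp)
  exact (contMDiff_flow hXs h0 hFl).continuous

end Pool.Agent.Y521
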