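import Mathlib
import Pool.Agent.Y521.Dyn1

/-!
# An orbit from the negative to the positive region excludes a bounded solution
-/

open Set

noncomputable section

namespace Pool.Agent.Y521

/-- On the positive region a bounded function with `f' > m f` is nonpositive. -/
lemma nonpos_of_bdd {f f' m : ℝ → ℝ} {c T K : ℝ} (hc : 0 < c)
    (hf : ∀ t, HasDerivAt f (f' t) t) (hgt : ∀ t, m t * f t < f' t) (hm : ∀ t, T ≤ t → c ≤ m t)
    (hK : ∀ t, |f t| ≤ K) : ∀ t, T ≤ t → f t ≤ 0 := by
  intro t₀ ht₀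
  by_contra hcon
  push Not at hcon
  have hK0 : 0 ≤ K := (abs_nonneg _).trans (hK t₀)
  have hcf : 0 < c * f t₀ := mul_pos hc hcon
  set t₁ := t₀ + (K + 1) / (c * f t₀) with ht₁
  have h01 : t₀ ≤ t₁ := by
    rw [ht₁]
    have : 0 ≤ (K + 1) / (c * f t₀) := by positivity
    linarith
  have h := barrier_ge (f := f) (f' := f') (a := t₀) (b := t₁) (fun t _ => hf t) (B := f t₀)
    (m := c * f t₀) le_rfl (fun x hx e => by
      have h1 : 0 ≤ c * f t₀ * (x - t₀) := mul_nonneg hcf.le (by linarith [hx.1])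
      have h2 : f t₀ ≤ f x := by rw [e]; linarith
      have h3 : c ≤ m x := hm x (ht₀.trans hx.1)
      have h4 : c * f t₀ ≤ m x * f x := mul_le_mul h3 h2 hcon.le (hc.le.trans h3)
      exact lt_of_le_of_lt h4 (hgt x)) t₁ ⟨h01, le_rfl⟩
  have h5 : c * f t₀ * (t₁ - t₀) = K + 1 := by
    rw [ht₁]; field_simp; ring
  rw [h5] at h
  have := hK t₁
  have := le_abs_self (f t₁)
  linarith

/-- The contradiction in the case `f' > m f`. -/
lemma no_NP_pos {f f' m : ℝ → ℝ} {c T K : ℝ} (hc : 0 < c)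
    (hf : ∀ t, HasDerivAt f (f' t) t) (hgt : ∀ t, m t * f t < f' t) (hm : ∀ t, T ≤ t → c ≤ m t)
    (hm' : ∀ t, T ≤ t → m (-t) ≤ -c) (hK : ∀ t, |f t| ≤ K) : False := by
  have h1 := nonpos_of_bdd hc hf hgt hm hK
  have h2 : ∀ t, T ≤ t → -f (-t) ≤ 0 := by
    refine nonpos_of_bdd (f := fun t => -f (-t)) (f' := fun t => f' (-t))
      (m := fun t => -m (-t)) (T := T) hc ?_ ?_ ?_ ?_ (K := K)
    · intro t
      have h3 := ((hf (-t)).scomp t (hasDerivAt_neg t)).fun_neg
      simpa [Function.comp_def] using h3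
    · intro t
      have := hgt (-t)
      linarith
    · intro t ht
      have := hm' t ht
      linarith
    · intro t
      rw [abs_neg]; exact hK (-t)
  set S := max T 0 with hS
  have hTS : T ≤ S := le_max_left _ _
  have hS0 : 0 ≤ S := le_max_right _ _
  have h3 : 0 ≤ f (-S) := by have := h2 S hTS; linarith
  have h4 : ∀ x ∈ Icc (-S) S, 0 ≤ f x := by
    have := barrier_ge (f := f) (f' := f') (a := -S) (b := S) (fun t _ => hf t) (B := 0)
      (m := 0) h3 (fun x hx e => by
        have e' : f x = 0 := by simpa using e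
        have := hgt x
        rw [e', mul_zero] at this
        exact this)
    simpa using this
  have h5 : f S = 0 := le_antisymm (h1 S hTS) (h4 S ⟨by linarith, le_rfl⟩)
  have h6 : 0 < f' S := by
    have := hgt S
    rwa [h5, mul_zero] at this
  have h7 : ∀ᶠ x in nhdsWithin S (Ioi S), 0 < slope f S x :=
    (hasDerivWithinAt_iff_tendsto_slope' (by simp)).1 (hf S).hasDerivWithinAt |>.eventually
      (isOpen_Ioi.mem_nhds h6)
  obtain ⟨x, hx, hx'⟩ := (h7.and self_mem_nhdsWithin).exists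
  rw [slope_def_field, h5, sub_zero] at hx
  have hx'' : S < x := hx'
  have h8 : 0 < f x := by
    have := mul_pos hx (by linarith : 0 < x - S)
    rwa [div_mul_cancel₀] at this
    exact (by linarith : (0:ℝ) < x - S).ne'
  have := h1 x (hTS.trans hx''.le)
  linarith

/-- **The contradiction.** -/
theorem no_NP {f f' m : ℝ → ℝ} {c T K : ℝ} (hc : 0 < c)
    (hf : ∀ t, HasDerivAt f (f' t) t) (hne : ∀ t, f' t - m t * f t ≠ 0)
    (hcont : Continuous fun t => f' t - m t * f t) (hm : ∀ t, T ≤ t → c ≤ m t)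
    (hm' : ∀ t, T ≤ t → m (-t) ≤ -c) (hK : ∀ t, |f t| ≤ K) : False := by
  have key : (∀ t, 0 < f' t - m t * f t) ∨ (∀ t, f' t - m t * f t < 0) := by
    by_contra hcon
    push Not at hcon
    obtain ⟨⟨a, ha⟩, ⟨b, hb⟩⟩ := hcon
    obtain ⟨t, ht⟩ := mem_range_of_exists_le_of_exists_ge hcont ⟨a, ha⟩ ⟨b, hb⟩
    exact hne t ht
  rcases key with h | h
  · exact no_NP_pos hc hf (fun t => by linarith [h t]) hm hm' hK
  · refine no_NP_pos (f := fun t => -f t) (f' := fun t => -f' t) (m := m) hc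
      (fun t => (hf t).fun_neg) (fun t => by linarith [h t]) hm hm' (K := K)
      (fun t => by rw [abs_neg]; exact hK t)

end Pool.Agent.Y521
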