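import Mathlib
import Pool.Agent.Y521.Emb2

/-!
# The kernel vector field of a hypersurface near the model
-/

open scoped Topology ContDiff Manifold Matrix
open Set Pool.Agent.W630 Pool.Agent.Helper186

noncomputable section

namespace Pool.Agent.Y521

/-- The frame vector fields as sections. -/
def frS (a : Fin 7) (p : Hyp) : TangentBundle 𝓘(ℝ, VS) Hyp := ⟨p, frH a p⟩

lemma frS_qm (a : Fin 7) (v : VS) : frS a (qm GS v) =
    tangentMap 𝓘(ℝ, VS) 𝓘(ℝ, VS) (qm GS : VS → Hyp) ⟨v, frV a v⟩ := by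
  show (⟨qm GS v, frH a (qm GS v)⟩ : TangentBundle 𝓘(ℝ, VS) Hyp) = ⟨qm GS v, dq GS v (frV a v)⟩
  rw [frH_qm]

lemma contMDiff_frS (a : Fin 7) :
    ContMDiff 𝓘(ℝ, VS) 𝓘(ℝ, VS).tangent ∞ (frS a) := by
  apply contMDiff_of_comp_qm
  have h1 : (fun w : VS => frS a (qm GS w)) = fun w =>
      tangentMap 𝓘(ℝ, VS) 𝓘(ℝ, VS) (qm GS : VS → Hyp) ⟨w, frV a w⟩ := by
    funext w; exact frS_qm a w
  rw [h1]
  have h2 : ContMDiff 𝓘(ℝ, VS) 𝓘(ℝ, VS).tangent ∞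
      (fun w : VS => (⟨w, frV a w⟩ : TangentBundle 𝓘(ℝ, VS) VS)) :=
    contMDiff_vectorSpace_iff_contDiff.2 (contDiff_frV a)
  have h3 : ContMDiff 𝓘(ℝ, VS).tangent 𝓘(ℝ, VS).tangent ∞
      (tangentMap 𝓘(ℝ, VS) 𝓘(ℝ, VS) (qm GS : VS → Hyp)) :=
    ContMDiff.contMDiff_tangentMap (n := ∞) contMDiff_qm (by simp)
  exact h3.comp h2

/-- The coframe as functions on the tangent bundle. -/
def ctf (j : Fin 7) (v : TangentBundle 𝓘(ℝ, VM) Mfd) : ℝ := cofM j v.1 v.2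

lemma contMDiff_ctf (j : Fin 7) : ContMDiff 𝓘(ℝ, VM).tangent 𝓘(ℝ, ℝ) ∞ (ctf j) :=
  smooth_cofM j

lemma contMDiff_rM' :
    ContMDiff 𝓘(ℝ, VM).tangent 𝓘(ℝ, ℝ) ∞ fun v : TangentBundle 𝓘(ℝ, VM) Mfd => rM v.1 :=
  contMDiff_rM.comp (Bundle.contMDiff_proj _)

lemma contMDiff_sM' :
    ContMDiff 𝓘(ℝ, VM).tangent 𝓘(ℝ, ℝ) ∞ fun v : TangentBundle 𝓘(ℝ, VM) Mfd => sM v.1 :=
  contMDiff_sM.comp (Bundle.contMDiff_proj _)

/-- The data of a map between the tangent bundles. -/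
def Dt (T : TangentBundle 𝓘(ℝ, VS) Hyp → TangentBundle 𝓘(ℝ, VM) Mfd) (p : Hyp) :
    (Fin 7 → Fin 7 → ℝ) × (ℝ × ℝ) :=
  (fun a j => ctf j (T (frS a p)), (rM (T (frS 6 p)).1, sM (T (frS 6 p)).1))

/-- The kernel vector of a map between the tangent bundles. -/
def Zt (T : TangentBundle 𝓘(ℝ, VS) Hyp → TangentBundle 𝓘(ℝ, VM) Mfd) (p : Hyp) : Fin 7 → ℝ :=
  Psi (Dt T p)

lemma continuous_Dt (T : C(TangentBundle 𝓘(ℝ, VS) Hyp, TangentBundle 𝓘(ℝ, VM) Mfd)) :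
    Continuous (Dt T) := by
  have h1 : ∀ a, Continuous fun p => T (frS a p) := fun a =>
    T.continuous.comp (contMDiff_frS a).continuous
  have h2 : ∀ a j, Continuous fun p => ctf j (T (frS a p)) := fun a j =>
    (contMDiff_ctf j).continuous.comp (h1 a)
  have h3 : Continuous fun p => rM (T (frS 6 p)).1 := contMDiff_rM'.continuous.comp (h1 6)
  have h4 : Continuous fun p => sM (T (frS 6 p)).1 := contMDiff_sM'.continuous.comp (h1 6)
  exact (continuous_pi fun a => continuous_pi fun j => h2 a j).prodMk (h3.prodMk h4)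

/-- The kernel vector as a continuous map. -/
def Zc (T : C(TangentBundle 𝓘(ℝ, VS) Hyp, TangentBundle 𝓘(ℝ, VM) Mfd)) : C(Hyp, Fin 7 → ℝ) :=
  ⟨Zt T, contDiff_Psi.continuous.comp (continuous_Dt T)⟩

/-- The kernel vector depends continuously on the tangent map. -/
lemma continuous_Zc : Continuous Zc := by
  let R : ((Fin 7 → Fin 7 → C(Hyp, ℝ)) × (C(Hyp, ℝ) × C(Hyp, ℝ))) → C(Hyp, Fin 7 → ℝ) := fun h =>
    ⟨fun p => Psi (fun a j => h.1 a j p, (h.2.1 p, h.2.2 p)), by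
      apply contDiff_Psi.continuous.comp
      fun_prop⟩
  have hR : Continuous R := by
    apply ContinuousMap.continuous_of_continuous_uncurry
    have : Continuous fun q : ((Fin 7 → Fin 7 → C(Hyp, ℝ)) × (C(Hyp, ℝ) × C(Hyp, ℝ))) × Hyp =>
        (((fun a j => q.1.1 a j q.2), (q.1.2.1 q.2, q.1.2.2 q.2)) :
          (Fin 7 → Fin 7 → ℝ) × (ℝ × ℝ)) := by
      fun_prop
    exact contDiff_Psi.continuous.comp this
  have e : ∀ (F : C(TangentBundle 𝓘(ℝ, VM) Mfd, ℝ)) (s : C(Hyp, TangentBundle 𝓘(ℝ, VS) Hyp)),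
      Continuous fun T : C(TangentBundle 𝓘(ℝ, VS) Hyp, TangentBundle 𝓘(ℝ, VM) Mfd) =>
        F.comp (T.comp s) := fun F s =>
    (ContinuousMap.continuous_postcomp F).comp (ContinuousMap.continuous_precomp s)
  let cf : Fin 7 → C(TangentBundle 𝓘(ℝ, VM) Mfd, ℝ) := fun j =>
    ⟨ctf j, (contMDiff_ctf j).continuous⟩
  let fr : Fin 7 → C(Hyp, TangentBundle 𝓘(ℝ, VS) Hyp) := fun a =>
    ⟨frS a, (contMDiff_frS a).continuous⟩
  let cr : C(TangentBundle 𝓘(ℝ, VM) Mfd, ℝ) := ⟨fun v => rM v.1, contMDiff_rM'.continuous⟩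
  let cs : C(TangentBundle 𝓘(ℝ, VM) Mfd, ℝ) := ⟨fun v => sM v.1, contMDiff_sM'.continuous⟩
  have h1 : Zc = fun T => R (fun a j => (cf j).comp (T.comp (fr a)),
      (cr.comp (T.comp (fr 6)), cs.comp (T.comp (fr 6)))) := by
    funext T
    rfl
  rw [h1]
  exact hR.comp ((continuous_pi fun a => continuous_pi fun j => e (cf j) (fr a)).prodMk
    ((e cr (fr 6)).prodMk (e cs (fr 6))))

end Pool.Agent.Y521
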