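import Mathlib
import Pool.Agent.Y521.Zg
import Pool.Agent.Y521.Flw
import Pool.Agent.Y521.NoNP

/-!
# Convex hypersurfaces and the kernel vector field
-/

open scoped Topology ContDiff Manifold Matrix
open Set Pool.Agent.W630 Pool.Agent.Helper186

noncomputable section

namespace Pool.Agent.Y521

/-- coordinates of a tangent vector of the contact manifold -/
def cc (x : Mfd) (u : TangentSpace 𝓘(ℝ, VM) x) : Fin 7 → ℝ := fun j => cofM j x u

lemma cc_add (x : Mfd) (u w : TangentSpace 𝓘(ℝ, VM) x) : cc x (u + w) = cc x u + cc x w := by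
  funext j; exact map_add _ _ _

lemma cc_smul (x : Mfd) (c : ℝ) (u : TangentSpace 𝓘(ℝ, VM) x) : cc x (c • u) = c • cc x u := by
  funext j; exact map_smul _ _ _

lemma cc_zero (x : Mfd) : cc x 0 = 0 := by funext j; exact map_zero _

lemma cc_sum (x : Mfd) (a : Fin 7 → ℝ) (u : Fin 7 → TangentSpace 𝓘(ℝ, VM) x) :
    cc x (∑ j, a j • u j) = ∑ j, a j • cc x (u j) := by
  simp only [Fin.sum_univ_succ, Fin.sum_univ_zero, cc_add, cc_smul, cc_zero]

lemma bet_sum (a : Fin 7 → ℝ) (D : Fin 7 → Fin 7 → ℝ) (r s : ℝ) :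
    bet (∑ j, a j • D j) r s = ∑ j, a j * bet (D j) r s := by
  simp only [Fin.sum_univ_succ, Fin.sum_univ_zero, bet, Pi.add_apply, Pi.smul_apply, smul_eq_mul,
    Pi.zero_apply]
  ring

lemma omg_sum (a : Fin 7 → ℝ) (D : Fin 7 → Fin 7 → ℝ) (b : Fin 7 → ℝ) (r s : ℝ) :
    omg b (∑ j, a j • D j) r s = ∑ j, a j * omg b (D j) r s := by
  simp only [Fin.sum_univ_succ, Fin.sum_univ_zero, omg, Pi.add_apply, Pi.smul_apply, smul_eq_mul,
    Pi.zero_apply]
  ring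

section Alg

variable (D : Fin 7 → Fin 7 → ℝ) (r s : ℝ)

/-- the coordinates of the characteristic vector -/
def Av : Fin 7 → ℝ := ∑ j, Psi (D, (r, s)) j • D j

lemma Av_bet (h6 : D 6 = 0) : bet (Av D r s) r s = 0 := by
  have h := Psi_ker D r s 6
  unfold Av
  rw [bet_sum]
  have hb : bet (D 6) r s = 0 := by rw [h6]; simp [bet]
  have e : ∀ j : Fin 7, Psi (D, (r, s)) j * bet (D j) r s =
      -(Kmat D r s 6 j * Psi (D, (r, s)) j) := by
    intro j
    by_cases hj : j = 6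
    · subst hj; simp [Kmat, hb]
    · simp [Kmat, hj]; ring
  rw [Finset.sum_congr rfl fun j _ => e j, Finset.sum_neg_distrib, h, neg_zero]

lemma Av_omg (i : Fin 7) (hi : i ≠ 6) (h6 : D 6 = 0) :
    omg (Av D r s) (D i) r s = Psi (D, (r, s)) 6 * bet (D i) r s := by
  have h := Psi_ker D r s i
  rw [omg_skew (D i) (Av D r s)]
  unfold Av
  rw [omg_sum]
  have ho : omg (D i) (D 6) r s = 0 := by rw [h6]; simp [omg]
  have e : ∀ j : Fin 7, Psi (D, (r, s)) j * omg (D i) (D j) r s =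
      Kmat D r s i j * Psi (D, (r, s)) j - (if j = 6 then Psi (D, (r, s)) 6 * bet (D i) r s else 0) := by
    intro j
    by_cases hj : j = 6
    · subst hj; simp [Kmat, hi, ho]; ring
    · simp [Kmat, hj, hi]; ring
  rw [Finset.sum_congr rfl fun j _ => e j, Finset.sum_sub_distrib, h]
  simp

end Alg

section Geo

variable {g : Hyp → Mfd}

/-- the data of the hypersurface -/
lemma Dt_tan (g : Hyp → Mfd) (p : Hyp) :
    Dt (tangentMap 𝓘(ℝ, VS) 𝓘(ℝ, VM) g) p =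
      (fun a => cc (g p) (mfderiv 𝓘(ℝ, VS) 𝓘(ℝ, VM) g p (frH a p)), (rM (g p), sM (g p))) := rfl

/-- The kernel vector of a hypersurface. -/
def zz (g : Hyp → Mfd) (p : Hyp) : Fin 7 → ℝ := Zt (tangentMap 𝓘(ℝ, VS) 𝓘(ℝ, VM) g) p

lemma frH_six (p : Hyp) : frH 6 p = 0 := by
  obtain ⟨v, rfl⟩ := qm_surj p
  rw [frH_qm]
  have : frV 6 v = 0 := rfl
  rw [this]
  exact map_zero (dq GS v)

/-- The characteristic vector field. -/
def Xh (g : Hyp → Mfd) (p : Hyp) : TangentSpace 𝓘(ℝ, VS) p := ∑ j, zz g p j • frH j p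

/-- the coordinates of the image of the characteristic vector field -/
def Ah' (g : Hyp → Mfd) (p : Hyp) : Fin 7 → ℝ :=
  Av (fun a => cc (g p) (mfderiv 𝓘(ℝ, VS) 𝓘(ℝ, VM) g p (frH a p))) (rM (g p)) (sM (g p))

lemma cc_Xh (g : Hyp → Mfd) (p : Hyp) :
    cc (g p) (mfderiv 𝓘(ℝ, VS) 𝓘(ℝ, VM) g p (Xh g p)) = Ah' g p := by
  unfold Xh Ah' Av
  have h1 : mfderiv 𝓘(ℝ, VS) 𝓘(ℝ, VM) g p (∑ j, zz g p j • frH j p) =
      ∑ j, zz g p j • mfderiv 𝓘(ℝ, VS) 𝓘(ℝ, VM) g p (frH j p) := by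
    rw [map_sum]
    refine Finset.sum_congr rfl fun j _ => ?_
    rw [map_smul]
  rw [h1, cc_sum]
  rfl

lemma D6_zero (g : Hyp → Mfd) (p : Hyp) :
    cc (g p) (mfderiv 𝓘(ℝ, VS) 𝓘(ℝ, VM) g p (frH 6 p)) = 0 := by
  rw [frH_six, map_zero, cc_zero]

lemma bet_Ah' (g : Hyp → Mfd) (p : Hyp) : bet (Ah' g p) (rM (g p)) (sM (g p)) = 0 :=
  Av_bet _ _ _ (D6_zero g p)

lemma frH_span (p : Hyp) (u : TangentSpace 𝓘(ℝ, VS) p) : ∃ a : Fin 7 → ℝ,
    u = ∑ j, a j • frH j p := by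
  obtain ⟨v, rfl⟩ := qm_surj p
  obtain ⟨u', rfl⟩ := dq_surjective (G := GS) v u
  obtain ⟨a, ha⟩ := frV_span v u'
  refine ⟨a, ?_⟩
  have h1 : dq GS v u' = ∑ j, a j • dq GS v (frV j v) := by
    conv_lhs => rw [ha]
    rw [map_sum]
    refine Finset.sum_congr rfl fun j _ => ?_
    rw [map_smul]
  refine h1.trans ?_
  refine Finset.sum_congr rfl fun j _ => ?_
  rw [frH_qm]
  rfl

lemma omg_Ah' (g : Hyp → Mfd) (p : Hyp) (u : TangentSpace 𝓘(ℝ, VS) p) :
    omg (Ah' g p) (cc (g p) (mfderiv 𝓘(ℝ, VS) 𝓘(ℝ, VM) g p u)) (rM (g p)) (sM (g p)) =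
      zz g p 6 * bet (cc (g p) (mfderiv 𝓘(ℝ, VS) 𝓘(ℝ, VM) g p u)) (rM (g p)) (sM (g p)) := by
  obtain ⟨a, ha⟩ := frH_span p u
  have h1 : cc (g p) (mfderiv 𝓘(ℝ, VS) 𝓘(ℝ, VM) g p u) =
      ∑ j, a j • cc (g p) (mfderiv 𝓘(ℝ, VS) 𝓘(ℝ, VM) g p (frH j p)) := by
    rw [ha, map_sum, ← cc_sum]
    congr 1
    refine Finset.sum_congr rfl fun j _ => ?_
    rw [map_smul]
  rw [h1, omg_sum, bet_sum, Finset.mul_sum]
  refine Finset.sum_congr rfl fun j _ => ?_
  by_cases hj : j = 6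
  · subst hj
    rw [D6_zero]
    simp [omg, bet]
  · have := Av_omg (fun a => cc (g p) (mfderiv 𝓘(ℝ, VS) 𝓘(ℝ, VM) g p (frH a p))) (rM (g p))
      (sM (g p)) j hj (D6_zero g p)
    show a j * omg (Ah' g p) _ _ _ = _
    unfold Ah'
    rw [this]
    show a j * (zz g p 6 * _) = _
    ring

lemma Xh_eq_zero (p : Hyp) (h : Xh g p = 0) : ∀ j : Fin 7, j ≠ 6 → zz g p j = 0 := by
  obtain ⟨v, rfl⟩ := qm_surj p
  apply frV_indep v
  apply dq_injective (G := GS) v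
  rw [map_zero, map_sum]
  refine Eq.trans ?_ h
  unfold Xh
  refine Finset.sum_congr rfl fun j _ => ?_
  rw [frH_qm, map_smul]
  rfl

/-- Every tangent vector of the contact manifold is a combination of a tangent vector of the
hypersurface and of a transverse vector. -/
lemma exists_decomp {p : Hyp} (hg : Function.Injective (mfderiv 𝓘(ℝ, VS) 𝓘(ℝ, VM) g p))
    {v : TangentSpace 𝓘(ℝ, VM) (g p)} (hv : v ∉ range (mfderiv 𝓘(ℝ, VS) 𝓘(ℝ, VM) g p))
    (w : TangentSpace 𝓘(ℝ, VM) (g p)) :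
    ∃ (u : TangentSpace 𝓘(ℝ, VS) p) (c : ℝ), w = mfderiv 𝓘(ℝ, VS) 𝓘(ℝ, VM) g p u + c • v := by
  let L : VS →ₗ[ℝ] VM := (mfderiv 𝓘(ℝ, VS) 𝓘(ℝ, VM) g p : VS →L[ℝ] VM).toLinearMap
  let v' : VM := v
  let M : (VS × ℝ) →ₗ[ℝ] VM := L.coprod (LinearMap.toSpanSingleton ℝ VM v')
  have hM : Function.Injective M := by
    rw [← LinearMap.ker_eq_bot, LinearMap.ker_eq_bot']
    rintro ⟨u, c⟩ h
    have h1 : L u + c • v' = 0 := h
    have hc : c = 0 := by
      by_contra hc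
      apply hv
      refine ⟨(-(c⁻¹) • u : VS), ?_⟩
      have h2 : L (-(c⁻¹) • u) = v' := by
        rw [map_smul]
        have h3 : L u = -(c • v') := eq_neg_of_add_eq_zero_left h1
        rw [h3, smul_neg, neg_smul, neg_neg, smul_smul, inv_mul_cancel₀ hc, one_smul]
      exact h2
    subst hc
    rw [zero_smul, add_zero] at h1
    have : u = 0 := hg (h1.trans (map_zero L).symm)
    rw [this]
    rfl
  have hdim : Module.finrank ℝ (VS × ℝ) = Module.finrank ℝ VM := by simp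
  have hS : Function.Surjective M := (LinearMap.injective_iff_surjective_of_finrank_eq_finrank
    hdim).1 hM
  obtain ⟨⟨u, c⟩, h⟩ := hS w
  exact ⟨u, c, h.symm⟩

/-- **The key algebraic fact**: along a convex hypersurface. -/
theorem char_ne {p : Hyp} (hg : Function.Injective (mfderiv 𝓘(ℝ, VS) 𝓘(ℝ, VM) g p))
    (hz : zz g p ≠ 0)
    {v : TangentSpace 𝓘(ℝ, VM) (g p)} (hv : v ∉ range (mfderiv 𝓘(ℝ, VS) 𝓘(ℝ, VM) g p)) :
    omg (Ah' g p) (cc (g p) v) (rM (g p)) (sM (g p)) -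
      zz g p 6 * bet (cc (g p) v) (rM (g p)) (sM (g p)) ≠ 0 := by
  intro h
  apply hz
  have key : ∀ b, omg (Ah' g p) b (rM (g p)) (sM (g p)) = zz g p 6 * bet b (rM (g p)) (sM (g p)) := by
    intro b
    obtain ⟨w, hw⟩ := exists_cofM (g p) b
    obtain ⟨u, c, huc⟩ := exists_decomp hg hv w
    have h1 : b = cc (g p) (mfderiv 𝓘(ℝ, VS) 𝓘(ℝ, VM) g p u) + c • cc (g p) v := by
      rw [← hw]
      show cc (g p) w = _
      rw [huc, cc_add, cc_smul]
    have h2 := omg_Ah' g p u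
    rw [h1]
    set a := Ah' g p
    set x := cc (g p) (mfderiv 𝓘(ℝ, VS) 𝓘(ℝ, VM) g p u)
    set y := cc (g p) v
    set r := rM (g p)
    set s := sM (g p)
    have e1 : omg a (x + c • y) r s = omg a x r s + c * omg a y r s := by
      simp only [omg, Pi.add_apply, Pi.smul_apply, smul_eq_mul]; ring
    have e2 : bet (x + c • y) r s = bet x r s + c * bet y r s := by
      simp only [bet, Pi.add_apply, Pi.smul_apply, smul_eq_mul]; ring
    rw [e1, e2, h2]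
    have h3 : omg a y r s = zz g p 6 * bet y r s := by linarith
    rw [h3]
    ring
  obtain ⟨hA, hm⟩ := omg_char (bet_Ah' g p) key
  have h1 : mfderiv 𝓘(ℝ, VS) 𝓘(ℝ, VM) g p (Xh g p) = 0 := by
    apply cofM_zero
    exact (cc_Xh g p).trans hA
  have h2 : Xh g p = 0 := hg (h1.trans (map_zero _).symm)
  have h3 := Xh_eq_zero p h2
  funext j
  by_cases hj : j = 6
  · subst hj; exact hm
  · exact h3 j hj

end Geo

end Pool.Agent.Y521
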