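import Mathlib
import Pool.Agent.W630.Quot

/-!
# General lemmas on forms along curves
-/

open scoped Topology ContDiff Manifold Matrix
open Set Pool.Agent.W630 Pool.Agent.Helper186

noncomputable section

namespace Pool.Agent.Y521

section a

variable {E : Type*} [NormedAddCommGroup E] [NormedSpace ℝ E]
  {X : Type*} [TopologicalSpace X] [ChartedSpace E X] [IsManifold 𝓘(ℝ, E) ∞ X]
  {E' : Type*} [NormedAddCommGroup E'] [NormedSpace ℝ E']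
  {S : Type*} [TopologicalSpace S] [ChartedSpace E' S]

lemma contMDiffAt_form {α : OneForm E X}
    (hα : SmoothForm (I := 𝓘(ℝ, E)) α) {v : (x : X) → TangentSpace 𝓘(ℝ, E) x} {y : X}
    (hv : ContMDiffAt 𝓘(ℝ, E) 𝓘(ℝ, E).tangent ∞
      (fun x => (⟨x, v x⟩ : TangentBundle 𝓘(ℝ, E) X)) y) :
    ContMDiffAt 𝓘(ℝ, E) 𝓘(ℝ, ℝ) ∞ (fun y => α y (v y)) y :=
  hα.comp hv le_rfl

/-- The derivative of `α (v)` along a curve. -/
lemma hasDerivAt_form_curve {α : OneForm E X}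
    (hα : SmoothForm (I := 𝓘(ℝ, E)) α) {v : (x : X) → TangentSpace 𝓘(ℝ, E) x} {g : S → X}
    {c : ℝ → S} {t : ℝ}
    (hv : ContMDiffAt 𝓘(ℝ, E) 𝓘(ℝ, E).tangent ∞
      (fun x => (⟨x, v x⟩ : TangentBundle 𝓘(ℝ, E) X)) (g (c t)))
    (hg : MDifferentiableAt 𝓘(ℝ, E') 𝓘(ℝ, E) g (c t))
    {w : TangentSpace 𝓘(ℝ, E') (c t)}
    (hc : HasMFDerivAt 𝓘(ℝ, ℝ) 𝓘(ℝ, E') c t
      (ContinuousLinearMap.toSpanSingleton ℝ (w : E') : ℝ →L[ℝ] E')) :
    HasDerivAt (fun t => α (g (c t)) (v (g (c t))))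
      (show ℝ from mfderiv 𝓘(ℝ, E) 𝓘(ℝ, ℝ) (fun y => α y (v y)) (g (c t))
        (mfderiv 𝓘(ℝ, E') 𝓘(ℝ, E) g (c t) w)) t := by
  have h1 := ((contMDiffAt_form hα hv).mdifferentiableAt (by simp)).hasMFDerivAt
  have h2 := (h1.comp (c t) hg.hasMFDerivAt).comp t hc
  let D1 : E →L[ℝ] ℝ := mfderiv 𝓘(ℝ, E) 𝓘(ℝ, ℝ) (fun y => α y (v y)) (g (c t))
  let D2 : E' →L[ℝ] E := mfderiv 𝓘(ℝ, E') 𝓘(ℝ, E) g (c t)
  have h3 : HasFDerivAt (fun t => α (g (c t)) (v (g (c t))))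
      ((D1.comp D2).comp (ContinuousLinearMap.toSpanSingleton ℝ (w : E'))) t :=
    hasMFDerivAt_iff_hasFDerivAt.1 h2
  refine h3.hasDerivAt.congr_deriv ?_
  have e1 : (ContinuousLinearMap.toSpanSingleton ℝ (w : E')) (1 : ℝ) = w := by
    rw [ContinuousLinearMap.toSpanSingleton_apply, one_smul]
  exact congrArg (fun z : E' => (show ℝ from mfderiv 𝓘(ℝ, E) 𝓘(ℝ, ℝ) (fun y => α y (v y)) (g (c t))
        (mfderiv 𝓘(ℝ, E') 𝓘(ℝ, E) g (c t) z))) e1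

end a

section b

variable {G : Type*} {V : Type*} [NormedAddCommGroup V] [NormedSpace ℝ V] [FiniteDimensional ℝ V]
  [Group G] [MulAction G V] [ProperlyDiscontinuousSMul G V] [ContinuousConstSMul G V]
  [IsCancelSMul G V] [SmoothAct G V]

/-- The image of a curve in the quotient. -/
lemma hasMFDerivAt_qm_curve {γ : ℝ → V} {t : ℝ} {u : V} (h : HasDerivAt γ u t) :
    HasMFDerivAt 𝓘(ℝ, ℝ) 𝓘(ℝ, V) (fun t => qm G (γ t)) t
      (ContinuousLinearMap.toSpanSingleton ℝ (dq G (γ t) u) : ℝ →L[ℝ] V) := by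
  have h2 := (mdiff_qm (G := G) (γ t)).hasMFDerivAt.comp t h.hasFDerivAt.hasMFDerivAt
  have h5 : ((dq G (γ t)).comp (ContinuousLinearMap.toSpanSingleton ℝ u) :
      ℝ →L[ℝ] V) = ContinuousLinearMap.toSpanSingleton ℝ (dq G (γ t) u) := by
    ext
    simp
  have h4 : HasMFDerivAt 𝓘(ℝ, ℝ) 𝓘(ℝ, V) (fun t => qm G (γ t)) t
    ((dq G (γ t)).comp (ContinuousLinearMap.toSpanSingleton ℝ u) : ℝ →L[ℝ] V) := h2
  rw [h5] at h4
  exact h4

end b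

end Pool.Agent.Y521
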