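import Mathlib
import Pool.Agent.Y521.Cvx
import Pool.Agent.Y521.Gen

/-!
# Orbits from the negative to the positive region exclude convexity
-/

open scoped Topology ContDiff Manifold Matrix
open Set Pool.Agent.W630 Pool.Agent.Helper186

noncomputable section

namespace Pool.Agent.Y521

variable {g : Hyp → Mfd}

lemma contMDiff_Dt (hg : ContMDiff 𝓘(ℝ, VS) 𝓘(ℝ, VM) ∞ g) :
    ContMDiff 𝓘(ℝ, VS) 𝓘(ℝ, (Fin 7 → Fin 7 → ℝ) × (ℝ × ℝ)) ∞
      (Dt (tangentMap 𝓘(ℝ, VS) 𝓘(ℝ, VM) g)) := by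
  have ht : ContMDiff 𝓘(ℝ, VS).tangent 𝓘(ℝ, VM).tangent ∞ (tangentMap 𝓘(ℝ, VS) 𝓘(ℝ, VM) g) :=
    ContMDiff.contMDiff_tangentMap (n := ∞) hg (by simp)
  have h1 : ∀ a, ContMDiff 𝓘(ℝ, VS) 𝓘(ℝ, VM).tangent ∞
      fun p => tangentMap 𝓘(ℝ, VS) 𝓘(ℝ, VM) g (frS a p) := fun a => ht.comp (contMDiff_frS a)
  have h2 : ∀ a j, ContMDiff 𝓘(ℝ, VS) 𝓘(ℝ, ℝ) ∞
      fun p => ctf j (tangentMap 𝓘(ℝ, VS) 𝓘(ℝ, VM) g (frS a p)) := fun a j =>
    (contMDiff_ctf j).comp (h1 a)
  have h3 := contMDiff_rM'.comp (h1 6)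
  have h4 := contMDiff_sM'.comp (h1 6)
  have h5 : ContMDiff 𝓘(ℝ, VS) 𝓘(ℝ, Fin 7 → Fin 7 → ℝ) ∞
      fun p => (fun a j => ctf j (tangentMap 𝓘(ℝ, VS) 𝓘(ℝ, VM) g (frS a p)) :
        Fin 7 → Fin 7 → ℝ) :=
    contMDiff_pi_space.2 fun a => contMDiff_pi_space.2 fun j => h2 a j
  exact h5.prodMk_space (h3.prodMk_space h4)

lemma contMDiff_zz (hg : ContMDiff 𝓘(ℝ, VS) 𝓘(ℝ, VM) ∞ g) :
    ContMDiff 𝓘(ℝ, VS) 𝓘(ℝ, Fin 7 → ℝ) ∞ (zz g) :=
  contDiff_Psi.contMDiff.comp (contMDiff_Dt hg)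

/-- The characteristic vector field on the cover. -/
def Xc (g : Hyp → Mfd) (v : VS) : VS := ∑ j, zz g (qm GS v) j • frV j v

lemma contDiff_Xc (hg : ContMDiff 𝓘(ℝ, VS) 𝓘(ℝ, VM) ∞ g) : ContDiff ℝ ∞ (Xc g) := by
  have h1 : ContDiff ℝ ∞ fun v : VS => zz g (qm GS v) :=
    ((contMDiff_zz hg).comp contMDiff_qm).contDiff
  have h2 : ∀ j, ContDiff ℝ ∞ fun v : VS => zz g (qm GS v) j := fun j => contDiff_pi.1 h1 j
  exact ContDiff.sum fun j _ => (h2 j).smul (contDiff_frV j)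

lemma Xc_inv (g : Hyp → Mfd) (a : GS) (v : VS) :
    Xc g (a • v) = fderiv ℝ (fun w : VS => a • w) v (Xc g v) := by
  show _ = dact a v (Xc g v)
  unfold Xc
  rw [map_sum]
  refine Finset.sum_congr rfl fun j _ => ?_
  rw [qm_smul, frV_inv, map_smul]

lemma dq_Xc (g : Hyp → Mfd) (v : VS) : dq GS v (Xc g v) = Xh g (qm GS v) := by
  unfold Xc Xh
  rw [map_sum]
  refine Finset.sum_congr rfl fun j _ => ?_
  rw [frH_qm, map_smul]
  rfl

lemma continuous_cc (hg : ContMDiff 𝓘(ℝ, VS) 𝓘(ℝ, VM) ∞ g) (a : Fin 7) :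
    Continuous fun p => cc (g p) (mfderiv 𝓘(ℝ, VS) 𝓘(ℝ, VM) g p (frH a p)) := by
  have h := (contMDiff_Dt hg).continuous
  exact (continuous_apply a).comp (continuous_fst.comp h)

lemma continuous_Ah' (hg : ContMDiff 𝓘(ℝ, VS) 𝓘(ℝ, VM) ∞ g) : Continuous (Ah' g) := by
  have h1 : Continuous (zz g) := (contMDiff_zz hg).continuous
  have h2 : Ah' g = fun p => ∑ j, zz g p j •
      cc (g p) (mfderiv 𝓘(ℝ, VS) 𝓘(ℝ, VM) g p (frH j p)) := rfl
  rw [h2]
  exact continuous_finsetSum _ fun j _ =>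
    ((continuous_apply j).comp h1).smul (continuous_cc hg j)

/-- A smooth vector field along the hypersurface has continuous coordinates. -/
lemma continuous_cc_field (hg : Continuous g) {U : Set Mfd}
    {v : (x : Mfd) → TangentSpace 𝓘(ℝ, VM) x}
    (hv : ContMDiffOn 𝓘(ℝ, VM) 𝓘(ℝ, VM).tangent ∞
      (fun x => (⟨x, v x⟩ : TangentBundle 𝓘(ℝ, VM) Mfd)) U) (hU : range g ⊆ U) :
    Continuous fun p => cc (g p) (v (g p)) := by
  refine continuous_pi fun j => ?_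
  have h1 : Continuous fun p => (⟨g p, v (g p)⟩ : TangentBundle 𝓘(ℝ, VM) Mfd) :=
    hv.continuousOn.comp_continuous hg fun p => hU (mem_range_self p)
  exact (contMDiff_ctf j).continuous.comp h1

/-- **An orbit from the negative to the positive region excludes convexity.** -/
theorem not_convex (hg : IsEmb VS VM g) (hz : ∀ p, zz g p ≠ 0) {γ : ℝ → VS}
    (hγ : ∀ t, HasDerivAt γ (Xc g (γ t)) t) {c T : ℝ} (hc : 0 < c)
    (hP : ∀ t, T ≤ t → c ≤ zz g (qm GS (γ t)) 6)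
    (hN : ∀ t, T ≤ t → zz g (qm GS (γ (-t))) 6 ≤ -c) : ¬ IsConvexHyp alM VS g := by
  rintro ⟨U, hU, hrU, v, hv, htr⟩
  have hcv := continuous_cc_field hg.smooth.continuous hv.smooth hrU
  have hγc : Continuous γ := continuous_iff_continuousAt.2 fun t => (hγ t).continuousAt
  have hq : Continuous fun t => qm GS (γ t) := continuous_qm.comp hγc
  have hrc : Continuous fun p => rM (g p) := contMDiff_rM.continuous.comp hg.smooth.continuous
  have hsc : Continuous fun p => sM (g p) := contMDiff_sM.continuous.comp hg.smooth.continuous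
  -- the function on the hypersurface
  let F : Hyp → ℝ := fun p => alM (g p) (v (g p))
  have hF : F = fun p => bet (cc (g p) (v (g p))) (rM (g p)) (sM (g p)) := by
    funext p; exact alM_eq _ _
  have hFc : Continuous F := by
    rw [hF]
    unfold bet
    fun_prop
  let F' : Hyp → ℝ := fun p => omg (Ah' g p) (cc (g p) (v (g p))) (rM (g p)) (sM (g p))
  have hA := continuous_Ah' hg.smooth
  have hF'c : Continuous F' := by
    show Continuous fun p => omg (Ah' g p) (cc (g p) (v (g p))) (rM (g p)) (sM (g p))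
    unfold omg
    fun_prop
  have hzc : Continuous fun p => zz g p 6 :=
    (continuous_apply 6).comp (contMDiff_zz hg.smooth).continuous
  obtain ⟨K, hK⟩ := isCompact_univ.exists_bound_of_continuousOn (f := F) hFc.continuousOn
  -- the derivative along the orbit
  have hder : ∀ t, HasDerivAt (fun t => F (qm GS (γ t))) (F' (qm GS (γ t))) t := by
    intro t
    have hUp : g (qm GS (γ t)) ∈ U := hrU (mem_range_self _)
    have hvs : ContMDiffAt 𝓘(ℝ, VM) 𝓘(ℝ, VM).tangent ∞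
        (fun x => (⟨x, v x⟩ : TangentBundle 𝓘(ℝ, VM) Mfd)) (g (qm GS (γ t))) :=
      hv.smooth.contMDiffAt (hU.mem_nhds hUp)
    have hgd := (hg.smooth (qm GS (γ t))).mdifferentiableAt (by simp)
    have h1 := hasDerivAt_form_curve (c := fun t => qm GS (γ t)) (t := t) smooth_alM hvs hgd
      (hasMFDerivAt_qm_curve (G := GS) (hγ t))
    refine h1.congr_deriv ?_
    rw [dq_Xc g (γ t)]
    set p := qm GS (γ t) with hp
    set w : TangentSpace 𝓘(ℝ, VM) (g p) := mfderiv 𝓘(ℝ, VS) 𝓘(ℝ, VM) g p (Xh g p) with hw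
    obtain ⟨h, hh⟩ := hv.lie (g p) hUp
    have h4 := hh w
    have h5 : alM (g p) w = 0 := by
      rw [alM_eq]
      have := cc_Xh g p
      show bet (cc (g p) w) _ _ = 0
      rw [hw, this]
      exact bet_Ah' g p
    rw [h5, mul_zero] at h4
    have h6 : dd alM (g p) (v (g p)) w = -F' p := by
      rw [dd_alM]
      show omg (cc (g p) (v (g p))) (cc (g p) w) _ _ = _
      rw [hw, cc_Xh, omg_skew]
    rw [h6] at h4
    exact eq_of_sub_eq_zero (by linarith)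
  refine no_NP (f := fun t => F (qm GS (γ t))) (f' := fun t => F' (qm GS (γ t)))
    (m := fun t => zz g (qm GS (γ t)) 6) hc hder ?_ ?_ hP hN (K := K) ?_
  · intro t
    have := char_ne (hg.immersion (qm GS (γ t))) (hz _) (htr (qm GS (γ t)))
    rw [hF]
    exact this
  · exact (hF'c.comp hq).sub ((hzc.comp hq).mul (hFc.comp hq))
  · intro t
    exact hK _ (mem_univ _)

end Pool.Agent.Y521
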