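import Mathlib
import Pool.Agent.Y521.Asm2
import Pool.Agent.Y521.Cvx2

/-!
# The main theorem
-/

open scoped Topology ContDiff Manifold Matrix
open Set Pool.Agent.W630 Pool.Agent.Helper186

noncomputable section

namespace Pool.Agent.Y521

variable {κ : VS → ℝ}

lemma cc_of_eq {x : Mfd} {w u : VM} (h : x = qm GM w) :
    cc x (show TangentSpace 𝓘(ℝ, VM) x from (dq GM w u : VM)) = fun j => cofV j w u := by
  subst h
  funext j
  exact cofM_dq j w u

/-- The kernel vector of the model hypersurface. -/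
lemma zz_model (hκ : Pert κ) (v : VS) :
    zz (fM κ) (qm GS v) = Zf v.1.1 v.1.2 (qv κ v) := by
  have h0 := fM_qm hκ v
  have h1 : ∀ a, cc (fM κ (qm GS v)) (mfderiv 𝓘(ℝ, VS) 𝓘(ℝ, VM) (fM κ) (qm GS v)
      (frH a (qm GS v))) = Df v.1.1 v.1.2 (qv κ v) a := by
    intro a
    rw [frH_qm]
    have h2 := mfderiv_fM hκ v (frV a v)
    refine (congrArg (cc (fM κ (qm GS v))) h2).trans ?_
    refine (cc_of_eq h0).trans ?_
    funext j
    exact cofV_Fm hκ v a j
  have h2 : rM (fM κ (qm GS v)) = Real.exp (Real.cos v.1.2 + κ v) * Real.cos v.1.1 := by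
    rw [h0, rM_qm]; rfl
  have h3 : sM (fM κ (qm GS v)) = Real.sin v.1.2 := by
    rw [h0, sM_qm]; rfl
  show Psi (fun a => cc (fM κ (qm GS v)) (mfderiv 𝓘(ℝ, VS) 𝓘(ℝ, VM) (fM κ) (qm GS v)
      (frH a (qm GS v))), (rM (fM κ (qm GS v)), sM (fM κ (qm GS v)))) = _
  rw [h2, h3]
  unfold Zf
  have h4 : (fun a => cc (fM κ (qm GS v)) (mfderiv 𝓘(ℝ, VS) 𝓘(ℝ, VM) (fM κ) (qm GS v)
      (frH a (qm GS v)))) = Df v.1.1 v.1.2 (qv κ v) := funext h1
  rw [h4]
  rfl

/-- components of the vector field on the cover -/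
lemma Xc_fst (g : Hyp → Mfd) (v : VS) : (Xc g v).1.1 = zz g (qm GS v) 0 := by
  unfold Xc
  simp [Fin.sum_univ_succ, frV, Fin.succ]

lemma Xc_snd (g : Hyp → Mfd) (v : VS) : (Xc g v).1.2 = zz g (qm GS v) 1 := by
  unfold Xc
  simp [Fin.sum_univ_succ, frV, Fin.succ]

lemma Xc_y (g : Hyp → Mfd) (v : VS) :
    (Xc g v).2 = Fyz (fun v => zz g (qm GS v)) v.1.1 v.1.2 v.2 := by
  unfold Xc Fyz
  rw [Prod.snd_sum]
  rfl

/-- The hypersurfaces near the model are not convex. -/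
theorem exists_model : ∃ (κ : VS → ℝ), Pert κ ∧ ∃ ε > 0, ∀ g : Hyp → Mfd, IsEmb VS VM g →
    (∀ p, ‖zz g p - zz (fM κ) p‖ < ε) → ¬ IsConvexHyp alM VS g := by
  obtain ⟨w, c0, ε, hε, hmain⟩ := exists_constants
  have hκ := pert_kap w c0
  -- the kernel vector is bounded away from zero
  have hzc : Continuous (zz (fM (kap w c0))) := (contMDiff_zz (contMDiff_fM hκ)).continuous
  have hz0 : ∀ p, zz (fM (kap w c0)) p ≠ 0 := by
    intro p
    obtain ⟨v, rfl⟩ := qm_surj p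
    rw [zz_model hκ]
    exact Zf_ne_zero _ _ _
  obtain ⟨ε0, hε0, hlow⟩ : ∃ ε0 > 0, ∀ p, ε0 ≤ ‖zz (fM (kap w c0)) p‖ := by
    obtain ⟨p0, -, hp0⟩ := isCompact_univ.exists_isMinOn (univ_nonempty (α := Hyp))
      hzc.norm.continuousOn
    exact ⟨‖zz (fM (kap w c0)) p0‖, norm_pos_iff.2 (hz0 p0), fun p => hp0 (mem_univ p)⟩
  refine ⟨kap w c0, hκ, min ε ε0, by positivity, fun g hg hclose => ?_⟩
  have hzg : ∀ p, zz g p ≠ 0 := by
    intro p h0
    have h1 := hclose p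
    rw [h0, zero_sub, norm_neg] at h1
    have h2 := hlow p
    have h3 : min ε ε0 ≤ ε0 := min_le_right _ _
    linarith
  obtain ⟨p, b, ya, yb, hF, hB, hK⟩ := hmain (fun v => zz g (qm GS v)) (by
    intro v j
    have h1 := hclose (qm GS v)
    rw [zz_model hκ] at h1
    have h2 := norm_le_pi_norm (zz g (qm GS v) - Zf v.1.1 v.1.2 (qv (kap w c0) v)) j
    rw [Real.norm_eq_abs] at h2
    have h3 : min ε ε0 ≤ ε := min_le_left _ _
    exact h2.trans (by linarith))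
  obtain ⟨Fl, h0, hd, hc⟩ := exists_flow_equiv (G := GS) (contDiff_Xc hg.smooth)
    (fun a v => Xc_inv g a v) isCompact_KS exists_smul_mem_KS
  obtain ⟨v, T, hv⟩ := exists_NP (p := p) (Ff := fun φ ψ y => zz g (qm GS ((φ, ψ), y)) 0)
    (Fp := fun φ ψ y => zz g (qm GS ((φ, ψ), y)) 1)
    (mu := fun φ ψ y => zz g (qm GS ((φ, ψ), y)) 6) (b := b)
    (Fy := Fyz (fun v => zz g (qm GS v))) (ya := ya) (yb := yb) hF hB hK (Fl := Fl) hc h0
    (fun v => by
      refine ⟨fun t => ?_, fun t => ?_, fun t => ?_⟩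
      · have h1 := (hasFDerivAt_fst (𝕜 := ℝ) (p := (Fl v t).1)).comp_hasDerivAt t
          ((hasFDerivAt_fst (𝕜 := ℝ) (p := Fl v t)).comp_hasDerivAt t (hd v t))
        refine h1.congr_deriv ?_
        exact Xc_fst g (Fl v t)
      · have h1 := (hasFDerivAt_snd (𝕜 := ℝ) (p := (Fl v t).1)).comp_hasDerivAt t
          ((hasFDerivAt_fst (𝕜 := ℝ) (p := Fl v t)).comp_hasDerivAt t (hd v t))
        refine h1.congr_deriv ?_
        exact Xc_snd g (Fl v t)
      · have h1 := (hasFDerivAt_snd (𝕜 := ℝ) (p := Fl v t)).comp_hasDerivAt t (hd v t)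
        refine h1.congr_deriv ?_
        exact Xc_y g (Fl v t))
  exact not_convex hg hzg (γ := Fl v) (fun t => hd v t) p.c_pos (T := T)
    (fun t ht => (hv t ht).1) (fun t ht => (hv t ht).2)

/-- **Main theorem for the concrete manifolds.** -/
theorem main : ∃ f : EmbSpace VS Hyp VM Mfd,
    f ∉ closure {g : EmbSpace VS Hyp VM Mfd | IsConvexHyp alM VS g.1} := by
  obtain ⟨κ, hκ, ε, hε, h⟩ := exists_model
  refine ⟨⟨fM κ, isEmb_fM hκ⟩, ?_⟩
  set f : EmbSpace VS Hyp VM Mfd := ⟨fM κ, isEmb_fM hκ⟩ with hf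
  rw [mem_closure_iff]
  push Not
  have hcont : Continuous fun g : EmbSpace VS Hyp VM Mfd => Zc g.tan :=
    continuous_Zc.comp continuous_induced_dom
  refine ⟨{g | dist (Zc g.tan) (Zc f.tan) < ε}, isOpen_lt (hcont.dist continuous_const)
    continuous_const, by simpa using hε, ?_⟩
  rw [← Set.not_nonempty_iff_eq_empty]
  rintro ⟨g, hg1, hg2⟩
  refine h g.1 g.2 (fun p => ?_) hg2
  have h1 : dist (Zc g.tan p) (Zc f.tan p) ≤ dist (Zc g.tan) (Zc f.tan) :=
    ContinuousMap.dist_apply_le_dist p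
  rw [dist_eq_norm] at h1
  exact lt_of_le_of_lt h1 hg1

end Pool.Agent.Y521
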