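import Mathlib

/-!
A compact path connected subset `XX` of `ℝ⁵` consisting of countably many arcs
`t ↦ Phi (t, s, s')` with the common initial point `pp`, and the auxiliary facts about it.
-/

namespace Pool.Agent.Y521.GC

open Set

/-- The parameter set `{0} ∪ {1/(n+1)}`. -/
def SS : Set ℝ := insert 0 (range fun n : ℕ => 1 / ((n : ℝ) + 1))

/-- Horizontal coordinate of the arcs. -/
noncomputable def hh (t : ℝ) : ℝ := min (t - 1 / 4) 0 + max (t - 3 / 4) 0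

/-- Vertical coordinate of the arcs (depth in the middle branch). -/
noncomputable def vv (s t : ℝ) : ℝ := max 0 (min (min (t - 1 / 4) (3 / 4 - t)) (1 / 4 - s / 8))

/-- The parametrisation. -/
noncomputable def Phi (q : ℝ × ℝ × ℝ) : ℝ × ℝ × ℝ × ℝ × ℝ :=
  (hh q.1, vv q.2.1 q.1, q.1 * q.2.1 * q.2.2, q.1 * q.2.1 * q.2.2 * q.2.1,
    q.1 * q.2.1 * q.2.2 * q.2.2)

/-- The continuum. -/
def XX : Set (ℝ × ℝ × ℝ × ℝ × ℝ) := Phi '' (Icc (0 : ℝ) 1 ×ˢ SS ×ˢ SS)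

/-- The base point. -/
noncomputable def pp : ℝ × ℝ × ℝ × ℝ × ℝ := (-1 / 4, 0, 0, 0, 0)

/-- The arc with parameters `s`, `s'` without its initial point. -/
def legO (s s' : ℝ) : Set (ℝ × ℝ × ℝ × ℝ × ℝ) := (fun t => Phi (t, s, s')) '' Ioc (0 : ℝ) 1

/-- The arc with parameters `s`, `s'`. -/
def leg (s s' : ℝ) : Set (ℝ × ℝ × ℝ × ℝ × ℝ) := (fun t => Phi (t, s, s')) '' Icc (0 : ℝ) 1

theorem continuous_hh : Continuous hh := by unfold hh; fun_prop

theorem continuous_Phi : Continuous Phi := by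
  unfold Phi hh vv
  fun_prop

theorem Phi_zero (s s' : ℝ) : Phi (0, s, s') = pp := by
  have h1 : min ((0 : ℝ) - 1 / 4) 0 = -1 / 4 := by rw [min_eq_left] <;> norm_num
  have h2 : max ((0 : ℝ) - 3 / 4) 0 = 0 := by rw [max_eq_right]; norm_num
  have h3 : max 0 (min (min ((0 : ℝ) - 1 / 4) (3 / 4 - 0)) (1 / 4 - s / 8)) = 0 := by
    apply max_eq_left
    exact (min_le_left _ _).trans ((min_le_left _ _).trans (by norm_num))
  simp only [Phi, hh, vv, pp]
  rw [h1, h2, h3]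
  norm_num

theorem isCompact_SS : IsCompact SS :=
  (tendsto_one_div_add_atTop_nhds_zero_nat (𝕜 := ℝ)).isCompact_insert_range

theorem SS_nonneg {s : ℝ} (hs : s ∈ SS) : 0 ≤ s := by
  rcases hs with rfl | ⟨n, rfl⟩
  · exact le_refl _
  · positivity

theorem SS_le_one {s : ℝ} (hs : s ∈ SS) : s ≤ 1 := by
  rcases hs with rfl | ⟨n, rfl⟩
  · norm_num
  · have : (0 : ℝ) ≤ n := n.cast_nonneg
    simp only
    rw [div_le_one (by positivity)]
    linarith

theorem zero_mem_SS : (0 : ℝ) ∈ SS := mem_insert _ _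

theorem inv_mem_SS (n : ℕ) : 1 / ((n : ℝ) + 1) ∈ SS := mem_insert_of_mem _ ⟨n, rfl⟩

theorem SS_finite {c : ℝ} (hc : 0 < c) : (SS ∩ Ici c).Finite := by
  obtain ⟨N, hN⟩ := exists_nat_gt (1 / c)
  refine ((Set.finite_lt_nat N).image (fun n : ℕ => 1 / ((n : ℝ) + 1))).subset ?_
  rintro s ⟨hs, hcs⟩
  rcases hs with rfl | ⟨n, rfl⟩
  · exact absurd (mem_Ici.1 hcs) (not_le.2 hc)
  · refine ⟨n, ?_, rfl⟩
    have h1 : c ≤ 1 / ((n : ℝ) + 1) := hcs
    have h2 : (n : ℝ) + 1 ≤ 1 / c := by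
      rw [le_div_iff₀ (by positivity)] at h1 ⊢
      linarith
    have h3 : (n : ℝ) < N := by linarith
    exact_mod_cast h3

/-- Nonzero points of `SS` are isolated. -/
theorem SS_isolated {s : ℝ} (hs0 : 0 < s) :
    ∃ δ > 0, ∀ r ∈ SS, |r - s| < δ → r ≠ s → False := by
  have hfin : (SS ∩ Ici (s / 2)).Finite := SS_finite (by positivity)
  have hfin2 : ((SS ∩ Ici (s / 2)) \ {s}).Finite := hfin.subset sdiff_subset
  have hopen : IsOpen (((SS ∩ Ici (s / 2)) \ {s})ᶜ) := hfin2.isClosed.isOpen_compl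
  have hs : s ∈ ((SS ∩ Ici (s / 2)) \ {s})ᶜ := fun h => h.2 rfl
  obtain ⟨δ, hδ, hball⟩ := Metric.isOpen_iff.1 hopen s hs
  refine ⟨min δ (s / 2), lt_min hδ (by positivity), fun r hr hrs hne => ?_⟩
  have h1 : r ∈ Metric.ball s δ := by
    rw [Metric.mem_ball, Real.dist_eq]
    exact lt_of_lt_of_le hrs (min_le_left _ _)
  refine hball h1 ⟨⟨hr, ?_⟩, hne⟩
  have h2 : |r - s| < s / 2 := lt_of_lt_of_le hrs (min_le_right _ _)
  have h3 := (abs_lt.1 h2).1
  rw [mem_Ici]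
  linarith

theorem isCompact_XX : IsCompact XX :=
  (isCompact_Icc.prod (isCompact_SS.prod isCompact_SS)).image continuous_Phi

theorem leg_subset {s s' : ℝ} (hs : s ∈ SS) (hs' : s' ∈ SS) : leg s s' ⊆ XX := by
  rintro _ ⟨t, ht, rfl⟩
  exact ⟨(t, s, s'), ⟨ht, hs, hs'⟩, rfl⟩

theorem legO_subset_leg {s s' : ℝ} : legO s s' ⊆ leg s s' :=
  image_mono Ioc_subset_Icc_self

theorem isClosed_leg (s s' : ℝ) : IsClosed (leg s s') := by
  apply IsCompact.isClosed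
  apply isCompact_Icc.image
  exact continuous_Phi.comp (by fun_prop)

theorem pp_mem_XX : pp ∈ XX :=
  ⟨(0, 0, 0), ⟨by simp, zero_mem_SS, zero_mem_SS⟩, Phi_zero _ _⟩

theorem mem_leg_iff {s s' : ℝ} {x : ℝ × ℝ × ℝ × ℝ × ℝ} :
    x ∈ leg s s' ↔ x = pp ∨ x ∈ legO s s' := by
  constructor
  · rintro ⟨t, ht, rfl⟩
    rcases ht.1.eq_or_lt with h | h
    · left
      simp only
      rw [← h, Phi_zero]
    · right
      exact ⟨t, ⟨h, ht.2⟩, rfl⟩
  · rintro (rfl | h)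
    · exact ⟨0, by simp, Phi_zero _ _⟩
    · exact legO_subset_leg h

/-- The arcs without initial point are disjoint. -/
theorem legO_inj {s s' r r' : ℝ} (hs : 0 < s) (hs' : 0 < s')
    {x : ℝ × ℝ × ℝ × ℝ × ℝ} (hx : x ∈ legO s s') {t : ℝ} (hxr : x = Phi (t, r, r')) :
    r = s ∧ r' = s' ∧ 0 < t := by
  obtain ⟨u, hu, rfl⟩ := hx
  simp only [Phi, Prod.mk.injEq] at hxr
  obtain ⟨-, -, h3, h4, h5⟩ := hxr
  have hpos : 0 < u * s * s' := mul_pos (mul_pos hu.1 hs) hs'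
  rw [h3] at h4 h5
  have hne : t * r * r' ≠ 0 := by rw [← h3]; exact hpos.ne'
  refine ⟨(mul_left_cancel₀ hne h4).symm, (mul_left_cancel₀ hne h5).symm, ?_⟩
  have e1 := mul_left_cancel₀ hne h4
  have e2 := mul_left_cancel₀ hne h5
  rw [e1, e2] at h3
  subst e1 e2
  have : u = t := by
    have h7 : u * (s * s') = t * (s * s') := by linarith
    exact mul_right_cancel₀ (mul_pos hs hs').ne' h7
  rw [← this]
  exact hu.1

theorem pp_not_mem_legO {s s' : ℝ} (hs : 0 < s) (hs' : 0 < s') : pp ∉ legO s s' := by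
  intro h
  have := legO_inj hs hs' h (Phi_zero s s').symm
  exact lt_irrefl _ this.2.2

/-- The arcs without initial point are open in `XX`. -/
theorem legO_open {s s' : ℝ} (hs : 0 < s) (hs' : 0 < s') (hsS : s ∈ SS) (hsS' : s' ∈ SS) :
    ∃ U : Set (ℝ × ℝ × ℝ × ℝ × ℝ), IsOpen U ∧ ∀ x ∈ XX, (x ∈ U ↔ x ∈ legO s s') := by
  obtain ⟨δ, hδ, h1⟩ := SS_isolated hs
  obtain ⟨δ', hδ', h2⟩ := SS_isolated hs'
  refine ⟨{x | 0 < x.2.2.1 ∧ |x.2.2.2.1 - x.2.2.1 * s| < x.2.2.1 * δ ∧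
    |x.2.2.2.2 - x.2.2.1 * s'| < x.2.2.1 * δ'}, ?_, ?_⟩
  · have o1 : IsOpen {x : ℝ × ℝ × ℝ × ℝ × ℝ | 0 < x.2.2.1} :=
      isOpen_lt continuous_const (by fun_prop)
    have o2 : IsOpen {x : ℝ × ℝ × ℝ × ℝ × ℝ |
        |x.2.2.2.1 - x.2.2.1 * s| < x.2.2.1 * δ} := isOpen_lt (by fun_prop) (by fun_prop)
    have o3 : IsOpen {x : ℝ × ℝ × ℝ × ℝ × ℝ |
        |x.2.2.2.2 - x.2.2.1 * s'| < x.2.2.1 * δ'} := isOpen_lt (by fun_prop) (by fun_prop)
    exact o1.inter (o2.inter o3)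
  · rintro _ ⟨⟨t, r, r'⟩, ⟨ht, hr, hr'⟩, rfl⟩
    simp only at ht hr hr'
    constructor
    · rintro ⟨h3, h4, h5⟩
      simp only [Phi] at h3 h4 h5
      have e1 : r = s := by
        by_contra hne
        refine h1 r hr ?_ hne
        rw [← mul_sub, abs_mul, abs_of_pos h3] at h4
        exact lt_of_mul_lt_mul_left h4 h3.le
      have e2 : r' = s' := by
        by_contra hne
        refine h2 r' hr' ?_ hne
        rw [← mul_sub, abs_mul, abs_of_pos h3] at h5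
        exact lt_of_mul_lt_mul_left h5 h3.le
      subst e1 e2
      refine ⟨t, ⟨?_, ht.2⟩, rfl⟩
      rcases ht.1.eq_or_lt with h | h
      · rw [← h] at h3
        simp at h3
      · exact h
    · intro h
      obtain ⟨rfl, rfl, h3⟩ := legO_inj hs hs' h rfl
      have h4 : 0 < t * r * r' := mul_pos (mul_pos h3 hs) hs'
      refine ⟨h4, ?_, ?_⟩
      · simp only [Phi, sub_self, abs_zero]
        exact mul_pos h4 hδ
      · simp only [Phi, sub_self, abs_zero]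
        exact mul_pos h4 hδ'

theorem hh_neg {t : ℝ} (h : hh t < 0) : t < 1 / 2 := by
  by_contra hc
  rw [not_lt] at hc
  have h1 : min (t - 1 / 4) 0 = 0 := min_eq_right (by linarith)
  have h2 := le_max_right (t - 3 / 4) 0
  unfold hh at h
  rw [h1] at h
  linarith

theorem hh_pos {t : ℝ} (h : 0 < hh t) : 1 / 2 < t := by
  by_contra hc
  rw [not_lt] at hc
  have h1 : max (t - 3 / 4) 0 = 0 := max_eq_right (by linarith)
  have h2 := min_le_right (t - 1 / 4) 0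
  unfold hh at h
  rw [h1] at h
  linarith

theorem vv_half {s : ℝ} (hs : s ∈ SS) : vv s (1 / 2) = 1 / 4 - s / 8 := by
  have h0 := SS_nonneg hs
  have h1 := SS_le_one hs
  unfold vv
  rw [min_eq_right (a := min ((1 : ℝ) / 2 - 1 / 4) (3 / 4 - 1 / 2))]
  · rw [max_eq_right]; linarith
  · rw [le_min_iff]; constructor <;> linarith

theorem vv_le {s : ℝ} (hs : s ∈ SS) (t : ℝ) : vv s t ≤ 1 / 4 - s / 8 := by
  have h1 := SS_le_one hs
  unfold vv
  rw [max_le_iff]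
  exact ⟨by linarith, min_le_right _ _⟩

/-- The last exit argument. -/
theorem last_exit {s s' : ℝ} (hs : 0 < s) (hs' : 0 < s') (hsS : s ∈ SS) (hsS' : s' ∈ SS)
    {π : ℝ → ℝ × ℝ × ℝ × ℝ × ℝ} (hc : Continuous π) (hX : ∀ t, π t ∈ XX) (h0 : π 0 = pp)
    (h1 : π 1 ∈ legO s s') :
    ∃ u, 0 ≤ u ∧ u ≤ 1 ∧ π u = pp ∧ ∀ t ∈ Icc u 1, π t ∈ leg s s' := by
  obtain ⟨U, hU, hUX⟩ := legO_open hs hs' hsS hsS'
  set A : Set ℝ := Icc 0 1 ∩ π ⁻¹' Uᶜ with hA
  have hAc : IsCompact A := isCompact_Icc.inter_right (hU.isClosed_compl.preimage hc)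
  have hAn : A.Nonempty := by
    refine ⟨0, by simp, ?_⟩
    rw [mem_preimage, mem_compl_iff, hUX _ (hX 0), h0]
    exact pp_not_mem_legO hs hs'
  have hu := hAc.sSup_mem hAn
  set u := sSup A with hu'
  have hu1 : u ≠ 1 := by
    intro h
    have h2 := hu.2
    rw [h, mem_preimage, mem_compl_iff, hUX _ (hX 1)] at h2
    exact h2 h1
  have hlt : u < 1 := lt_of_le_of_ne hu.1.2 hu1
  have hin : ∀ t ∈ Ioc u 1, π t ∈ leg s s' := by
    intro t ht
    apply legO_subset_leg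
    by_contra hcon
    have : t ∈ A := ⟨⟨hu.1.1.trans ht.1.le, ht.2⟩, by
      rw [mem_preimage, mem_compl_iff, hUX _ (hX t)]; exact hcon⟩
    exact absurd (le_csSup hAc.bddAbove this) (not_le.2 ht.1)
  have hcl : ∀ t ∈ Icc u 1, π t ∈ leg s s' := by
    intro t ht
    rw [← closure_Ioc hlt.ne] at ht
    rw [← (isClosed_leg s s').closure_eq]
    exact map_mem_closure hc ht hin
  refine ⟨u, hu.1.1, hu.1.2, ?_, hcl⟩
  rcases mem_leg_iff.1 (hcl u ⟨le_refl _, hlt.le⟩) with h | h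
  · exact h
  · exfalso
    have h2 := hu.2
    rw [mem_preimage, mem_compl_iff, hUX _ (hX u)] at h2
    exact h2 h

/-- The key separation: two paths from `pp` ending in the final parts of arcs of different
types cannot be uniformly close. -/
theorem paths_far {s s' r r' : ℝ} (hs : 0 < s) (hs' : 0 < s') (hsS : s ∈ SS) (hsS' : s' ∈ SS)
    (hr : 0 < r) (hr' : 0 < r') (hrS : r ∈ SS) (hrS' : r' ∈ SS) (hsr : s < r)
    {π ρ : ℝ → ℝ × ℝ × ℝ × ℝ × ℝ} (hc : Continuous π) (hX : ∀ t, π t ∈ XX) (h0 : π 0 = pp)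
    (h1 : π 1 ∈ legO s s') (h1' : 0 < (π 1).1)
    (hcρ : Continuous ρ) (hXρ : ∀ t, ρ t ∈ XX) (h0ρ : ρ 0 = pp)
    (h1ρ : ρ 1 ∈ legO r r')
    (hclose : ∀ t, dist (π t) (ρ t) < (r - s) / 8) : False := by
  obtain ⟨u, hu0, hu1, hup, hul⟩ := last_exit hs hs' hsS hsS' hc hX h0 h1
  obtain ⟨v, hv0, hv1, hvp, hvl⟩ := last_exit hr hr' hrS hrS' hcρ hXρ h0ρ h1ρ
  have hss : s * s' ≠ 0 := (mul_pos hs hs').ne'
  have hr1 := SS_le_one hrS
  set m := max u v with hm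
  have hm1 : m ≤ 1 := max_le hu1 hv1
  -- the arc parameter along `π`
  have hpar : ∀ t ∈ Icc m 1, ∃ a, π t = Phi (a, s, s') ∧ (π t).2.2.1 / (s * s') = a := by
    intro t ht
    obtain ⟨a, -, ha⟩ := hul t ⟨(le_max_left _ _).trans ht.1, ht.2⟩
    refine ⟨a, ha.symm, ?_⟩
    rw [← ha]
    simp only [Phi]
    rw [mul_assoc, mul_div_assoc, div_self hss, mul_one]
  have hcont : ContinuousOn (fun t => (π t).2.2.1 / (s * s')) (Icc m 1) := by
    apply Continuous.continuousOn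
    apply Continuous.div_const
    fun_prop
  have hlow : (π m).2.2.1 / (s * s') < 1 / 2 := by
    obtain ⟨a, ha, hb⟩ := hpar m ⟨le_refl _, hm1⟩
    rw [hb]
    apply hh_neg
    have h2 : (π m).1 = hh a := by rw [ha]; rfl
    rw [← h2]
    rcases max_choice u v with h | h
    · rw [hm, h, hup]; simp only [pp]; norm_num
    · have h3 := hclose m
      have h4 : ρ m = pp := by rw [hm, h]; exact hvp
      rw [h4] at h3
      have h5 : dist (π m).1 pp.1 < (r - s) / 8 := lt_of_le_of_lt (by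
        rw [Prod.dist_eq]; exact le_max_left _ _) h3
      rw [Real.dist_eq] at h5
      have h6 := (abs_lt.1 h5).2
      simp only [pp] at h6
      linarith
  have hhigh : 1 / 2 < (π 1).2.2.1 / (s * s') := by
    obtain ⟨a, ha, hb⟩ := hpar 1 ⟨hm1, le_refl _⟩
    rw [hb]
    apply hh_pos
    have h2 : (π 1).1 = hh a := by rw [ha]; rfl
    rw [← h2]
    exact h1'
  obtain ⟨w, hw, hw2⟩ := intermediate_value_Icc hm1 hcont ⟨hlow.le, hhigh.le⟩
  obtain ⟨a, ha, hb⟩ := hpar w hw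
  simp only at hw2
  rw [hw2] at hb
  subst hb
  obtain ⟨b, -, hb⟩ := hvl w ⟨(le_max_right _ _).trans hw.1, hw.2⟩
  have h2 := hclose w
  have h3 : dist (π w).2.1 (ρ w).2.1 < (r - s) / 8 := by
    refine lt_of_le_of_lt ?_ h2
    rw [Prod.dist_eq (x := π w), Prod.dist_eq (x := (π w).2)]
    exact (le_max_left _ _).trans (le_max_right _ _)
  rw [ha, ← hb] at h3
  simp only [Phi] at h3
  rw [vv_half hsS, Real.dist_eq] at h3
  have h4 := vv_le hrS b
  have h5 := (abs_lt.1 h3).2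
  linarith

end Pool.Agent.Y521.GC
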