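import Pool.Agent.Y521.GC

namespace Pool.Agent.Y521.GC

open Set Filter Topology unitInterval

instance : CompactSpace XX := isCompact_iff_compactSpace.1 isCompact_XX

instance : CompactSpace SS := isCompact_iff_compactSpace.1 isCompact_SS

/-- The base point of the space. -/
noncomputable def P0 : XX := ⟨pp, pp_mem_XX⟩

/-- The points of the space. -/
noncomputable def pt (t : I) (l : SS × SS) : XX :=
  ⟨Phi ((t : ℝ), (l.1 : ℝ), (l.2 : ℝ)), by
    refine mem_image_of_mem _ ?_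
    exact ⟨t.2, l.1.2, l.2.2⟩⟩

theorem pt_val (t : I) (l : SS × SS) : (pt t l : ℝ × ℝ × ℝ × ℝ × ℝ) = Phi (t, l.1, l.2) := rfl

theorem pt_zero (l : SS × SS) : pt 0 l = P0 := by
  apply Subtype.ext
  rw [pt_val]
  exact Phi_zero _ _

theorem continuous_pt : Continuous fun q : I × SS × SS => pt q.1 q.2 := by
  apply Continuous.subtype_mk
  refine continuous_Phi.comp ?_
  fun_prop

theorem pt_cover (x : XX) : ∃ l : SS × SS, ∃ t, pt t l = x := by
  obtain ⟨_, ⟨⟨t, s, s'⟩, ⟨ht, hs, hs'⟩, rfl⟩⟩ := x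
  exact ⟨(⟨s, hs⟩, ⟨s', hs'⟩), ⟨t, ht⟩, rfl⟩

/-- The arcs as paths. -/
noncomputable def arcPath (a : I) (l : SS × SS) : Path P0 (pt a l) where
  toFun t := pt (t * a) l
  continuous_toFun := continuous_pt.comp (f := fun t : I => (t * a, l)) (by fun_prop)
  source' := by rw [zero_mul, pt_zero]
  target' := by rw [one_mul]

instance : PathConnectedSpace XX := by
  refine ⟨⟨P0⟩, ?_⟩
  have h : ∀ x : XX, Joined P0 x := by
    intro x
    obtain ⟨l, t, rfl⟩ := pt_cover x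
    exact ⟨arcPath t l⟩
  intro x y
  exact (h x).symm.trans (h y)

/-- The joint continuity of the family of arcs. -/
theorem continuous_arcPath : Continuous ↿(fun l => arcPath 1 l) := by
  have h : Continuous fun q : (SS × SS) × I => pt (q.2 * 1) q.1 :=
    continuous_pt.comp (f := fun q : (SS × SS) × I => (q.2 * 1, q.1)) (by fun_prop)
  have h2 : (↿(fun l => arcPath 1 l) : (SS × SS) × I → XX) =
      fun q : (SS × SS) × I => pt (q.2 * 1) q.1 := rfl
  rw [h2]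
  exact h

/-- `f` composed with the parametrisation is uniformly continuous in the first variable. -/
theorem unif (f : C(XX, XX)) : ∃ δ > 0, ∀ (t t' : I) (l : SS × SS), dist t t' < δ →
    dist (f (pt t l)) (f (pt t' l)) < 1 / 8 := by
  have h : UniformContinuous fun q : I × SS × SS => f (pt q.1 q.2) :=
    CompactSpace.uniformContinuous_of_continuous (f.continuous.comp continuous_pt)
  obtain ⟨δ, hδ, h2⟩ := Metric.uniformContinuous_iff.1 h (1 / 8) (by norm_num)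
  refine ⟨δ, hδ, fun t t' l ht => ?_⟩
  apply h2 (a := (t, l)) (b := (t', l))
  rw [Prod.dist_eq, dist_self]
  exact max_lt ht hδ

theorem dist_fst (x y : XX) : |(x : ℝ × ℝ × ℝ × ℝ × ℝ).1 - (y : ℝ × ℝ × ℝ × ℝ × ℝ).1| ≤ dist x y := by
  rw [Subtype.dist_eq, Prod.dist_eq, ← Real.dist_eq]
  exact le_max_left _ _

theorem hh_one : hh 1 = 1 / 4 := by
  have h1 : min ((1 : ℝ) - 1 / 4) 0 = 0 := min_eq_right (by norm_num)
  have h2 : max ((1 : ℝ) - 3 / 4) 0 = 1 / 4 := by rw [max_eq_left] <;> norm_num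
  unfold hh
  rw [h1, h2]
  norm_num

/-- The connectedness argument: from a preimage of the tip of an arc back to the grid. -/
theorem grid_point {f : C(XX, XX)} {δ : ℝ}
    (hδ : ∀ (t t' : I) (l : SS × SS), dist t t' < δ → dist (f (pt t l)) (f (pt t' l)) < 1 / 8)
    {s s' : ℝ} (hs : 0 < s) (hs' : 0 < s') (hsS : s ∈ SS) (hsS' : s' ∈ SS)
    {τ : I} {l : SS × SS} (hτ : (f (pt τ l) : ℝ × ℝ × ℝ × ℝ × ℝ) = Phi (1, s, s'))
    {a : I} (ha : a ≤ τ) (haδ : (τ : ℝ) - a < δ) :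
    (f (pt a l) : ℝ × ℝ × ℝ × ℝ × ℝ) ∈ legO s s' ∧
      0 < (f (pt a l) : ℝ × ℝ × ℝ × ℝ × ℝ).1 := by
  have hpos : ∀ t ∈ Icc a τ, 0 < (f (pt t l) : ℝ × ℝ × ℝ × ℝ × ℝ).1 := by
    intro t ht
    have h1 : dist t τ < δ := by
      have e1 : (a : ℝ) ≤ t := ht.1
      have e2 : (t : ℝ) ≤ τ := ht.2
      rw [Subtype.dist_eq, Real.dist_eq, abs_lt]
      constructor
      · linarith
      · have : 0 < δ := by
          have : (a : ℝ) ≤ τ := ha
          linarith
        linarith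
    have h2 := lt_of_le_of_lt (dist_fst _ _) (hδ t τ l h1)
    rw [hτ] at h2
    have h3 : (Phi (1, s, s')).1 = 1 / 4 := hh_one
    rw [h3] at h2
    have := (abs_lt.1 h2).1
    linarith
  obtain ⟨U, hU, hUX⟩ := legO_open hs hs' hsS hsS'
  set g : I → ℝ × ℝ × ℝ × ℝ × ℝ := fun t => (f (pt t l) : ℝ × ℝ × ℝ × ℝ × ℝ) with hg
  have hgc : Continuous g := by
    refine continuous_subtype_val.comp (f.continuous.comp ?_)
    exact continuous_pt.comp (f := fun t : I => (t, l)) (by fun_prop)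
  have hpre : IsPreconnected (g '' Icc a τ) := isPreconnected_Icc.image g hgc.continuousOn
  refine ⟨?_, hpos a ⟨le_refl _, ha⟩⟩
  by_contra hcon
  have hnp : ∀ t ∈ Icc a τ, g t ∈ leg s s' → g t ∈ legO s s' := by
    intro t ht hl
    rcases mem_leg_iff.1 hl with h | h
    · exfalso
      have h2 := hpos t ht
      change 0 < (g t).1 at h2
      rw [h] at h2
      simp only [pp] at h2
      norm_num at h2
    · exact h
  obtain ⟨x, ⟨t, ht, rfl⟩, hx1, hx2⟩ := hpre U (leg s s')ᶜ hU (isClosed_leg s s').isOpen_compl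
    (by
      rintro _ ⟨t, ht, rfl⟩
      by_cases hm : g t ∈ leg s s'
      · left
        exact (hUX _ (f (pt t l)).2).2 (hnp t ht hm)
      · right
        exact hm)
    (by
      refine ⟨g τ, ⟨τ, ⟨ha, le_refl _⟩, rfl⟩, ?_⟩
      refine (hUX _ (f (pt τ l)).2).2 ?_
      rw [hτ]
      exact ⟨1, by simp, rfl⟩)
    (by
      refine ⟨g a, ⟨a, ⟨le_refl _, ha⟩, rfl⟩, fun hl => hcon ?_⟩
      exact hnp a ⟨le_refl _, ha⟩ hl)
  exact hx2 (legO_subset_leg ((hUX _ (f (pt t l)).2).1 hx1))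

/-- For a parameter different from `1/2` there are only finitely many points
`Phi (t, c, 0)`. -/
theorem finite_tpoints {t : ℝ} (ht : t ≠ 1 / 2) : ((fun c => Phi (t, c, 0)) '' SS).Finite := by
  set d : ℝ := |t - 1 / 2| with hd
  have hdpos : 0 < d := abs_pos.2 (sub_ne_zero.2 ht)
  have hfin : ((fun c => Phi (t, c, 0)) '' (SS ∩ Ici d)).Finite := (SS_finite hdpos).image _
  refine (hfin.union (finite_singleton (Phi (t, 0, 0)))).subset ?_
  rintro _ ⟨c, hc, rfl⟩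
  by_cases h : d ≤ c
  · left
    exact ⟨c, ⟨hc, h⟩, rfl⟩
  · right
    rw [not_le] at h
    rw [mem_singleton_iff]
    simp only [Phi, mul_zero, zero_mul]
    have h0 := SS_nonneg hc
    have h2 : min (t - 1 / 4) (3 / 4 - t) ≤ 1 / 4 - d := by
      rcases le_total t (1 / 2) with h3 | h3
      · rw [hd, abs_of_nonpos (by linarith)]
        refine (min_le_left _ _).trans ?_
        linarith
      · rw [hd, abs_of_nonneg (by linarith)]
        refine (min_le_right _ _).trans ?_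
        linarith
    have h3 : vv c t = vv 0 t := by
      unfold vv
      rw [min_eq_left (b := 1 / 4 - c / 8) (by linarith),
        min_eq_left (b := 1 / 4 - 0 / 8) (by linarith)]
    rw [h3]

/-- For every `k` some point `Phi (i/N, c, 0)` is a limit of points sent to the final parts of
arcs of type `k`. -/
theorem limit_point {f : C(XX, XX)} (hf : Function.Surjective f) {δ : ℝ}
    (hδ : ∀ (t t' : I) (l : SS × SS), dist t t' < δ → dist (f (pt t l)) (f (pt t' l)) < 1 / 8)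
    {G : Set I} (hG : G.Finite) (hGδ : ∀ τ : I, ∃ a ∈ G, a ≤ τ ∧ (τ : ℝ) - a < δ)
    {s : ℝ} (hs : 0 < s) (hsS : s ∈ SS) :
    ∃ a ∈ G, ∃ c ∈ SS, ∀ ε > 0, ∃ y : XX, dist (y : ℝ × ℝ × ℝ × ℝ × ℝ) (Phi ((a : ℝ), c, 0)) < ε ∧
      ∃ s' ∈ SS, 0 < s' ∧ (f y : ℝ × ℝ × ℝ × ℝ × ℝ) ∈ legO s s' ∧
        0 < (f y : ℝ × ℝ × ℝ × ℝ × ℝ).1 := by
  have hstep : ∀ n : ℕ, ∃ q : I × SS × SS, q.1 ∈ G ∧
      (f (pt q.1 q.2) : ℝ × ℝ × ℝ × ℝ × ℝ) ∈ legO s (1 / ((n : ℝ) + 1)) ∧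
        0 < (f (pt q.1 q.2) : ℝ × ℝ × ℝ × ℝ × ℝ).1 := by
    intro n
    obtain ⟨x, hx⟩ := hf (pt 1 (⟨s, hsS⟩, ⟨1 / ((n : ℝ) + 1), inv_mem_SS n⟩))
    obtain ⟨l, τ, rfl⟩ := pt_cover x
    obtain ⟨a, haG, haτ, had⟩ := hGδ τ
    refine ⟨(a, l), haG, ?_⟩
    exact grid_point hδ hs (by positivity) hsS (inv_mem_SS n)
      (by rw [hx]; rfl) haτ had
  choose q hqG hq1 hq2 using hstep
  have hcomp : IsCompact (G ×ˢ (univ : Set (SS × SS))) := hG.isCompact.prod isCompact_univ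
  obtain ⟨⟨a, c, c'⟩, ⟨haG, -⟩, φ, hφ, hlim⟩ :=
    hcomp.tendsto_subseq (x := q) (fun n => ⟨hqG n, mem_univ _⟩)
  have ha : Tendsto (fun n => (q (φ n)).1) atTop (𝓝 a) := (continuous_fst.tendsto _).comp hlim
  have hc : Tendsto (fun n => (q (φ n)).2.1) atTop (𝓝 c) :=
    ((continuous_fst.comp continuous_snd).tendsto _).comp hlim
  have hc' : Tendsto (fun n => (q (φ n)).2.2) atTop (𝓝 c') :=
    ((continuous_snd.comp continuous_snd).tendsto _).comp hlim
  -- the limit lies in the triod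
  have hzero : (c : ℝ) = 0 ∨ (c' : ℝ) = 0 := by
    by_contra hcon
    rw [not_or] at hcon
    have p1 : 0 < (c : ℝ) := lt_of_le_of_ne (SS_nonneg c.2) (Ne.symm hcon.1)
    have p2 : 0 < (c' : ℝ) := lt_of_le_of_ne (SS_nonneg c'.2) (Ne.symm hcon.2)
    have e0 : ∀ᶠ n in atTop, (q (φ n)).1 = a := by
      have hfin2 : (G \ {a}).Finite := hG.subset sdiff_subset
      have hmem : (G \ {a})ᶜ ∈ 𝓝 a := hfin2.isClosed.isOpen_compl.mem_nhds (fun h => h.2 rfl)
      filter_upwards [ha hmem] with n hn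
      by_contra hne
      exact hn ⟨hqG _, hne⟩
    have key : ∀ (ψ : ℕ → SS) (r : SS), 0 < (r : ℝ) → Tendsto ψ atTop (𝓝 r) →
        ∀ᶠ n in atTop, ψ n = r := by
      intro ψ r hr hψ
      obtain ⟨δ1, hδ1, h1⟩ := SS_isolated hr
      filter_upwards [Metric.tendsto_nhds.1 hψ δ1 hδ1] with n hn
      by_contra hne
      refine h1 (ψ n) (ψ n).2 ?_ (fun h => hne (Subtype.ext h))
      rw [Subtype.dist_eq, Real.dist_eq] at hn
      exact hn
    have e1 := key _ _ p1 hc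
    have e2 := key _ _ p2 hc'
    obtain ⟨n0, hn0⟩ := (e0.and (e1.and e2)).exists_forall_of_atTop
    have hq' : ∀ n ≥ n0, q (φ n) = (a, c, c') := fun n hn =>
      Prod.ext (hn0 n hn).1 (Prod.ext (hn0 n hn).2.1 (hn0 n hn).2.2)
    have h1 := hq1 (φ n0)
    have h2 := hq1 (φ (n0 + 1))
    rw [hq' n0 (le_refl _)] at h1
    rw [hq' (n0 + 1) (Nat.le_succ _)] at h2
    obtain ⟨u, hu, hu2⟩ := h1
    obtain ⟨-, h3, -⟩ := legO_inj hs (by positivity) h2 hu2.symm
    have h4 : ((φ n0 : ℕ) : ℝ) = (φ (n0 + 1) : ℕ) := by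
      have h5 : ((φ n0 : ℕ) : ℝ) + 1 ≠ 0 := by positivity
      have h6 : ((φ (n0 + 1) : ℕ) : ℝ) + 1 ≠ 0 := by positivity
      field_simp at h3
      linarith
    have h5 : φ n0 = φ (n0 + 1) := by exact_mod_cast h4
    exact absurd (hφ (Nat.lt_succ_self n0)) (by rw [← h5]; exact lt_irrefl _)
  have hPhi : ∃ c'' ∈ SS, Phi ((a : ℝ), (c : ℝ), (c' : ℝ)) = Phi ((a : ℝ), c'', 0) := by
    rcases hzero with h | h
    · refine ⟨0, zero_mem_SS, ?_⟩
      rw [h]
      simp [Phi]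
    · refine ⟨c, c.2, ?_⟩
      rw [h]
  obtain ⟨c'', hc'', hPhi⟩ := hPhi
  refine ⟨a, haG, c'', hc'', fun ε hε => ?_⟩
  have hlim2 : Tendsto (fun n => (pt (q (φ n)).1 (q (φ n)).2 : ℝ × ℝ × ℝ × ℝ × ℝ)) atTop
      (𝓝 (Phi ((a : ℝ), c'', 0))) := by
    rw [← hPhi]
    exact ((continuous_subtype_val.comp continuous_pt).tendsto (a, c, c')).comp hlim
  obtain ⟨n, hn⟩ := (Metric.tendsto_nhds.1 hlim2 ε hε).exists
  exact ⟨pt (q (φ n)).1 (q (φ n)).2, hn, _, inv_mem_SS (φ n), by positivity, hq1 _, hq2 _⟩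

end Pool.Agent.Y521.GC
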